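import Pool.Agent.Q31.AN.Lie

set_option autoImplicit false

/-! Necessary condition on the graph when the standard rational form is Anosov. -/

namespace Pool.Agent.Q31.AN

open scoped TensorProduct
open Polynomial

/-- a rational number which is the power of an algebraic unit is `± 1` -/
lemma abs_eq_one_of_integral {c : ℚ} (h1 : IsIntegral ℤ c) (h2 : IsIntegral ℤ c⁻¹) (hc : c ≠ 0) :
    |c| = 1 := by
  obtain ⟨k, hk⟩ := (IsIntegrallyClosed.isIntegral_iff (R := ℤ) (K := ℚ)).mp h1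
  obtain ⟨l, hl⟩ := (IsIntegrallyClosed.isIntegral_iff (R := ℤ) (K := ℚ)).mp h2
  have hkl : k * l = 1 := by
    have : ((k * l : ℤ) : ℚ) = 1 := by
      push_cast
      have e1 : (k : ℚ) = c := hk
      have e2 : (l : ℚ) = c⁻¹ := hl
      rw [e1, e2, mul_inv_cancel₀ hc]
    exact_mod_cast this
  have hk1 : k = 1 ∨ k = -1 := Int.isUnit_iff.mp (IsUnit.of_mul_eq_one l hkl)
  have e1 : c = (k : ℚ) := hk.symm
  rcases hk1 with rfl | rfl
  · rw [e1]; simp
  · rw [e1]; simp

lemma inv_integral_of_root {F : Type} [Field F] {p : ℤ[X]}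
    (h0 : p.coeff 0 = 1 ∨ p.coeff 0 = -1) {z : F} (hz : aeval z p = 0) (_hz0 : z ≠ 0)
    (hzi : IsIntegral ℤ z) : IsIntegral ℤ z⁻¹ := by
  have h1 : z * aeval z (divX p) = - algebraMap ℤ F (p.coeff 0) := by
    have h2 : aeval z p = z * aeval z (divX p) + algebraMap ℤ F (p.coeff 0) := by
      conv_lhs => rw [← X_mul_divX_add p]
      simp
    rw [h2] at hz
    exact eq_neg_of_add_eq_zero_left hz
  have h3 : IsIntegral ℤ (aeval z (divX p)) := by
    exact IsIntegral.of_mem_of_fg (Algebra.adjoin ℤ {z}) hzi.fg_adjoin_singleton _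
      (aeval_mem_adjoin_singleton ℤ z)
  rcases h0 with h | h
  · have : z⁻¹ = - aeval z (divX p) := by
      rw [h] at h1
      simp only [map_one] at h1
      have : z * (- aeval z (divX p)) = 1 := by rw [mul_neg, h1, neg_neg]
      exact inv_eq_of_mul_eq_one_right this
    rw [this]; exact h3.neg
  · have : z⁻¹ = aeval z (divX p) := by
      rw [h] at h1
      simp only [map_neg, map_one, neg_neg] at h1
      exact inv_eq_of_mul_eq_one_right h1
    rw [this]; exact h3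

/-- no rational eigenvalue of a power of a hyperbolic integer-like map -/
lemma no_rat_eigen {N : Type} [AddCommGroup N] [Module ℚ N] [FiniteDimensional ℚ N]
    (F : Module.End ℚ N) (p : ℤ[X])
    (hp : p.map (Int.castRingHom ℚ) = LinearMap.charpoly F)
    (h0 : p.coeff 0 = 1 ∨ p.coeff 0 = -1)
    (hroot : ∀ z : ℂ, (p.map (Int.castRingHom ℂ)).IsRoot z → ‖z‖ ≠ 1)
    (m : ℕ) (hm : 0 < m) (v : N) (hv : v ≠ 0) (c : ℚ) (hvc : (F ^ m) v = c • v) : False := by
  set FC : Module.End ℂ (ℂ ⊗[ℚ] N) := F.baseChange ℂ with hFC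
  have hmonic : p.Monic := by
    have h := LinearMap.charpoly_monic F
    rw [← hp] at h
    exact Polynomial.monic_of_injective (RingHom.injective_int _) h
  have hcp : LinearMap.charpoly FC = p.map (Int.castRingHom ℂ) := by
    rw [hFC, LinearMap.charpoly_baseChange, ← hp, Polynomial.map_map]
    congr 1
  have hw : (1 : ℂ) ⊗ₜ[ℚ] v ≠ 0 := by
    intro h
    apply hv
    have hinj : Function.Injective (TensorProduct.mk ℚ ℂ N 1) :=
      (Module.FaithfullyFlat.tensorProduct_mk_injective (A := ℚ) (B := ℂ) N)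
    apply hinj
    simpa using h
  have hpow : (FC ^ m) ((1 : ℂ) ⊗ₜ[ℚ] v) = (algebraMap ℚ ℂ c) • ((1 : ℂ) ⊗ₜ[ℚ] v) := by
    rw [hFC, ← LinearMap.baseChange_pow, LinearMap.baseChange_tmul, hvc]
    rw [TensorProduct.tmul_smul, TensorProduct.smul_tmul', TensorProduct.smul_tmul']
    simp [Algebra.smul_def]
  have hev : Module.End.HasEigenvalue (FC ^ m) (algebraMap ℚ ℂ c) :=
    Module.End.hasEigenvalue_of_hasEigenvector ⟨Module.End.mem_eigenspace_iff.mpr hpow, hw⟩
  have hsp : algebraMap ℚ ℂ c ∈ spectrum ℂ (FC ^ m) := hev.mem_spectrum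
  rw [spectrum.map_pow_of_pos FC hm] at hsp
  obtain ⟨z, hz, hzm⟩ := hsp
  have hzev : Module.End.HasEigenvalue FC z := Module.End.hasEigenvalue_iff_mem_spectrum.mpr hz
  have hzroot : (p.map (Int.castRingHom ℂ)).IsRoot z := by
    rw [← hcp]
    exact (Module.End.hasEigenvalue_iff_isRoot_charpoly FC z).mp hzev
  have haz : aeval z p = 0 := by
    have := hzroot
    rw [IsRoot, eval_map] at this
    rw [aeval_def]; exact this
  have hz0 : z ≠ 0 := by
    rintro rfl
    have h1 : aeval (0 : ℂ) p = algebraMap ℤ ℂ (p.coeff 0) := by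
      rw [aeval_def, eval₂_at_zero]
    rw [h1] at haz
    rcases h0 with h | h <;> rw [h] at haz <;> simp at haz
  have hzi : IsIntegral ℤ z := ⟨p, hmonic, haz⟩
  have hzi' : IsIntegral ℤ z⁻¹ := inv_integral_of_root h0 haz hz0 hzi
  have hc0 : c ≠ 0 := by
    rintro rfl
    simp only [map_zero] at hzm
    exact hz0 (pow_eq_zero_iff hm.ne' |>.mp hzm)
  have hci : IsIntegral ℤ c := by
    have : IsIntegral ℤ (algebraMap ℚ ℂ c) := by rw [← hzm]; exact hzi.pow m
    exact (isIntegral_algebraMap_iff (algebraMap ℚ ℂ).injective).mp this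
  have hci' : IsIntegral ℤ c⁻¹ := by
    have : IsIntegral ℤ (algebraMap ℚ ℂ c⁻¹) := by
      rw [map_inv₀, ← hzm]; simp only; rw [← inv_pow]; exact hzi'.pow m
    exact (isIntegral_algebraMap_iff (algebraMap ℚ ℂ).injective).mp this
  have habs := abs_eq_one_of_integral hci hci' hc0
  apply hroot z hzroot
  have h2 : ‖z‖ ^ m = 1 := by
    rw [← norm_pow, show z ^ m = algebraMap ℚ ℂ c from hzm]
    have : ‖algebraMap ℚ ℂ c‖ = |(c : ℝ)| := by
      rw [eq_ratCast]
      rw [← Complex.ofReal_ratCast, Complex.norm_real, Real.norm_eq_abs]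
    rw [this]
    have : |(c : ℝ)| = ((|c| : ℚ) : ℝ) := by push_cast; rfl
    rw [this, habs]; simp
  exact (pow_eq_one_iff_of_nonneg (norm_nonneg z) hm.ne').mp h2

/-- the same, from a functional -/
lemma no_functional {N : Type} [AddCommGroup N] [Module ℚ N] [FiniteDimensional ℚ N]
    (F : Module.End ℚ N) (p : ℤ[X])
    (hp : p.map (Int.castRingHom ℚ) = LinearMap.charpoly F)
    (h0 : p.coeff 0 = 1 ∨ p.coeff 0 = -1)
    (hroot : ∀ z : ℂ, (p.map (Int.castRingHom ℂ)).IsRoot z → ‖z‖ ≠ 1)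
    (m : ℕ) (hm : 0 < m) (Z : Submodule ℚ N) (hZ : ∀ x ∈ Z, (F ^ m) x ∈ Z)
    (ℓ : N →ₗ[ℚ] ℚ) (c : ℚ) (hℓ : ∀ x ∈ Z, ℓ ((F ^ m) x) = c * ℓ x)
    (w : N) (hw : w ∈ Z) (hw' : ℓ w ≠ 0) : False := by
  -- the restriction of `F ^ m - c` to `Z` is not surjective
  let T : Z →ₗ[ℚ] Z := ((F ^ m).restrict hZ) - c • LinearMap.id
  have hT : ¬ Function.Surjective T := by
    intro hs
    obtain ⟨u, hu⟩ := hs ⟨w, hw⟩
    apply hw'
    have h1 : (T u : N) = w := congrArg Subtype.val hu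
    rw [← h1]
    have h2 : (T u : N) = (F ^ m) u.1 - c • u.1 := by
      simp [T, LinearMap.restrict_apply]
    rw [h2, map_sub, hℓ u.1 u.2, map_smul, smul_eq_mul, sub_self]
  have hT' : ¬ Function.Injective T := fun h => hT (LinearMap.injective_iff_surjective.mp h)
  rw [← LinearMap.ker_eq_bot, ← ne_eq, Submodule.ne_bot_iff] at hT'
  obtain ⟨v, hv, hv0⟩ := hT'
  have h2 : (T v : N) = (F ^ m) v.1 - c • v.1 := by
    simp [T, LinearMap.restrict_apply]
  have h3 : (F ^ m) v.1 = c • v.1 := by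
    have h4 : (T v : N) = 0 := by rw [LinearMap.mem_ker.mp hv]; rfl
    rw [h2] at h4
    exact sub_eq_zero.mp h4
  exact no_rat_eigen F p hp h0 hroot m hm v.1 (fun h => hv0 (Subtype.ext h)) c h3

section

variable {n : ℕ} {G : SimpleGraph (Fin n)} {N : Type} [LieRing N]
  [LieAlgebra ℚ N] {b : Module.Basis (Fin n ⊕ G.edgeSet) ℚ N}

/-- the coordinate subspaces attached to a set of vertices -/
def ZS (b : Module.Basis (Fin n ⊕ G.edgeSet) ℚ N) (S : Fin n → Prop) : Submodule ℚ N where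
  carrier := {x | ∀ i, b.repr x (Sum.inl i) ≠ 0 → S i}
  zero_mem' := by intro i h; simp at h
  add_mem' := by
    intro x y hx hy i h
    by_contra hc
    apply h
    have h1 : b.repr x (Sum.inl i) = 0 := by by_contra h'; exact hc (hx i h')
    have h2 : b.repr y (Sum.inl i) = 0 := by by_contra h'; exact hc (hy i h')
    rw [map_add, Finsupp.add_apply, h1, h2, add_zero]
  smul_mem' := by
    intro c x hx i h
    apply hx i
    intro h'
    apply h
    rw [map_smul, Finsupp.smul_apply, h', smul_zero]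

lemma mem_ZS {S : Fin n → Prop} {x : N} :
    x ∈ ZS b S ↔ ∀ i, b.repr x (Sum.inl i) ≠ 0 → S i := Iff.rfl

lemma GrBasis.der_inr (hb : GrBasis G b) {D : N →ₗ[ℚ] N} (hD : IsDer D) (e : G.edgeSet)
    (i : Fin n) : b.repr (D (b (Sum.inr e))) (Sum.inl i) = 0 := by
  classical
  obtain ⟨e, he⟩ := e
  induction e using Sym2.ind with
  | _ k l =>
    have hkl : G.Adj k l := G.mem_edgeSet.mp he
    rcases lt_or_gt_of_ne hkl.ne with h | h
    · rw [← hb.adj k l hkl h, hD, map_add, Finsupp.add_apply, hb.repr_bracket_inl,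
        hb.repr_bracket_inl, add_zero]
    · have h1 : (⟨s(k, l), he⟩ : G.edgeSet) =
        ⟨s(l, k), G.mem_edgeSet.mpr hkl.symm⟩ := Subtype.ext Sym2.eq_swap
      rw [h1, ← hb.adj l k hkl.symm h, hD, map_add, Finsupp.add_apply, hb.repr_bracket_inl,
        hb.repr_bracket_inl, add_zero]

lemma GrBasis.dst_ZS (hb : GrBasis G b) (S : Fin n → Prop)
    (hS : ∀ i j, Le G i j → S j → S i) : DSt (ZS b S) := by
  classical
  have : Fintype G.edgeSet := Fintype.ofFinite _
  intro D hD x hx i hi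
  rw [← b.sum_repr x, map_sum, map_sum, Finsupp.coe_finsetSum, Finset.sum_apply] at hi
  obtain ⟨k, -, hk⟩ := Finset.exists_ne_zero_of_sum_ne_zero hi
  rw [map_smul, map_smul, Finsupp.smul_apply, smul_eq_mul] at hk
  rcases k with j | e
  · exact hS i j (hb.der_le hD i j (right_ne_zero_of_mul hk)) (hx j (left_ne_zero_of_mul hk))
  · exact absurd (hb.der_inr hD e i) (right_ne_zero_of_mul hk)

/-- span of the brackets of a subspace -/
def BrS (Z : Submodule ℚ N) : Submodule ℚ N :=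
  Submodule.span ℚ {w | ∃ x ∈ Z, ∃ y ∈ Z, w = ⁅x, y⁆}

lemma dst_BrS {Z : Submodule ℚ N} (hZ : DSt Z) : DSt (BrS Z) := by
  intro D hD x hx
  induction hx using Submodule.span_induction with
  | mem x hx =>
    obtain ⟨u, hu, v, hv, rfl⟩ := hx
    rw [hD]
    exact Submodule.add_mem _ (Submodule.subset_span ⟨_, hZ D hD u hu, v, hv, rfl⟩)
      (Submodule.subset_span ⟨u, hu, _, hZ D hD v hv, rfl⟩)
  | zero => rw [map_zero]; exact Submodule.zero_mem _
  | add x y _ _ h1 h2 => rw [map_add]; exact Submodule.add_mem _ h1 h2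
  | smul c x _ h => rw [map_smul]; exact Submodule.smul_mem _ _ h

lemma iter_lie (f : N ≃ₗ⁅ℚ⁆ N) (m : ℕ) (x y : N) :
    (f : N → N)^[m] ⁅x, y⁆ = ⁅(f : N → N)^[m] x, (f : N → N)^[m] y⁆ := by
  induction m with
  | zero => rfl
  | succ m ih => rw [Function.iterate_succ_apply', ih, LieEquiv.map_lie,
      Function.iterate_succ_apply', Function.iterate_succ_apply']

lemma pow_eq_iter (f : N ≃ₗ⁅ℚ⁆ N) (m : ℕ) (x : N) :
    ((f.toLinearEquiv.toLinearMap : Module.End ℚ N) ^ m) x = (f : N → N)^[m] x := by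
  rw [Module.End.pow_apply]; rfl

/-- Necessary conditions. -/
theorem nec [FiniteDimensional ℚ N] (hb : GrBasis G b) (f : N ≃ₗ⁅ℚ⁆ N) (p : ℤ[X])
    (hp : p.map (Int.castRingHom ℚ) = LinearMap.charpoly f.toLinearEquiv.toLinearMap)
    (h0 : p.coeff 0 = 1 ∨ p.coeff 0 = -1)
    (hroot : ∀ z : ℂ, (p.map (Int.castRingHom ℂ)).IsRoot z → ‖z‖ ≠ 1) :
    (∀ α, ∃ γ, γ ≠ α ∧ Le G γ α ∧ Le G α γ) ∧
    (∀ α β, G.Adj α β → ∃ γ, γ ≠ α ∧ γ ≠ β ∧ Le G γ α ∧ Le G α γ) := by
  classical
  obtain ⟨m, hm, hstab⟩ := hb.exists_pow f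
  set F : Module.End ℚ N := f.toLinearEquiv.toLinearMap with hF
  have hFm : ∀ x, (F ^ m) x = (f : N → N)^[m] x := fun x => pow_eq_iter f m x
  -- the two subspaces attached to a vertex
  have hZ1 : ∀ α, DSt (ZS b (fun i => Le G i α)) := fun α =>
    hb.dst_ZS _ (fun i j hij hj => hij.trans hj)
  have hZ2 : ∀ α, DSt (ZS b (fun i => Le G i α ∧ ¬ Le G α i)) := fun α =>
    hb.dst_ZS _ (fun i j hij hj => ⟨hij.trans hj.1, fun h => hj.2 (h.trans hij)⟩)
  have part1 : ∀ α, ∃ γ, γ ≠ α ∧ Le G γ α ∧ Le G α γ := by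
    intro α
    by_contra hcon
    push Not at hcon
    let ℓ : N →ₗ[ℚ] ℚ := b.coord (Sum.inl α)
    have hℓ : ∀ x, ℓ x = b.repr x (Sum.inl α) := fun x => b.coord_apply _ _
    refine no_functional F p hp h0 hroot m hm (ZS b (fun i => Le G i α)) ?_ ℓ
      (ℓ ((F ^ m) (b (Sum.inl α)))) ?_ (b (Sum.inl α)) ?_ ?_
    · intro x hx; rw [hFm]; exact hstab _ (hZ1 α) x hx
    · intro x hx
      have hx' : x - (ℓ x) • b (Sum.inl α) ∈ ZS b (fun i => Le G i α ∧ ¬ Le G α i) := by
        intro i hi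
        rw [map_sub, Finsupp.sub_apply, map_smul, Finsupp.smul_apply, b.repr_self,
          Finsupp.single_apply, hℓ] at hi
        by_cases hiα : i = α
        · subst hiα; simp at hi
        · rw [if_neg (fun h => hiα (Sum.inl.inj h).symm), smul_zero, sub_zero] at hi
          have h1 := hx i hi
          exact ⟨h1, fun h2 => hcon i hiα h1 h2⟩
      have h3 := hstab _ (hZ2 α) _ hx'
      rw [← hFm, map_sub, map_smul] at h3
      have h4 : ℓ ((F ^ m) x - (ℓ x) • (F ^ m) (b (Sum.inl α))) = 0 := by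
        by_contra h5
        rw [hℓ] at h5
        exact (h3 α h5).2 (Le.refl G α)
      rw [map_sub, map_smul, smul_eq_mul, sub_eq_zero] at h4
      rw [h4]; ring
    · intro i hi
      rw [b.repr_self, Finsupp.single_apply] at hi
      have : α = i := by
        by_contra h; apply hi; rw [if_neg (fun h' => h (Sum.inl.inj h'))]
      subst this; exact Le.refl G α
    · rw [hℓ, b.repr_self]; simp
  refine ⟨part1, ?_⟩
  intro α β hαβ
  by_contra hcon
  push Not at hcon
  -- the class of `α` is `{α, β}`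
  have hcl : Le G β α ∧ Le G α β := by
    obtain ⟨γ, hγ, h1, h2⟩ := part1 α
    by_cases hγβ : γ = β
    · subst hγβ; exact ⟨h1, h2⟩
    · exact absurd h2 (hcon γ hγ hγβ h1)
  set Z := ZS b (fun i => Le G i α) with hZdef
  set Z' := ZS b (fun i => Le G i α ∧ ¬ Le G α i) with hZ'def
  let ℓα : N →ₗ[ℚ] ℚ := b.coord (Sum.inl α)
  let ℓβ : N →ₗ[ℚ] ℚ := b.coord (Sum.inl β)
  have hℓα : ∀ x, ℓα x = b.repr x (Sum.inl α) := fun x => b.coord_apply _ _
  have hℓβ : ∀ x, ℓβ x = b.repr x (Sum.inl β) := fun x => b.coord_apply _ _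
  have hne : α ≠ β := hαβ.ne
  have hdec : ∀ x ∈ Z, ∀ (ℓ : N →ₗ[ℚ] ℚ), (∀ y ∈ Z', ℓ y = 0) →
      ℓ ((F ^ m) x) = ℓα x * ℓ ((F ^ m) (b (Sum.inl α))) +
        ℓβ x * ℓ ((F ^ m) (b (Sum.inl β))) := by
    intro x hx ℓ hℓ
    have hx' : x - ((ℓα x) • b (Sum.inl α) + (ℓβ x) • b (Sum.inl β)) ∈ Z' := by
      intro i hi
      rw [map_sub, Finsupp.sub_apply, map_add, Finsupp.add_apply, map_smul, map_smul,
        Finsupp.smul_apply, Finsupp.smul_apply, b.repr_self, b.repr_self,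
        Finsupp.single_apply, Finsupp.single_apply, hℓα, hℓβ] at hi
      by_cases hiα : i = α
      · subst hiα
        rw [if_pos rfl, if_neg (fun h => hne (Sum.inl.inj h).symm)] at hi
        simp at hi
      · by_cases hiβ : i = β
        · subst hiβ
          rw [if_neg (fun h => hne (Sum.inl.inj h)), if_pos rfl] at hi
          simp at hi
        · rw [if_neg (fun h => hiα (Sum.inl.inj h).symm),
            if_neg (fun h => hiβ (Sum.inl.inj h).symm), smul_zero, smul_zero, add_zero,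
            sub_zero] at hi
          have h1 := hx i hi
          exact ⟨h1, fun h2 => hcon i hiα hiβ h1 h2⟩
    have h3 := hstab _ (hZ2 α) _ hx'
    rw [← hFm, map_sub, map_add, map_smul, map_smul] at h3
    have h4 := hℓ _ h3
    rw [map_sub, map_add, map_smul, map_smul, smul_eq_mul, smul_eq_mul, sub_eq_zero] at h4
    exact h4
  have hkα : ∀ y ∈ Z', ℓα y = 0 := by
    intro y hy
    by_contra h5
    rw [hℓα] at h5
    exact (hy α h5).2 (Le.refl G α)
  have hkβ : ∀ y ∈ Z', ℓβ y = 0 := by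
    intro y hy
    by_contra h5
    rw [hℓβ] at h5
    exact (hy β h5).2 hcl.2
  let ℓe : N →ₗ[ℚ] ℚ := b.coord (Sum.inr ⟨s(α, β), G.mem_edgeSet.mpr hαβ⟩)
  have hℓe : ∀ x y, ℓe ⁅x, y⁆ = sg ℚ α β * (ℓα x * ℓβ y - ℓβ x * ℓα y) := by
    intro x y
    have : ℓe ⁅x, y⁆ = b.repr ⁅x, y⁆ (Sum.inr ⟨s(α, β), G.mem_edgeSet.mpr hαβ⟩) :=
      b.coord_apply _ _
    rw [this, hb.repr_bracket_inr x y α β hαβ, hℓα, hℓβ, hℓβ, hℓα]
  have hbα : b (Sum.inl α) ∈ Z := by
    intro i hi
    rw [b.repr_self, Finsupp.single_apply] at hi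
    have : α = i := by
      by_contra h; apply hi; rw [if_neg (fun h' => h (Sum.inl.inj h'))]
    subst this; exact Le.refl G α
  have hbβ : b (Sum.inl β) ∈ Z := by
    intro i hi
    rw [b.repr_self, Finsupp.single_apply] at hi
    have : β = i := by
      by_contra h; apply hi; rw [if_neg (fun h' => h (Sum.inl.inj h'))]
    subst this; exact hcl.1
  set c11 := ℓα ((F ^ m) (b (Sum.inl α)))
  set c12 := ℓα ((F ^ m) (b (Sum.inl β)))
  set c21 := ℓβ ((F ^ m) (b (Sum.inl α)))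
  set c22 := ℓβ ((F ^ m) (b (Sum.inl β)))
  refine no_functional F p hp h0 hroot m hm (BrS Z) ?_ ℓe (c11 * c22 - c12 * c21) ?_
    ⁅b (Sum.inl α), b (Sum.inl β)⁆ (Submodule.subset_span ⟨_, hbα, _, hbβ, rfl⟩) ?_
  · intro x hx; rw [hFm]; exact hstab _ (dst_BrS (hZ1 α)) x hx
  · intro x hx
    induction hx using Submodule.span_induction with
    | mem x hx =>
      obtain ⟨u, hu, v, hv, rfl⟩ := hx
      rw [hFm, iter_lie, ← hFm, ← hFm, hℓe, hℓe, hdec u hu ℓα hkα, hdec u hu ℓβ hkβ,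
        hdec v hv ℓα hkα, hdec v hv ℓβ hkβ]
      ring
    | zero => simp
    | add x y _ _ h1 h2 => rw [map_add, map_add, map_add, h1, h2]; ring
    | smul c x _ h => rw [map_smul, map_smul, map_smul, smul_eq_mul, smul_eq_mul, h]; ring
  · rw [hℓe]
    have e1 : ℓα (b (Sum.inl α)) = 1 := by rw [hℓα, b.repr_self]; simp
    have e2 : ℓβ (b (Sum.inl β)) = 1 := by rw [hℓβ, b.repr_self]; simp
    have e3 : ℓα (b (Sum.inl β)) = 0 := by
      rw [hℓα, b.repr_self, Finsupp.single_apply, if_neg (fun h => hne (Sum.inl.inj h).symm)]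
    rw [e1, e2, e3]
    simpa using sg_ne (K := ℚ) α β

end

end Pool.Agent.Q31.AN
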