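import Pool.Agent.Q31.AN.Core
import Pool.Agent.Q31.AN.Nec

set_option autoImplicit false

/-! Assembly: from the matrix statement to Lie algebras. -/

namespace Pool.Agent.Q31.AN

open Matrix Polynomial

variable {n : ℕ}

section newbasis

variable {G : SimpleGraph (Fin n)} {E : Type} [LieRing E] [LieAlgebra ℝ E]
  {e : Module.Basis (Fin n ⊕ G.edgeSet) ℝ E}

/-- projection to the vertex coordinates -/
noncomputable def pr (e : Module.Basis (Fin n ⊕ G.edgeSet) ℝ E) : E →ₗ[ℝ] (Fin n → ℝ) :=
  LinearMap.pi (fun i => e.coord (Sum.inl i))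

lemma pr_apply (x : E) (i : Fin n) : pr e x i = e.repr x (Sum.inl i) := rfl

lemma GrBasis.bracket' (he : GrBasis G e) (x y : E) :
    ⁅x, y⁆ = ∑ i, ∑ j, (pr e x i * pr e y j) • ⁅e (Sum.inl i), e (Sum.inl j)⁆ :=
  he.bracket x y

lemma GrBasis.bracket_congr (he : GrBasis G e) {x y x' y' : E} (hx : pr e x = pr e x')
    (hy : pr e y = pr e y') : ⁅x, y⁆ = ⁅x', y'⁆ := by
  rw [he.bracket', he.bracket' x' y', hx, hy]

lemma GrBasis.pr_bracket (he : GrBasis G e) (x y : E) : pr e ⁅x, y⁆ = 0 := by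
  funext i
  rw [pr_apply, he.repr_bracket_inl]; rfl

lemma GrBasis.cen_bracket (he : GrBasis G e) (x y z : E) : ⁅⁅x, y⁆, z⁆ = 0 := by
  rw [he.bracket']
  apply Finset.sum_eq_zero
  intro i _
  apply Finset.sum_eq_zero
  intro j _
  rw [he.pr_bracket]; simp

/-- the family attached to new generators -/
noncomputable def nb (G : SimpleGraph (Fin n)) (u : Fin n → E) : Fin n ⊕ G.edgeSet → E :=
  Sum.elim u (fun s => ⁅u s.1.inf, u s.1.sup⁆)

omit [LieAlgebra ℝ E] in
lemma nb_inr (u : Fin n → E) (i j : Fin n) (h : G.Adj i j) (hij : i < j) :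
    nb G u (Sum.inr ⟨s(i, j), G.mem_edgeSet.mpr h⟩) = ⁅u i, u j⁆ := by
  simp only [nb, Sum.elim_inr, Sym2.inf_mk, Sym2.sup_mk]
  rw [inf_eq_left.mpr hij.le, sup_eq_right.mpr hij.le]

lemma new_basis (he : GrBasis G e) (u : Fin n → E)
    (hu : ∀ i j, ¬ G.Adj i j → ⁅u i, u j⁆ = 0)
    (hdet : (Matrix.of (fun i k => pr e (u k) i)).det ≠ 0) :
    ∃ w : Module.Basis (Fin n ⊕ G.edgeSet) ℝ E, GrBasis G w ∧ ⇑w = nb G u := by
  classical
  have : Fintype G.edgeSet := Fintype.ofFinite _
  have : FiniteDimensional ℝ E := Module.Basis.finiteDimensional_of_finite e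
  set S := Submodule.span ℝ (Set.range (nb G u)) with hS
  have hu1 : ∀ i, u i ∈ S := fun i => Submodule.subset_span ⟨Sum.inl i, rfl⟩
  have hu2 : ∀ i j, ⁅u i, u j⁆ ∈ S := by
    intro i j
    by_cases h : G.Adj i j
    · rcases lt_or_gt_of_ne h.ne with hlt | hgt
      · exact Submodule.subset_span ⟨_, nb_inr u i j h hlt⟩
      · rw [← lie_skew]
        exact S.neg_mem (Submodule.subset_span ⟨_, nb_inr u j i h.symm hgt⟩)
    · rw [hu i j h]; exact S.zero_mem
  set g : Matrix (Fin n) (Fin n) ℝ := Matrix.of (fun i k => pr e (u k) i) with hg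
  have hgu : IsUnit g.det := isUnit_iff_ne_zero.mpr hdet
  -- modified generators
  let v : Fin n → E := fun k => ∑ a, g⁻¹ a k • u a
  have hv : ∀ k, pr e (v k) = pr e (e (Sum.inl k)) := by
    intro k
    funext i
    have h1 : pr e (v k) i = (g * g⁻¹) i k := by
      simp only [v, map_sum, map_smul, Finset.sum_apply, Pi.smul_apply, smul_eq_mul,
        Matrix.mul_apply, hg, Matrix.of_apply]
      apply Finset.sum_congr rfl
      intro a _
      ring
    rw [h1, Matrix.mul_nonsing_inv _ hgu, pr_apply, e.repr_self, Matrix.one_apply,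
      Finsupp.single_apply]
    by_cases h : i = k
    · subst h; simp
    · rw [if_neg h, if_neg (fun h' => h (Sum.inl.inj h').symm)]
  have hvS : ∀ k, v k ∈ S := fun k => S.sum_mem (fun a _ => S.smul_mem _ (hu1 a))
  have hvv : ∀ j k, ⁅v j, v k⁆ ∈ S := by
    intro j k
    simp only [v, sum_lie, lie_sum, smul_lie, lie_smul]
    exact S.sum_mem (fun a _ => S.smul_mem _ (S.sum_mem (fun b _ => S.smul_mem _ (hu2 _ _))))
  have hinr : ∀ s : G.edgeSet, e (Sum.inr s) ∈ S := by
    intro s
    obtain ⟨s, hs⟩ := s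
    induction s using Sym2.ind with
    | _ i j =>
      have hij : G.Adj i j := G.mem_edgeSet.mp hs
      rcases lt_or_gt_of_ne hij.ne with h | h
      · rw [← he.adj i j hij h, ← he.bracket_congr (hv i) (hv j)]
        exact hvv i j
      · have h1 : (⟨s(i, j), hs⟩ : G.edgeSet) =
          ⟨s(j, i), G.mem_edgeSet.mpr hij.symm⟩ := Subtype.ext Sym2.eq_swap
        rw [h1, ← he.adj j i hij.symm h, ← he.bracket_congr (hv j) (hv i)]
        exact hvv j i
  have hker : ∀ z : E, pr e z = 0 → z ∈ S := by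
    intro z hz
    rw [← e.sum_repr z, Fintype.sum_sum_type]
    apply S.add_mem
    · apply S.sum_mem
      intro i _
      have : e.repr z (Sum.inl i) = 0 := congrFun hz i
      rw [this, zero_smul]; exact S.zero_mem
    · exact S.sum_mem (fun s _ => S.smul_mem _ (hinr s))
  have hinl : ∀ k, e (Sum.inl k) ∈ S := by
    intro k
    have h1 : e (Sum.inl k) = v k + (e (Sum.inl k) - v k) := by abel
    rw [h1]
    apply S.add_mem (hvS k)
    apply hker
    rw [map_sub, hv k, sub_self]
  have htop : ⊤ ≤ S := by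
    rw [← e.span_eq, Submodule.span_le]
    rintro _ ⟨k, rfl⟩
    rcases k with k | s
    · exact hinl k
    · exact hinr s
  have hcard : Fintype.card (Fin n ⊕ G.edgeSet) = Module.finrank ℝ E :=
    (Module.finrank_eq_card_basis e).symm
  refine ⟨basisOfTopLeSpanOfCardEqFinrank (nb G u) htop hcard, ?_,
    coe_basisOfTopLeSpanOfCardEqFinrank _ _ _⟩
  refine ⟨?_, ?_, ?_⟩
  · intro i j h hij
    rw [coe_basisOfTopLeSpanOfCardEqFinrank, nb_inr u i j h hij]; rfl
  · intro i j h
    rw [coe_basisOfTopLeSpanOfCardEqFinrank]; exact hu i j h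
  · intro s k
    rw [coe_basisOfTopLeSpanOfCardEqFinrank]
    exact he.cen_bracket _ _ _

/-- multiplicative weights -/
def mw (G : SimpleGraph (Fin n)) (ν : Fin n → ℝ) : Fin n ⊕ G.edgeSet → ℝ :=
  Sum.elim ν (fun s => Sym2.lift ⟨fun i j => ν i * ν j, fun _ _ => mul_comm _ _⟩ s.1)

lemma GrBasis.dg_lie (he : GrBasis G e) (ν : Fin n → ℝ) (x y : E) :
    dg e (mw G ν) ⁅x, y⁆ = ⁅dg e (mw G ν) x, dg e (mw G ν) y⁆ := by
  apply GrBasis.ext' e
  · intro i
    rw [repr_dg, he.repr_bracket_inl, he.repr_bracket_inl, mul_zero]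
  · intro i j h
    rw [repr_dg, he.repr_bracket_inr _ _ i j h, he.repr_bracket_inr _ _ i j h]
    simp only [repr_dg, mw, Sum.elim_inl, Sum.elim_inr, Sym2.lift_mk]
    ring

end newbasis

/-- integrality of the characteristic polynomial -/
lemma poly_int {κ : Type} [Fintype κ] (P : ℚ[X]) (c : κ → ℝ)
    (hP : P.map (algebraMap ℚ ℝ) = ∏ k, (X - C (c k)))
    (hc : ∀ k, IsIntegral ℤ (c k) ∧ IsIntegral ℤ (c k)⁻¹ ∧ c k ≠ 0) (hc1 : ∀ k, |c k| ≠ 1) :
    ∃ q : ℤ[X], q.map (Int.castRingHom ℚ) = P ∧ (q.coeff 0 = 1 ∨ q.coeff 0 = -1) ∧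
      ∀ z : ℂ, (q.map (Int.castRingHom ℂ)).IsRoot z → ‖z‖ ≠ 1 := by
  classical
  have hcoef : ∀ i, IsIntegral ℤ (P.coeff i) := by
    intro i
    have h1 : ∀ k, c k ∈ integralClosure ℤ ℝ := fun k => (hc k).1
    let R : (integralClosure ℤ ℝ)[X] := ∏ k, (X - C (⟨c k, h1 k⟩ : integralClosure ℤ ℝ))
    have hR : R.map (algebraMap (integralClosure ℤ ℝ) ℝ) = P.map (algebraMap ℚ ℝ) := by
      rw [hP, Polynomial.map_prod]
      apply Finset.prod_congr rfl
      intro k _
      rw [Polynomial.map_sub, Polynomial.map_X, Polynomial.map_C]; rfl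
    have h2 : (algebraMap ℚ ℝ) (P.coeff i) = ((R.coeff i : integralClosure ℤ ℝ) : ℝ) := by
      rw [← Polynomial.coeff_map, ← hR, Polynomial.coeff_map]; rfl
    have h3 : IsIntegral ℤ ((algebraMap ℚ ℝ) (P.coeff i)) := by
      rw [h2]; exact (R.coeff i).2
    exact (isIntegral_algebraMap_iff (algebraMap ℚ ℝ).injective).mp h3
  have hlift : P ∈ lifts (Int.castRingHom ℚ) := by
    rw [lifts_iff_coeff_lifts]
    intro i
    obtain ⟨k, hk⟩ := (IsIntegrallyClosed.isIntegral_iff (R := ℤ) (K := ℚ)).mp (hcoef i)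
    exact ⟨k, hk⟩
  obtain ⟨q, hq⟩ := hlift
  have hq' : q.map (Int.castRingHom ℚ) = P := hq
  refine ⟨q, hq', ?_, ?_⟩
  · have h0 : (algebraMap ℚ ℝ) (P.coeff 0) = ∏ k, (- c k) := by
      rw [← Polynomial.coeff_map, hP, Polynomial.coeff_zero_eq_eval_zero, Polynomial.eval_prod]
      apply Finset.prod_congr rfl
      intro k _
      simp
    have hne : P.coeff 0 ≠ 0 := by
      intro h
      rw [h, map_zero] at h0
      exact Finset.prod_ne_zero_iff.mpr (fun k _ => neg_ne_zero.mpr (hc k).2.2) h0.symm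
    have hinv : IsIntegral ℤ (P.coeff 0)⁻¹ := by
      have h1 : IsIntegral ℤ ((algebraMap ℚ ℝ) (P.coeff 0)⁻¹) := by
        rw [map_inv₀, h0, ← Finset.prod_inv_distrib]
        apply IsIntegral.prod
        intro k _
        rw [inv_neg]
        exact (hc k).2.1.neg
      exact (isIntegral_algebraMap_iff (algebraMap ℚ ℝ).injective).mp h1
    have habs := abs_eq_one_of_integral (hcoef 0) hinv hne
    have h2 : P.coeff 0 = ((q.coeff 0 : ℤ) : ℚ) := by rw [← hq', Polynomial.coeff_map]; rfl
    rw [h2] at habs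
    have h3 : |q.coeff 0| = 1 := by exact_mod_cast habs
    exact eq_or_eq_neg_of_abs_eq h3
  · intro z hz
    have h1 : q.map (Int.castRingHom ℂ) = ∏ k, (X - C ((c k : ℝ) : ℂ)) := by
      have e1 : q.map (Int.castRingHom ℂ) = ((q.map (Int.castRingHom ℚ)).map (algebraMap ℚ ℝ)).map
          Complex.ofRealHom := by
        rw [Polynomial.map_map, Polynomial.map_map]
        congr 1
      rw [e1, hq', hP, Polynomial.map_prod]
      apply Finset.prod_congr rfl
      intro k _
      rw [Polynomial.map_sub, Polynomial.map_X, Polynomial.map_C]; rfl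
    rw [h1, IsRoot, Polynomial.eval_prod, Finset.prod_eq_zero_iff] at hz
    obtain ⟨k, -, hk⟩ := hz
    rw [Polynomial.eval_sub, Polynomial.eval_X, Polynomial.eval_C, sub_eq_zero] at hk
    rw [hk, Complex.norm_real, Real.norm_eq_abs]
    exact hc1 k

/-- The abstract assembly. -/
theorem assemble {G : SimpleGraph (Fin n)} (hG : GC G) {M E : Type} [LieRing M] [LieAlgebra ℚ M]
    [FiniteDimensional ℚ M] [LieRing E] [LieAlgebra ℝ E]
    (e : Module.Basis (Fin n ⊕ G.edgeSet) ℝ E) (he : GrBasis G e)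
    (ι : M →+ E) (hι : ∀ (q : ℚ) (x : M), ι (q • x) = (q : ℝ) • ι x)
    (hlie : ∀ x y, ι ⁅x, y⁆ = ⁅ι x, ι y⁆)
    {L : Type} [Fintype L] (m : Module.Basis L ℚ M) (mR : Module.Basis L ℝ E)
    (hm : ∀ l, mR l = ι (m l)) :
    ∃ F : M ≃ₗ⁅ℚ⁆ M, ∃ q : ℤ[X],
      q.map (Int.castRingHom ℚ) = LinearMap.charpoly F.toLinearEquiv.toLinearMap ∧
      (q.coeff 0 = 1 ∨ q.coeff 0 = -1) ∧
      ∀ z : ℂ, (q.map (Int.castRingHom ℂ)).IsRoot z → ‖z‖ ≠ 1 := by
  classical
  have : Fintype G.edgeSet := Fintype.ofFinite _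
  have hfdE : FiniteDimensional ℝ E := Module.Basis.finiteDimensional_of_finite e
  -- coordinates of `ι x`
  have hιrepr : ∀ x l, mR.repr (ι x) l = ((m.repr x l : ℚ) : ℝ) := by
    intro x l
    have h1 : ι x = ∑ l, ((m.repr x l : ℚ) : ℝ) • mR l := by
      conv_lhs => rw [← m.sum_repr x]
      rw [map_sum]
      apply Finset.sum_congr rfl
      intro l _
      rw [hι, hm]
    rw [h1, map_sum, Finsupp.coe_finsetSum, Finset.sum_apply, Finset.sum_eq_single l]
    · rw [map_smul, Finsupp.smul_apply, mR.repr_self]; simp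
    · intro k _ hk
      rw [map_smul, Finsupp.smul_apply, mR.repr_self, Finsupp.single_apply, if_neg hk, smul_zero]
    · simp
  have hιinj : Function.Injective ι := by
    intro x y hxy
    apply m.repr.injective
    ext l
    have := congrArg (fun z => mR.repr z l) hxy
    simp only [hιrepr] at this
    exact_mod_cast this
  -- Step A: choose the elements `c`
  obtain ⟨c, hcind⟩ : ∃ c : Fin n → M, LinearIndependent ℝ (fun k => pr e (ι (c k))) := by
    have hspan : Submodule.span ℝ (Set.range (fun l => pr e (mR l))) = ⊤ := by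
      have h1 : (Set.range (fun l => pr e (mR l))) = (pr e) '' (Set.range mR) := by
        rw [← Set.range_comp]; rfl
      rw [h1, ← Submodule.map_span, mR.span_eq, Submodule.map_top, LinearMap.range_eq_top]
      intro y
      refine ⟨∑ i, y i • e (Sum.inl i), ?_⟩
      funext j
      rw [pr_apply, map_sum, Finsupp.coe_finsetSum, Finset.sum_apply, Finset.sum_eq_single j]
      · rw [map_smul, Finsupp.smul_apply, e.repr_self]; simp
      · intro k _ hk
        rw [map_smul, Finsupp.smul_apply, e.repr_self, Finsupp.single_apply,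
          if_neg (fun h => hk (Sum.inl.inj h)), smul_zero]
      · simp
    obtain ⟨s, hs1, hs2, hs3⟩ := exists_linearIndependent ℝ (Set.range (fun l => pr e (mR l)))
    rw [hspan] at hs2
    have hsfin : Fintype s := hs3.setFinite.fintype
    let bs : Module.Basis s ℝ (Fin n → ℝ) := Module.Basis.mk hs3 (by
      rw [Subtype.range_coe, hs2])
    have hcard : Fintype.card s = Fintype.card (Fin n) := by
      rw [← Module.finrank_eq_card_basis bs, Module.finrank_pi]
    let σ : Fin n ≃ s := (Fintype.equivOfCardEq hcard).symm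
    choose l hl using fun k : Fin n => hs1 (σ k).2
    refine ⟨fun k => m (l k), ?_⟩
    have h2 : (fun k => pr e (ι (m (l k)))) = (fun x : s => (x : Fin n → ℝ)) ∘ σ := by
      funext k
      rw [← hm]
      exact hl k
    rw [h2]
    exact hs3.comp _ σ.injective
  set g : Matrix (Fin n) (Fin n) ℝ := Matrix.of (fun i k => pr e (ι (c k)) i) with hg
  have hgdet : g.det ≠ 0 := by
    have h1 : IsUnit g := by
      rw [← Matrix.linearIndependent_cols_iff_isUnit]
      exact hcind
    exact isUnit_iff_ne_zero.mp ((Matrix.isUnit_iff_isUnit_det _).mp h1)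
  have hgu : IsUnit g.det := isUnit_iff_ne_zero.mpr hgdet
  -- Step B: the forms
  let B : L → Matrix (Fin n) (Fin n) ℚ := fun l => Matrix.of (fun i k => m.repr ⁅c i, c k⁆ l)
  let Mf : (E →ₗ[ℝ] ℝ) → Matrix (Fin n) (Fin n) ℝ :=
    fun φ => Matrix.of (fun i k => φ ⁅ι (c i), ι (c k)⁆)
  have hMB : ∀ l, Mf (mR.coord l) = toR (B l) := by
    intro l
    ext i k
    simp only [Mf, B, toR, Matrix.of_apply, Matrix.map_apply]
    rw [← hlie, Module.Basis.coord_apply, hιrepr]
    rfl
  have hMsum : ∀ φ : E →ₗ[ℝ] ℝ, Mf φ = ∑ l, φ (mR l) • toR (B l) := by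
    intro φ
    ext i k
    rw [Matrix.sum_apply]
    simp only [Matrix.smul_apply, ← hMB, Mf, Matrix.of_apply, Module.Basis.coord_apply]
    conv_lhs => rw [← mR.sum_repr ⁅ι (c i), ι (c k)⁆]
    rw [map_sum]
    apply Finset.sum_congr rfl
    intro l _
    rw [map_smul, smul_eq_mul, smul_eq_mul, mul_comm]
  have hconj : ∀ (U : Matrix (Fin n) (Fin n) ℝ) (φ : E →ₗ[ℝ] ℝ) (a b : Fin n),
      (Uᵀ * Mf φ * U) a b = φ ⁅∑ i, U i a • ι (c i), ∑ k, U k b • ι (c k)⁆ := by
    intro U φ a b
    simp only [Matrix.mul_apply, Matrix.transpose_apply, Mf, Matrix.of_apply, sum_lie, lie_sum,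
      smul_lie, lie_smul, map_sum, map_smul, smul_eq_mul, Finset.sum_mul]
    apply Finset.sum_congr rfl
    intro i _
    rw [Finset.mul_sum]
    apply Finset.sum_congr rfl
    intro k _
    ring
  have hpru : ∀ (U : Matrix (Fin n) (Fin n) ℝ) (a : Fin n),
      pr e (∑ i, U i a • ι (c i)) = fun j => (g * U) j a := by
    intro U a
    funext j
    simp only [map_sum, map_smul, Finset.sum_apply, Pi.smul_apply, smul_eq_mul,
      Matrix.mul_apply, hg, Matrix.of_apply]
    apply Finset.sum_congr rfl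
    intro i _
    ring
  have hginv : ∀ (φ : E →ₗ[ℝ] ℝ) (a b : Fin n),
      (g⁻¹ᵀ * Mf φ * g⁻¹) a b = φ ⁅e (Sum.inl a), e (Sum.inl b)⁆ := by
    intro φ a b
    rw [hconj g⁻¹ φ a b]
    congr 1
    have hone : ∀ a, pr e (∑ i, g⁻¹ i a • ι (c i)) = pr e (e (Sum.inl a)) := by
      intro a
      rw [hpru, Matrix.mul_nonsing_inv _ hgu]
      funext j
      rw [pr_apply, e.repr_self, Matrix.one_apply, Finsupp.single_apply]
      by_cases h : j = a
      · subst h; simp
      · rw [if_neg h, if_neg (fun h' => h (Sum.inl.inj h').symm)]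
    exact he.bracket_congr (hone a) (hone b)
  have hRF : RForm G B g := by
    refine ⟨hgdet, ?_⟩
    intro Ω
    constructor
    · intro hΩ
      obtain ⟨cf, rfl⟩ := (Submodule.mem_span_range_iff_exists_fun ℝ).mp hΩ
      have h1 : ∑ l, cf l • toR (B l) = Mf (∑ l, cf l • mR.coord l) := by
        rw [hMsum]
        apply Finset.sum_congr rfl
        intro l _
        congr 1
        rw [LinearMap.sum_apply, Finset.sum_eq_single l]
        · simp
        · intro k _ hk
          rw [LinearMap.smul_apply, Module.Basis.coord_apply, mR.repr_self, Finsupp.single_apply,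
            if_neg (fun h => hk h.symm), smul_zero]
        · simp
      rw [h1]
      refine ⟨?_, ?_⟩
      · intro i j
        rw [hginv, hginv, ← lie_skew, map_neg]
      · intro i j hij
        rw [hginv, he.nadj i j hij, map_zero]
    · intro hΩ
      set Ω' := g⁻¹ᵀ * Ω * g⁻¹ with hΩ'
      let wts : G.edgeSet → ℝ := fun s => Sym2.lift ⟨fun a b => if a < b then Ω' a b else
        if b < a then Ω' b a else 0, by
          intro a b
          dsimp only
          rcases lt_trichotomy a b with h | h | h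
          · rw [if_pos h, if_neg (not_lt.mpr h.le), if_pos h]
          · subst h; simp
          · rw [if_neg (not_lt.mpr h.le), if_pos h, if_pos h]⟩ s.1
      let φ : E →ₗ[ℝ] ℝ := e.constr ℝ (Sum.elim (fun _ => 0) wts)
      have hφ : ∀ a b, φ ⁅e (Sum.inl a), e (Sum.inl b)⁆ = Ω' a b := by
        intro a b
        by_cases hab : G.Adj a b
        · rcases lt_or_gt_of_ne hab.ne with h | h
          · rw [he.adj a b hab h]
            simp only [φ, Module.Basis.constr_basis, Sum.elim_inr, wts, Sym2.lift_mk]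
            rw [if_pos h]
          · rw [← lie_skew, he.adj b a hab.symm h, map_neg]
            simp only [φ, Module.Basis.constr_basis, Sum.elim_inr, wts, Sym2.lift_mk]
            rw [if_pos h, hΩ.1 a b]
        · rw [he.nadj a b hab, map_zero, hΩ.2 a b hab]
      have h1 : g⁻¹ᵀ * Mf φ * g⁻¹ = Ω' := by
        ext a b
        rw [hginv, hφ]
      have h2 : Mf φ = Ω := by
        have e1 : gᵀ * (g⁻¹)ᵀ = 1 := by
          rw [← Matrix.transpose_mul, Matrix.nonsing_inv_mul _ hgu, Matrix.transpose_one]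
        have e2 : g⁻¹ * g = 1 := Matrix.nonsing_inv_mul _ hgu
        have e3 : ∀ W : Matrix (Fin n) (Fin n) ℝ, gᵀ * (g⁻¹ᵀ * W * g⁻¹) * g = W := by
          intro W
          calc gᵀ * (g⁻¹ᵀ * W * g⁻¹) * g = (gᵀ * (g⁻¹)ᵀ) * W * (g⁻¹ * g) := by
                simp only [Matrix.mul_assoc]
            _ = W := by rw [e1, e2, Matrix.one_mul, Matrix.mul_one]
        rw [← e3 (Mf φ), h1, hΩ', e3]
      rw [← h2, hMsum]
      exact Submodule.sum_mem _ (fun l _ => Submodule.smul_mem _ _
        (Submodule.subset_span ⟨l, rfl⟩))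
  -- Step C: apply the core theorem
  obtain ⟨g₂, X, ν, h₂, hX, hν, hν1, hν2⟩ := core hRF hG
  set U := g₂⁻¹ with hU
  let u : Fin n → E := fun a => ∑ i, U i a • ι (c i)
  have hunadj : ∀ a b, ¬ G.Adj a b → ⁅u a, u b⁆ = 0 := by
    intro a b hab
    apply mR.repr.injective
    ext l
    have h1 := hconj U (mR.coord l) a b
    rw [hMB] at h1
    have h3 : (Uᵀ * toR (B l) * U) a b = 0 :=
      ((h₂.hP (toR (B l))).mp (Submodule.subset_span ⟨l, rfl⟩)).2 a b hab
    rw [h3, Module.Basis.coord_apply] at h1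
    rw [map_zero]
    exact h1.symm
  have hUdet : U.det ≠ 0 := by
    rw [hU, Matrix.det_nonsing_inv, Ring.inverse_eq_inv']
    exact inv_ne_zero h₂.det
  have hUu : IsUnit U.det := isUnit_iff_ne_zero.mpr hUdet
  obtain ⟨w, hw, hwu⟩ := new_basis he u hunadj (by
    have : (Matrix.of (fun i k => pr e (u k) i)) = g * U := by
      ext i k
      rw [Matrix.of_apply]
      exact congrFun (hpru U k) i
    rw [this, Matrix.det_mul]
    exact mul_ne_zero hgdet hUdet)
  have hwinl : ∀ a, w (Sum.inl a) = u a := by intro a; rw [hwu]; rfl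
  -- Step D: the real automorphism
  let FR : E →ₗ[ℝ] E := dg w (mw G ν)
  have hFRlie : ∀ x y, FR ⁅x, y⁆ = ⁅FR x, FR y⁆ := fun x y => hw.dg_lie ν x y
  have hFRw : ∀ k, FR (w k) = mw G ν k • w k := by
    intro k
    simp only [FR, dg, Module.Basis.constr_basis]
  have hFRu : ∀ a, FR (u a) = ν a • u a := by
    intro a
    rw [← hwinl, hFRw]; rfl
  -- Step E: rationality
  have hcu : ∀ k, ι (c k) = ∑ a, U⁻¹ a k • u a := by
    intro k
    simp only [u, Finset.smul_sum, smul_smul]
    rw [Finset.sum_comm]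
    have h1 : ∀ i, ∑ a, (U⁻¹ a k * U i a) • ι (c i) = ((U * U⁻¹) i k) • ι (c i) := by
      intro i
      rw [← Finset.sum_smul, Matrix.mul_apply]
      congr 1
      apply Finset.sum_congr rfl
      intro a _
      ring
    rw [Finset.sum_congr rfl (fun i _ => h1 i), Matrix.mul_nonsing_inv _ hUu,
      Finset.sum_eq_single k]
    · simp
    · intro i _ hi
      rw [Matrix.one_apply_ne hi, zero_smul]
    · simp
  have hFRc : ∀ k, FR (ι (c k)) = ι (∑ j, X j k • c j) := by
    intro k
    rw [hcu k, map_sum]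
    have h1 : ∀ a, FR (U⁻¹ a k • u a) = ∑ i, (U⁻¹ a k * (ν a * U i a)) • ι (c i) := by
      intro a
      rw [map_smul, hFRu]
      simp only [u, Finset.smul_sum, smul_smul]
    rw [Finset.sum_congr rfl (fun a _ => h1 a), Finset.sum_comm, map_sum]
    apply Finset.sum_congr rfl
    intro i _
    rw [← Finset.sum_smul, hι]
    congr 1
    have h2 : toR X = U * Matrix.diagonal ν * U⁻¹ := by
      rw [← hX, Matrix.mul_assoc, Matrix.mul_nonsing_inv _ hUu, Matrix.mul_one]
    have h3 : ((X i k : ℚ) : ℝ) = toR X i k := rfl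
    rw [h3, h2, Matrix.mul_apply]
    apply Finset.sum_congr rfl
    intro a _
    rw [Matrix.mul_diagonal]
    ring
  -- the rational span
  let T : Submodule ℚ M := Submodule.span ℚ (Set.range c ∪ Set.range (fun p : Fin n × Fin n =>
    ⁅c p.1, c p.2⁆))
  have hT : T = ⊤ := by
    by_contra hne
    obtain ⟨ψ, hψ, hTψ⟩ := Submodule.exists_le_ker_of_lt_top T (lt_top_iff_ne_top.mpr hne)
    apply hψ
    let ψR : E →ₗ[ℝ] ℝ := mR.constr ℝ (fun l => ((ψ (m l) : ℚ) : ℝ))
    have hψR : ∀ x, ψR (ι x) = ((ψ x : ℚ) : ℝ) := by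
      intro x
      have h1 : ι x = ∑ l, ((m.repr x l : ℚ) : ℝ) • mR l := by
        conv_lhs => rw [← m.sum_repr x]
        rw [map_sum]
        apply Finset.sum_congr rfl
        intro l _
        rw [hι, hm]
      rw [h1, map_sum]
      have h2 : ψ x = ∑ l, m.repr x l * ψ (m l) := by
        conv_lhs => rw [← m.sum_repr x]
        rw [map_sum]
        apply Finset.sum_congr rfl
        intro l _
        rw [map_smul, smul_eq_mul]
      rw [h2]
      push_cast
      apply Finset.sum_congr rfl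
      intro l _
      rw [map_smul, smul_eq_mul, Module.Basis.constr_basis]
    have hψc : ∀ k, ψR (ι (c k)) = 0 := by
      intro k
      rw [hψR, LinearMap.mem_ker.mp (hTψ (Submodule.subset_span (Or.inl ⟨k, rfl⟩)))]
      simp
    have hψcc : ∀ i k, ψR ⁅ι (c i), ι (c k)⁆ = 0 := by
      intro i k
      rw [← hlie, hψR, LinearMap.mem_ker.mp (hTψ (Submodule.subset_span
        (Or.inr ⟨(i, k), rfl⟩)))]
      simp
    have hψu : ∀ a, ψR (u a) = 0 := by
      intro a
      simp only [u, map_sum, map_smul, hψc, smul_zero, Finset.sum_const_zero]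
    have hψuu : ∀ a b, ψR ⁅u a, u b⁆ = 0 := by
      intro a b
      simp only [u, sum_lie, lie_sum, smul_lie, lie_smul, map_sum, map_smul, hψcc, smul_zero,
        Finset.sum_const_zero]
    have hψR0 : ψR = 0 := by
      apply w.ext
      intro k
      rw [hwu]
      rcases k with a | s
      · exact hψu a
      · exact hψuu _ _
    apply LinearMap.ext
    intro x
    have h1 := hψR x
    rw [hψR0] at h1
    simp only [LinearMap.zero_apply] at h1 ⊢
    exact_mod_cast h1.symm
  have hrat : ∀ x : M, ∃ y : M, FR (ι x) = ι y := by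
    intro x
    have hx : x ∈ T := by rw [hT]; trivial
    induction hx using Submodule.span_induction with
    | mem x hx =>
      rcases hx with ⟨k, rfl⟩ | ⟨⟨i, k⟩, rfl⟩
      · exact ⟨_, hFRc k⟩
      · refine ⟨⁅∑ j, X j i • c j, ∑ j, X j k • c j⁆, ?_⟩
        simp only
        rw [hlie, hFRlie, hFRc, hFRc, hlie]
    | zero => exact ⟨0, by simp⟩
    | add x y _ _ h1 h2 =>
      obtain ⟨x', hx'⟩ := h1
      obtain ⟨y', hy'⟩ := h2
      exact ⟨x' + y', by rw [map_add, map_add, hx', hy', map_add]⟩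
    | smul q x _ h1 =>
      obtain ⟨x', hx'⟩ := h1
      exact ⟨q • x', by rw [hι, map_smul, hx', hι]⟩
  choose F hF using hrat
  let FL : M →ₗ[ℚ] M :=
    { toFun := F
      map_add' := by
        intro x y
        apply hιinj
        rw [← hF, map_add, map_add, hF, hF, map_add]
      map_smul' := by
        intro q x
        apply hιinj
        rw [← hF, hι, map_smul, hF, RingHom.id_apply, hι] }
  have hFL : ∀ x, ι (FL x) = FR (ι x) := fun x => (hF x).symm
  have hmw : ∀ k, IsIntegral ℤ (mw G ν k) ∧ IsIntegral ℤ (mw G ν k)⁻¹ ∧ mw G ν k ≠ 0 := by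
    intro k
    rcases k with a | ⟨s, hs⟩
    · exact hν a
    · induction s using Sym2.ind with
      | _ i j =>
        simp only [mw, Sum.elim_inr, Sym2.lift_mk]
        rw [mul_inv]
        exact ⟨(hν i).1.mul (hν j).1, (hν i).2.1.mul (hν j).2.1, mul_ne_zero (hν i).2.2 (hν j).2.2⟩
  have hmw1 : ∀ k, |mw G ν k| ≠ 1 := by
    intro k
    rcases k with a | ⟨s, hs⟩
    · exact hν1 a
    · induction s using Sym2.ind with
      | _ i j =>
        simp only [mw, Sum.elim_inr, Sym2.lift_mk]
        exact hν2 i j (G.mem_edgeSet.mp hs)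
  have hFRinj : Function.Injective FR := by
    intro x y hxy
    apply w.repr.injective
    ext k
    have h1 := congrArg (fun z => w.repr z k) hxy
    simp only [FR, repr_dg] at h1
    exact mul_left_cancel₀ (hmw k).2.2 h1
  have hFLinj : Function.Injective FL := by
    intro x y hxy
    apply hιinj
    apply hFRinj
    rw [← hFL, ← hFL, hxy]
  let FLie : M →ₗ⁅ℚ⁆ M :=
    { FL with
      map_lie' := by
        intro x y
        apply hιinj
        change ι (FL ⁅x, y⁆) = ι ⁅FL x, FL y⁆
        rw [hFL, hlie, hFRlie, hlie, hFL, hFL] }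
  have hbij : Function.Bijective FLie :=
    ⟨hFLinj, (LinearMap.injective_iff_surjective (f := FL)).mp hFLinj⟩
  refine ⟨LieEquiv.ofBijective FLie hbij, ?_⟩
  have hcoe : (LieEquiv.ofBijective FLie hbij).toLinearEquiv.toLinearMap = FL := by
    apply LinearMap.ext; intro x; rfl
  rw [hcoe]
  apply poly_int (LinearMap.charpoly FL) (mw G ν) _ hmw hmw1
  -- characteristic polynomial
  have h1 : (LinearMap.toMatrix m m FL).map (algebraMap ℚ ℝ) = LinearMap.toMatrix mR mR FR := by
    ext i j
    rw [Matrix.map_apply, LinearMap.toMatrix_apply, LinearMap.toMatrix_apply, hm, ← hFL, hιrepr]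
    rfl
  rw [← LinearMap.charpoly_toMatrix FL m, ← Matrix.charpoly_map, h1,
    LinearMap.charpoly_toMatrix FR mR, ← LinearMap.charpoly_toMatrix FR w]
  have h2 : LinearMap.toMatrix w w FR = Matrix.diagonal (mw G ν) := by
    ext i j
    rw [LinearMap.toMatrix_apply, hFRw, map_smul, Finsupp.smul_apply, w.repr_self,
      Finsupp.single_apply, Matrix.diagonal_apply]
    by_cases h : i = j
    · subst h; simp
    · rw [if_neg h, if_neg (fun h' => h h'.symm), smul_zero]
  rw [h2, Matrix.charpoly_diagonal]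

end Pool.Agent.Q31.AN
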