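import Pool.Agent.Q31.AN.Generic

set_option autoImplicit false

/-! Units: existence of rational polynomials taking suitable unit values. -/

namespace Pool.Agent.Q31.AN

open Polynomial NumberField

variable {n : ℕ}

lemma exists_unit_poly (μ : Fin n → ℝ) (hμ : Function.Injective μ)
    (hint : ∀ i, IsIntegral ℤ (μ i)) (α : Fin n) :
    ∃ h : ℚ[X], (∀ k, IsIntegral ℤ (aeval (μ k) h) ∧ IsIntegral ℤ (aeval (μ k) h)⁻¹ ∧
        aeval (μ k) h ≠ 0) ∧
      (∀ k, k ≠ α → aeval (μ k) (minpoly ℚ (μ α)) = 0 → |aeval (μ k) h| < 1) ∧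
      (∀ k, aeval (μ k) (minpoly ℚ (μ α)) ≠ 0 → aeval (μ k) h = 1) := by
  classical
  have hintQ : ∀ i, IsIntegral ℚ (μ i) := fun i => (hint i).tower_top
  set p := minpoly ℚ (μ α) with hp
  have hpirr : Irreducible p := minpoly.irreducible (hintQ α)
  have : Fact (Irreducible p) := ⟨hpirr⟩
  have haev : ∀ k, aeval (μ k) p = 0 → eval₂ (algebraMap ℚ ℝ) (μ k) p = 0 := fun k hk => hk
  let φ : ∀ k, aeval (μ k) p = 0 → (AdjoinRoot p →+* ℝ) := fun k hk =>
    AdjoinRoot.lift (algebraMap ℚ ℝ) (μ k) (haev k hk)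
  have hα : aeval (μ α) p = 0 := minpoly.aeval ℚ (μ α)
  let w₁ : InfinitePlace (AdjoinRoot p) := InfinitePlace.mk (Complex.ofRealHom.comp (φ α hα))
  obtain ⟨u, hu⟩ := NumberField.Units.dirichletUnitTheorem.exists_unit (AdjoinRoot p) w₁
  obtain ⟨r, hr⟩ : ∃ r : ℚ[X], AdjoinRoot.mk p r = ((u : 𝓞 (AdjoinRoot p)) : AdjoinRoot p) :=
    AdjoinRoot.mk_surjective _
  -- values of `r`
  have hval : ∀ k (hk : aeval (μ k) p = 0),
      φ k hk ((u : 𝓞 (AdjoinRoot p)) : AdjoinRoot p) = aeval (μ k) r := by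
    intro k hk
    rw [← hr]
    exact AdjoinRoot.lift_mk (haev k hk) r
  have hint1 : ∀ k (hk : aeval (μ k) p = 0), IsIntegral ℤ (aeval (μ k) r) := by
    intro k hk
    rw [← hval k hk]
    exact (RingOfIntegers.isIntegral_coe (u : 𝓞 (AdjoinRoot p))).map (φ k hk).toIntAlgHom
  have hint2 : ∀ k (hk : aeval (μ k) p = 0),
      IsIntegral ℤ (aeval (μ k) r)⁻¹ ∧ aeval (μ k) r ≠ 0 := by
    intro k hk
    have h1 : φ k hk ((u : 𝓞 (AdjoinRoot p)) : AdjoinRoot p) *
        φ k hk (((u⁻¹ : (𝓞 (AdjoinRoot p))ˣ) : 𝓞 (AdjoinRoot p)) : AdjoinRoot p) = 1 := by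
      rw [← map_mul, ← map_mul, Units.mul_inv, map_one, map_one]
    rw [hval k hk] at h1
    refine ⟨?_, left_ne_zero_of_mul_eq_one h1⟩
    rw [inv_eq_of_mul_eq_one_right h1]
    exact (RingOfIntegers.isIntegral_coe ((u⁻¹ : (𝓞 (AdjoinRoot p))ˣ) : 𝓞 (AdjoinRoot p))).map
      (φ k hk).toIntAlgHom
  have hlt : ∀ k (hk : aeval (μ k) p = 0), k ≠ α → |aeval (μ k) r| < 1 := by
    intro k hk hne
    let w : InfinitePlace (AdjoinRoot p) := InfinitePlace.mk (Complex.ofRealHom.comp (φ k hk))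
    have hw : w ≠ w₁ := by
      intro h
      have hroot : ∀ k (hk : aeval (μ k) p = 0), φ k hk (AdjoinRoot.root p) = μ k := by
        intro k hk
        exact AdjoinRoot.lift_root (haev k hk)
      rcases InfinitePlace.mk_eq_iff.mp h with h1 | h1
      · have h2 := congrArg (fun f : AdjoinRoot p →+* ℂ => f (AdjoinRoot.root p)) h1
        simp only [RingHom.comp_apply, hroot] at h2
        have h3 : μ k = μ α := Complex.ofReal_injective h2
        exact hne (hμ h3)
      · have h2 := congrArg (fun f : AdjoinRoot p →+* ℂ => f (AdjoinRoot.root p)) h1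
        simp only [ComplexEmbedding.conjugate_coe_eq, RingHom.comp_apply, hroot] at h2
        have h3 : (μ k : ℂ) = μ α := by
          have : (starRingEnd ℂ) (Complex.ofRealHom (μ k)) = (μ k : ℂ) := Complex.conj_ofReal _
          rw [this] at h2; exact h2
        exact hne (hμ (Complex.ofReal_injective h3))
    have h1 := hu w hw
    have h2 : w ((u : 𝓞 (AdjoinRoot p)) : AdjoinRoot p) = |aeval (μ k) r| := by
      change ‖(Complex.ofRealHom.comp (φ k hk)) _‖ = _
      rw [RingHom.comp_apply, hval k hk]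
      change ‖((aeval (μ k) r : ℝ) : ℂ)‖ = _
      rw [Complex.norm_real, Real.norm_eq_abs]
    rw [h2] at h1
    have hpos : 0 < |aeval (μ k) r| := abs_pos.mpr (hint2 k hk).2
    by_contra hge
    push Not at hge
    exact absurd (Real.log_nonneg hge) (not_le.mpr h1)
  -- the complementary polynomial
  let q : ℚ[X] := ∏ k ∈ Finset.univ.filter (fun k => aeval (μ k) p ≠ 0), minpoly ℚ (μ k)
  have hcop : IsCoprime p q := by
    apply IsCoprime.prod_right
    intro k hk
    have hk' : aeval (μ k) p ≠ 0 := (Finset.mem_filter.mp hk).2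
    rw [hpirr.coprime_iff_not_dvd]
    intro hdvd
    have hassoc := (hpirr.dvd_irreducible_iff_associated (minpoly.irreducible (hintQ k))).mp hdvd
    have heq : p = minpoly ℚ (μ k) :=
      eq_of_monic_of_associated (minpoly.monic (hintQ α)) (minpoly.monic (hintQ k)) hassoc
    apply hk'
    rw [heq]
    exact minpoly.aeval ℚ (μ k)
  obtain ⟨c, d, hcd⟩ := hcop
  have hval1 : ∀ k, aeval (μ k) p = 0 → aeval (μ k) (r * (d * q) + c * p) = aeval (μ k) r := by
    intro k hk
    have h1 := congrArg (aeval (μ k)) hcd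
    simp only [map_add, map_mul, hk, mul_zero, zero_add, map_one] at h1
    simp only [map_add, map_mul, hk, mul_zero, add_zero, h1, mul_one]
  have hval2 : ∀ k, aeval (μ k) p ≠ 0 → aeval (μ k) (r * (d * q) + c * p) = 1 := by
    intro k hk
    have hq : aeval (μ k) q = 0 := by
      simp only [q, map_prod]
      exact Finset.prod_eq_zero (Finset.mem_filter.mpr ⟨Finset.mem_univ k, hk⟩)
        (minpoly.aeval ℚ (μ k))
    have h1 := congrArg (aeval (μ k)) hcd
    simp only [map_add, map_mul, hq, mul_zero, add_zero, map_one] at h1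
    simp only [map_add, map_mul, hq, mul_zero, zero_add, h1]
  refine ⟨r * (d * q) + c * p, ?_, ?_, ?_⟩
  · intro k
    by_cases hk : aeval (μ k) p = 0
    · rw [hval1 k hk]; exact ⟨hint1 k hk, hint2 k hk⟩
    · rw [hval2 k hk]; simp [isIntegral_one]
  · intro k hne hk
    rw [hval1 k hk]; exact hlt k hk hne
  · exact hval2

/-- The sum of the conjugates among the roots is an integer. -/
lemma sum_conj (μ : Fin n → ℝ) (hμ : Function.Injective μ) (cp : ℤ[X])
    (hcp : cp.map (algebraMap ℤ ℝ) = ∏ i, (X - C (μ i))) (β : Fin n)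
    (S : Finset (Fin n)) (hS : ∀ k, k ∈ S ↔ aeval (μ k) (minpoly ℚ (μ β)) = 0) :
    ∃ z : ℤ, ∑ i ∈ S, μ i = z := by
  classical
  have hmonic : cp.Monic := by
    have h : (cp.map (algebraMap ℤ ℝ)).Monic := by
      rw [hcp]; exact monic_prod_of_monic _ _ (fun i _ => monic_X_sub_C _)
    exact Polynomial.monic_of_injective (RingHom.injective_int _) h
  have hroot : ∀ i, aeval (μ i) cp = 0 := by
    intro i
    rw [aeval_def, ← eval_map, hcp, eval_prod]
    exact Finset.prod_eq_zero (Finset.mem_univ i) (by simp)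
  have hint : ∀ i, IsIntegral ℤ (μ i) := fun i => ⟨cp, hmonic, hroot i⟩
  set m := minpoly ℤ (μ β) with hm
  have hmm : m.Monic := minpoly.monic (hint β)
  have hdvd : m ∣ cp := minpoly.isIntegrallyClosed_dvd (hint β) (hroot β)
  have hdvd' : m.map (algebraMap ℤ ℝ) ∣ ∏ i, (X - C (μ i)) := by
    rw [← hcp]; exact Polynomial.map_dvd _ hdvd
  have hne : (∏ i, (X - C (μ i)) : ℝ[X]) ≠ 0 :=
    (monic_prod_of_monic _ _ (fun i _ => monic_X_sub_C _)).ne_zero
  have hsplit : (m.map (algebraMap ℤ ℝ)).Splits :=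
    Polynomial.Splits.of_dvd (Polynomial.Splits.prod (fun i _ => Polynomial.Splits.X_sub_C _))
      hne hdvd'
  have hroots : (∏ i, (X - C (μ i)) : ℝ[X]).roots = Finset.univ.val.map μ := by
    have := Polynomial.roots_multiset_prod_X_sub_C (Finset.univ.val.map μ)
    rw [Multiset.map_map] at this
    exact this
  have hle : (m.map (algebraMap ℤ ℝ)).roots ≤ Finset.univ.val.map μ := by
    rw [← hroots]; exact Polynomial.roots.le_of_dvd hne hdvd'
  have hnodup : (Finset.univ.val.map μ).Nodup := Finset.univ.nodup.map hμ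
  have hnodup' : (m.map (algebraMap ℤ ℝ)).roots.Nodup := Multiset.nodup_of_le hle hnodup
  have hm0 : m.map (algebraMap ℤ ℝ) ≠ 0 := (hmm.map _).ne_zero
  have hmQ : minpoly ℚ (μ β) = m.map (algebraMap ℤ ℚ) :=
    minpoly.isIntegrallyClosed_eq_field_fractions' ℚ (hint β)
  have hev : ∀ k, aeval (μ k) (minpoly ℚ (μ β)) = eval (μ k) (m.map (algebraMap ℤ ℝ)) := by
    intro k
    rw [hmQ, aeval_map_algebraMap, aeval_def, eval_map]
  have heq : (m.map (algebraMap ℤ ℝ)).roots = S.val.map μ := by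
    rw [Multiset.Nodup.ext hnodup' (S.nodup.map hμ)]
    intro x
    rw [Multiset.mem_map]
    constructor
    · intro hx
      have h1 := Multiset.mem_of_le hle hx
      obtain ⟨k, -, rfl⟩ := Multiset.mem_map.mp h1
      refine ⟨k, ?_, rfl⟩
      rw [Finset.mem_val, hS, hev]
      exact (mem_roots hm0).mp hx
    · rintro ⟨k, hk, rfl⟩
      rw [mem_roots hm0, IsRoot, ← hev, ← hS]
      exact hk
  have hsum := hsplit.nextCoeff_eq_neg_sum_roots_of_monic (hmm.map _)
  rw [heq] at hsum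
  have h1 : (S.val.map μ).sum = ∑ i ∈ S, μ i := rfl
  rw [h1, nextCoeff_map (RingHom.injective_int _)] at hsum
  refine ⟨-m.nextCoeff, ?_⟩
  push_cast
  have h2 : (algebraMap ℤ ℝ) m.nextCoeff = (m.nextCoeff : ℝ) := rfl
  rw [h2] at hsum
  linarith

end Pool.Agent.Q31.AN
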