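import Pool.Agent.Q31.AN.Dens
import Pool.Agent.Q31.AN.Units

set_option autoImplicit false

/-! The core theorem at matrix level. -/

namespace Pool.Agent.Q31.AN

open Matrix Polynomial

variable {n : ℕ}

lemma scale_int (X : Matrix (Fin n) (Fin n) ℚ) :
    ∃ (N : ℕ) (Xz : Matrix (Fin n) (Fin n) ℤ), 0 < N ∧
      Xz.map (algebraMap ℤ ℚ) = (N : ℚ) • X := by
  classical
  refine ⟨∏ i, ∏ j, (X i j).den,
    Matrix.of fun i j => (X i j).num * ((∏ i, ∏ j, (X i j).den) / (X i j).den : ℕ), ?_, ?_⟩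
  · exact Finset.prod_pos (fun i _ => Finset.prod_pos (fun j _ => (X i j).den_pos))
  · ext i j
    have hdvd : (X i j).den ∣ ∏ i, ∏ j, (X i j).den :=
      (Finset.dvd_prod_of_mem (fun j => (X i j).den) (Finset.mem_univ j)).trans
        (Finset.dvd_prod_of_mem (fun i => ∏ j, (X i j).den) (Finset.mem_univ i))
    rw [Matrix.map_apply, Matrix.smul_apply, smul_eq_mul, Matrix.of_apply]
    have hden : ((X i j).den : ℚ) ≠ 0 := by exact_mod_cast (X i j).den_ne_zero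
    have h1 : (algebraMap ℤ ℚ) ((X i j).num * ((∏ i, ∏ j, (X i j).den) / (X i j).den : ℕ)) =
        ((X i j).num : ℚ) * (((∏ i, ∏ j, (X i j).den) / (X i j).den : ℕ) : ℚ) := by
      rw [map_mul]; rfl
    rw [h1, Nat.cast_div hdvd hden]
    have h2 := Rat.num_div_den (X i j)
    calc ((X i j).num : ℚ) * (((∏ i, ∏ j, (X i j).den : ℕ) : ℚ) / ((X i j).den : ℚ))
        = ((∏ i, ∏ j, (X i j).den : ℕ) : ℚ) * (((X i j).num : ℚ) / ((X i j).den : ℚ)) := by ring
      _ = _ := by rw [h2]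

lemma conj_diag {g Y Q : Matrix (Fin n) (Fin n) ℝ} {μ : Fin n → ℝ} (hdet : Q.det ≠ 0)
    (h : (g * Y * g⁻¹) * Q = Q * Matrix.diagonal μ) :
    (Q⁻¹ * g) * Y * (Q⁻¹ * g)⁻¹ = Matrix.diagonal μ := by
  have hQu : IsUnit Q.det := isUnit_iff_ne_zero.mpr hdet
  rw [Matrix.mul_inv_rev, Matrix.nonsing_inv_nonsing_inv _ hQu]
  calc Q⁻¹ * g * Y * (g⁻¹ * Q) = Q⁻¹ * ((g * Y * g⁻¹) * Q) := by simp only [Matrix.mul_assoc]
    _ = Q⁻¹ * Q * Matrix.diagonal μ := by rw [h, Matrix.mul_assoc]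
    _ = _ := by rw [Matrix.nonsing_inv_mul _ hQu, Matrix.one_mul]

lemma toR_aeval {A : Matrix (Fin n) (Fin n) ℚ} {U : Matrix (Fin n) (Fin n) ℝ} {μ : Fin n → ℝ}
    (h : toR A * U = U * Matrix.diagonal μ) (f : ℚ[X]) :
    toR (aeval A f) * U = U * Matrix.diagonal (fun i => aeval (μ i) f) := by
  induction f using Polynomial.induction_on with
  | C c =>
    have h1 : toR (aeval A (C c)) = (c : ℝ) • 1 := by
      rw [aeval_C, Algebra.algebraMap_eq_smul_one, toR_smul]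
      congr 1
      ext i j; simp [toR, Matrix.one_apply, apply_ite]
    have h2 : (Matrix.diagonal (fun i => aeval (μ i) (C c)) : Matrix (Fin n) (Fin n) ℝ) =
        (c : ℝ) • 1 := by
      rw [Matrix.smul_one_eq_diagonal]
      congr 1
      funext i
      rw [aeval_C]; rfl
    rw [h1, h2, Matrix.smul_mul, Matrix.mul_smul, Matrix.one_mul, Matrix.mul_one]
  | add p q hp hq =>
    rw [map_add, toR_add, Matrix.add_mul, hp, hq, ← Matrix.mul_add, Matrix.diagonal_add]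
    congr 2
    funext i
    rw [map_add]
  | monomial m c hm =>
    have e1 : C c * X ^ (m + 1) = (C c * X ^ m) * (X : ℚ[X]) := by rw [pow_succ, mul_assoc]
    rw [e1, map_mul, aeval_X, toR_mul, Matrix.mul_assoc, h, ← Matrix.mul_assoc, hm,
      Matrix.mul_assoc, Matrix.diagonal_mul_diagonal]
    congr 2
    funext i
    rw [map_mul (aeval (μ i)) (C c * X ^ m) (X : ℚ[X]), aeval_X]

section

variable {G : SimpleGraph (Fin n)} {L : Type} {B : L → Matrix (Fin n) (Fin n) ℚ}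
  {g : Matrix (Fin n) (Fin n) ℝ}

/-- first step: an integral element with distinct real eigenvalues -/
lemma RForm.step1 [Fintype L] (h : RForm G B g) :
    ∃ (g₁ : Matrix (Fin n) (Fin n) ℝ) (b : Matrix (Fin n) (Fin n) ℤ) (lam : Fin n → ℝ),
      RForm G B g₁ ∧ Function.Injective lam ∧
      g₁ * toR (b.map (algebraMap ℤ ℚ)) * g₁⁻¹ = Matrix.diagonal lam := by
  have hinj : Function.Injective (fun i : Fin n => ((i : ℕ) : ℝ)) := by
    intro i j hij
    have hij' : ((i : ℕ) : ℝ) = ((j : ℕ) : ℝ) := hij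
    exact Fin.ext (by exact_mod_cast hij')
  obtain ⟨δ, hδ, hE⟩ := eigenbasis G (fun i : Fin n => ((i : ℕ) : ℝ)) hinj 1 one_pos
  obtain ⟨X, hX, hXδ⟩ := h.dense (Matrix.diagonal (fun i : Fin n => ((i : ℕ) : ℝ)))
    (InA.diagonal G _) δ hδ
  obtain ⟨μ, Q, h1, h2, h3, h4, h5, h6, h7⟩ := hE
    (g * toR X * g⁻¹ - Matrix.diagonal (fun i : Fin n => ((i : ℕ) : ℝ)))
    (hX.sub (InA.diagonal G _)) (fun k l => by rw [Matrix.sub_apply]; exact hXδ k l)
  rw [add_sub_cancel] at h7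
  obtain ⟨N, Xz, hN, hXz⟩ := scale_int X
  have hN' : (N : ℝ) ≠ 0 := by exact_mod_cast hN.ne'
  refine ⟨Q⁻¹ * g, Xz, fun i => N * μ i, h.twist h4 h5, ?_, ?_⟩
  · intro i j hij
    exact h6 (mul_left_cancel₀ hN' hij)
  · rw [hXz, toR_smul, Matrix.mul_smul, Matrix.smul_mul, conj_diag h5 h7]
    ext i j
    simp [Matrix.diagonal_apply]

/-- the eigenvalue data -/
lemma RForm.step3 [Fintype L] (h : RForm G B g) (hG : GC G) :
    ∃ (g₂ : Matrix (Fin n) (Fin n) ℝ) (A : Matrix (Fin n) (Fin n) ℤ) (μ : Fin n → ℝ),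
      RForm G B g₂ ∧ Function.Injective μ ∧
      g₂ * toR (A.map (algebraMap ℤ ℚ)) * g₂⁻¹ = Matrix.diagonal μ ∧
      ∀ I, Bad G I → ∀ z : ℤ, ∑ i ∈ I, μ i ≠ z := by
  classical
  obtain ⟨g₁, b, lam, h₁, hlam, hb⟩ := h.step1
  obtain ⟨Z, hZ, hZI⟩ := generic_real G hG lam hlam
  obtain ⟨ε, hε, hopen⟩ := lam_open G lam Z hZI
  obtain ⟨X, hX, hXε⟩ := h₁.dense Z hZ ε hε
  have hXI := hopen _ hXε
  obtain ⟨N, Xz, hN, hXz⟩ := scale_int X
  have hN' : (N : ℝ) ≠ 0 := by exact_mod_cast hN.ne'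
  set a' := g₁ * toR (Xz.map (algebraMap ℤ ℚ)) * g₁⁻¹ with ha'
  have ha'' : a' = (N : ℝ) • (g₁ * toR X * g₁⁻¹) := by
    rw [ha', hXz, toR_smul, Matrix.mul_smul, Matrix.smul_mul]
    simp
  have haA : InA G a' := by rw [ha'']; exact hX.smul _
  have haI : ∀ I ∈ Finset.univ.filter (Bad G), ∑ i ∈ I, Lam lam a' i ≠ 0 := by
    intro I hI
    rw [ha'']
    simp only [Lam_smul]
    rw [← Finset.mul_sum]
    exact mul_ne_zero (pow_ne_zero 2 hN') (hXI I (Finset.mem_filter.mp hI).2)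
  obtain ⟨t, μ, Q, ⟨hQA, hQdet, hμ, hQ⟩, hgood⟩ := exists_good G lam hlam a' haA _ haI
  refine ⟨Q⁻¹ * g₁, (t : ℤ) • b + Xz, μ, h₁.twist hQA hQdet, hμ, ?_, ?_⟩
  · apply conj_diag hQdet
    have e1 : toR (((t : ℤ) • b + Xz).map (algebraMap ℤ ℚ)) =
        (t : ℝ) • toR (b.map (algebraMap ℤ ℚ)) + toR (Xz.map (algebraMap ℤ ℚ)) := by
      ext i j
      have e0 : ((t : ℤ) • b + Xz) i j = (t : ℤ) * b i j + Xz i j := rfl
      rw [toR, Matrix.map_apply, Matrix.map_apply, e0]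
      simp [toR]
    rw [e1, Matrix.mul_add, Matrix.add_mul, Matrix.mul_smul, Matrix.smul_mul, hb]
    exact hQ
  · intro I hI z
    exact hgood I (Finset.mem_filter.mpr ⟨Finset.mem_univ _, hI⟩) z

/-- The monoid of rational polynomials taking unit values at the `μ i`. -/
def UM (μ : Fin n → ℝ) : Submonoid ℚ[X] where
  carrier := {h | ∀ k, IsIntegral ℤ (aeval (μ k) h) ∧ IsIntegral ℤ (aeval (μ k) h)⁻¹ ∧
    aeval (μ k) h ≠ 0}
  one_mem' := by intro k; simp [isIntegral_one]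
  mul_mem' := by
    intro x y hx hy k
    rw [map_mul, mul_inv]
    exact ⟨(hx k).1.mul (hy k).1, (hx k).2.1.mul (hy k).2.1, mul_ne_zero (hx k).2.2 (hy k).2.2⟩

/-- logarithmic functional -/
noncomputable def chiU (μ : Fin n → ℝ) (I : Finset (Fin n)) : Additive (UM μ) →+ ℝ where
  toFun h := ∑ i ∈ I, Real.log |aeval (μ i) (h.toMul : ℚ[X])|
  map_zero' := by simp
  map_add' := by
    intro x y
    rw [← Finset.sum_add_distrib]
    apply Finset.sum_congr rfl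
    intro i _
    rw [toMul_add, Submonoid.coe_mul, map_mul, abs_mul,
      Real.log_mul (abs_ne_zero.mpr (x.toMul.2 i).2.2) (abs_ne_zero.mpr (y.toMul.2 i).2.2)]

/-- choice of the unit -/
lemma exists_unit_good (μ : Fin n → ℝ) (hμ : Function.Injective μ) (cp : ℤ[X])
    (hcp : cp.map (algebraMap ℤ ℝ) = ∏ i, (X - C (μ i)))
    (hgood : ∀ I, Bad G I → ∀ z : ℤ, ∑ i ∈ I, μ i ≠ z) :
    ∃ f : ℚ[X], (∀ k, IsIntegral ℤ (aeval (μ k) f) ∧ IsIntegral ℤ (aeval (μ k) f)⁻¹ ∧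
      aeval (μ k) f ≠ 0) ∧ (∀ k, |aeval (μ k) f| ≠ 1) ∧
      ∀ i j, G.Adj i j → |aeval (μ i) f * aeval (μ j) f| ≠ 1 := by
  classical
  have hmonic : cp.Monic := by
    have h : (cp.map (algebraMap ℤ ℝ)).Monic := by
      rw [hcp]; exact monic_prod_of_monic _ _ (fun i _ => monic_X_sub_C _)
    exact Polynomial.monic_of_injective (RingHom.injective_int _) h
  have hroot : ∀ i, aeval (μ i) cp = 0 := by
    intro i
    rw [aeval_def, ← eval_map, hcp, eval_prod]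
    exact Finset.prod_eq_zero (Finset.mem_univ i) (by simp)
  have hint : ∀ i, IsIntegral ℤ (μ i) := fun i => ⟨cp, hmonic, hroot i⟩
  have hintQ : ∀ i, IsIntegral ℚ (μ i) := fun i => (hint i).tower_top
  let S : Fin n → Finset (Fin n) := fun β =>
    Finset.univ.filter (fun k => aeval (μ k) (minpoly ℚ (μ β)) = 0)
  have hS : ∀ β k, k ∈ S β ↔ aeval (μ k) (minpoly ℚ (μ β)) = 0 := by
    intro β k; simp [S]
  have hself : ∀ β, β ∈ S β := fun β => (hS β β).mpr (minpoly.aeval ℚ (μ β))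
  have hminp : ∀ β α, α ∈ S β → minpoly ℚ (μ α) = minpoly ℚ (μ β) := by
    intro β α hα
    exact (minpoly.eq_of_irreducible_of_monic (minpoly.irreducible (hintQ β)) ((hS β α).mp hα)
      (minpoly.monic (hintQ β))).symm
  have claimA : ∀ β, ∃ α ∈ S β, α ≠ β := by
    intro β
    by_contra hcon
    push Not at hcon
    have hSβ : S β = {β} := by
      ext k
      rw [Finset.mem_singleton]
      exact ⟨hcon k, fun h => h ▸ hself β⟩
    obtain ⟨z, hz⟩ := sum_conj μ hμ cp hcp β (S β) (hS β)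
    rw [hSβ] at hz
    exact hgood {β} (Or.inl ⟨β, rfl⟩) z hz
  have claimB : ∀ β γ, G.Adj β γ → γ ∈ S β → ∃ α ∈ S β, α ≠ β ∧ α ≠ γ := by
    intro β γ hadj hγ
    by_contra hcon
    push Not at hcon
    have hSβ : S β = {β, γ} := by
      ext k
      rw [Finset.mem_insert, Finset.mem_singleton]
      constructor
      · intro hk
        by_cases hkβ : k = β
        · exact Or.inl hkβ
        · exact Or.inr (hcon k hk hkβ)
      · rintro (rfl | rfl)
        · exact hself k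
        · exact hγ
    obtain ⟨z, hz⟩ := sum_conj μ hμ cp hcp β (S β) (hS β)
    rw [hSβ] at hz
    exact hgood {β, γ} (Or.inr ⟨β, γ, hadj, rfl⟩) z hz
  have havoid : ∀ I ∈ Finset.univ.filter (Bad G), ∃ γ, chiU μ I γ ≠ 0 := by
    intro I hI
    rcases (Finset.mem_filter.mp hI).2 with ⟨β, rfl⟩ | ⟨β, γ, hadj, rfl⟩
    · obtain ⟨α, hα, hne⟩ := claimA β
      obtain ⟨f, hf1, hf2, hf3⟩ := exists_unit_poly μ hμ hint α
      refine ⟨Additive.ofMul ⟨f, hf1⟩, ?_⟩
      change (∑ i ∈ {β}, Real.log |aeval (μ i) f|) ≠ 0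
      rw [Finset.sum_singleton]
      apply ne_of_lt
      apply Real.log_neg (abs_pos.mpr (hf1 β).2.2)
      apply hf2 β (fun h => hne h.symm)
      rw [hminp β α hα]; exact (hS β β).mp (hself β)
    · by_cases hγ : γ ∈ S β
      · obtain ⟨α, hα, hne1, hne2⟩ := claimB β γ hadj hγ
        obtain ⟨f, hf1, hf2, hf3⟩ := exists_unit_poly μ hμ hint α
        refine ⟨Additive.ofMul ⟨f, hf1⟩, ?_⟩
        change (∑ i ∈ {β, γ}, Real.log |aeval (μ i) f|) ≠ 0
        rw [Finset.sum_pair hadj.ne]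
        apply ne_of_lt
        have h1 : Real.log |aeval (μ β) f| < 0 := by
          apply Real.log_neg (abs_pos.mpr (hf1 β).2.2)
          apply hf2 β (fun h => hne1 h.symm)
          rw [hminp β α hα]; exact (hS β β).mp (hself β)
        have h2 : Real.log |aeval (μ γ) f| < 0 := by
          apply Real.log_neg (abs_pos.mpr (hf1 γ).2.2)
          apply hf2 γ (fun h => hne2 h.symm)
          rw [hminp β α hα]; exact (hS β γ).mp hγ
        linarith
      · obtain ⟨α, hα, hne⟩ := claimA β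
        obtain ⟨f, hf1, hf2, hf3⟩ := exists_unit_poly μ hμ hint α
        refine ⟨Additive.ofMul ⟨f, hf1⟩, ?_⟩
        change (∑ i ∈ {β, γ}, Real.log |aeval (μ i) f|) ≠ 0
        rw [Finset.sum_pair hadj.ne]
        apply ne_of_lt
        have h1 : Real.log |aeval (μ β) f| < 0 := by
          apply Real.log_neg (abs_pos.mpr (hf1 β).2.2)
          apply hf2 β (fun h => hne h.symm)
          rw [hminp β α hα]; exact (hS β β).mp (hself β)
        have h2 : aeval (μ γ) f = 1 := by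
          apply hf3 γ
          rw [hminp β α hα]
          intro h; exact hγ ((hS β γ).mpr h)
        rw [h2, abs_one, Real.log_one, add_zero]
        exact h1
  obtain ⟨F, hF⟩ := avoid (Finset.univ.filter (Bad G)) (chiU μ) havoid
  have hFU := F.toMul.2
  refine ⟨(F.toMul : ℚ[X]), hFU, ?_, ?_⟩
  · intro k hk
    apply hF {k} (Finset.mem_filter.mpr ⟨Finset.mem_univ _, Or.inl ⟨k, rfl⟩⟩)
    change (∑ i ∈ {k}, Real.log |aeval (μ i) (F.toMul : ℚ[X])|) = 0
    rw [Finset.sum_singleton, hk, Real.log_one]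
  · intro i j hadj hij
    apply hF {i, j} (Finset.mem_filter.mpr ⟨Finset.mem_univ _, Or.inr ⟨i, j, hadj, rfl⟩⟩)
    change (∑ i ∈ {i, j}, Real.log |aeval (μ i) (F.toMul : ℚ[X])|) = 0
    rw [Finset.sum_pair hadj.ne, ← Real.log_mul (abs_ne_zero.mpr (hFU i).2.2)
      (abs_ne_zero.mpr (hFU j).2.2), ← abs_mul, hij, Real.log_one]

/-- The core theorem. -/
theorem core [Fintype L] (h : RForm G B g) (hG : GC G) :
    ∃ (g₂ : Matrix (Fin n) (Fin n) ℝ) (X : Matrix (Fin n) (Fin n) ℚ) (ν : Fin n → ℝ),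
      RForm G B g₂ ∧ toR X * g₂⁻¹ = g₂⁻¹ * Matrix.diagonal ν ∧
      (∀ i, IsIntegral ℤ (ν i) ∧ IsIntegral ℤ (ν i)⁻¹ ∧ ν i ≠ 0) ∧
      (∀ i, |ν i| ≠ 1) ∧ ∀ i j, G.Adj i j → |ν i * ν j| ≠ 1 := by
  classical
  obtain ⟨g₂, A, μ, h₂, hμ, hA, hgood⟩ := h.step3 hG
  have hmap : (A.map (algebraMap ℤ ℚ)).map (algebraMap ℚ ℝ) = A.map (algebraMap ℤ ℝ) := by
    ext i j; simp
  have hcp : (A.charpoly).map (algebraMap ℤ ℝ) = ∏ i, (X - C (μ i)) := by
    rw [← Matrix.charpoly_map, ← hmap]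
    have h1 : (g₂ * toR (A.map (algebraMap ℤ ℚ)) * g₂⁻¹).charpoly =
        (toR (A.map (algebraMap ℤ ℚ))).charpoly := by
      have hu : IsUnit g₂ := (Matrix.isUnit_iff_isUnit_det _).mpr (isUnit_iff_ne_zero.mpr h₂.det)
      obtain ⟨U, rfl⟩ := hu
      rw [Matrix.charpoly_units_conj]
    rw [hA, Matrix.charpoly_diagonal] at h1
    exact h1.symm
  obtain ⟨f, hf1, hf2, hf3⟩ := exists_unit_good (G := G) μ hμ A.charpoly hcp hgood
  refine ⟨g₂, aeval (A.map (algebraMap ℤ ℚ)) f, fun i => aeval (μ i) f, h₂, ?_, hf1, hf2, hf3⟩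
  apply toR_aeval
  rw [← hA]
  calc toR (A.map (algebraMap ℤ ℚ)) * g₂⁻¹ = (g₂⁻¹ * g₂) * toR (A.map (algebraMap ℤ ℚ)) * g₂⁻¹ := by
        rw [h₂.inv_mul, Matrix.one_mul]
    _ = g₂⁻¹ * (g₂ * toR (A.map (algebraMap ℤ ℚ)) * g₂⁻¹) := by simp only [Matrix.mul_assoc]

end

end Pool.Agent.Q31.AN
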