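import Pool.Agent.Q31.AN.Pert

set_option autoImplicit false

/-! Second order expansion of the eigenvalues of `t D + a` and a counting argument showing
that for some integer `t` given sums of eigenvalues are not integers. -/

namespace Pool.Agent.Q31.AN

open Matrix Filter Topology

variable {n : ℕ}

/-- second order coefficient -/
noncomputable def Lam (lam : Fin n → ℝ) (a : Matrix (Fin n) (Fin n) ℝ) (i : Fin n) : ℝ :=
  ∑ l ∈ Finset.univ.erase i, a i l * a l i / (lam i - lam l)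

lemma G_cont (lam : Fin n → ℝ) (hlam : Function.Injective lam)
    (a : Matrix (Fin n) (Fin n) ℝ) (i : Fin n) (ε : ℝ) (hε : 0 < ε) :
    ∃ ε₁ > 0, ∀ (x : ℝ) (w : Fin n → ℝ), |x - lam i| < ε₁ → w i = 1 →
      (∀ k, k ≠ i → |w k| ≤ ε₁) →
      |(∑ l ∈ Finset.univ.erase i, a i l * (∑ m, a l m * w m) / (x - lam l)) - Lam lam a i| < ε := by
  classical
  let Gf : ℝ × (Fin n → ℝ) → ℝ := fun p =>
    ∑ l ∈ Finset.univ.erase i, a i l * (∑ m, a l m * p.2 m) / (p.1 - lam l)
  have hG0 : Gf (lam i, Pi.single i 1) = Lam lam a i := by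
    simp only [Gf, Lam]
    apply Finset.sum_congr rfl
    intro l _
    congr 2
    rw [Finset.sum_eq_single i]
    · simp
    · intro m _ hm
      rw [Pi.single_apply, if_neg hm, mul_zero]
    · simp
  have hcont : ContinuousAt Gf (lam i, Pi.single i 1) := by
    simp only [Gf]
    apply tendsto_finsetSum
    intro l hl
    have hne : lam i - lam l ≠ 0 := by
      rw [sub_ne_zero]; intro h; exact Finset.ne_of_mem_erase hl (hlam h).symm
    apply Tendsto.div
    · have hc : Continuous (fun p : ℝ × (Fin n → ℝ) => a i l * ∑ m, a l m * p.2 m) := by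
        fun_prop
      exact hc.tendsto (lam i, Pi.single i 1)
    · have hc : Continuous (fun p : ℝ × (Fin n → ℝ) => p.1 - lam l) := by fun_prop
      exact hc.tendsto (lam i, Pi.single i 1)
    · exact hne
  obtain ⟨δ, hδ, h⟩ := Metric.continuousAt_iff.mp hcont ε hε
  refine ⟨δ / 2, by positivity, ?_⟩
  intro x w hx hwi hw
  have hd : dist (x, w) (lam i, (Pi.single i 1 : Fin n → ℝ)) < δ := by
    rw [Prod.dist_eq, max_lt_iff]
    constructor
    · rw [Real.dist_eq]; simp only; linarith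
    · simp only
      rw [dist_pi_lt_iff hδ]
      intro k
      rw [Real.dist_eq]
      by_cases hk : k = i
      · subst hk; rw [hwi]; simp [hδ]
      · rw [Pi.single_apply, if_neg hk, sub_zero]
        have := hw k hk
        linarith
  have h2 := h hd
  rw [hG0, Real.dist_eq] at h2
  exact h2

/-- expansion -/
lemma expansion (G : SimpleGraph (Fin n)) (lam : Fin n → ℝ) (hlam : Function.Injective lam)
    (a : Matrix (Fin n) (Fin n) ℝ) (ha : InA G a) (ε : ℝ) (hε : 0 < ε) :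
    ∃ T > 0, ∀ t : ℝ, T ≤ t → ∃ (μ : Fin n → ℝ) (Q : Matrix (Fin n) (Fin n) ℝ),
      (InA G Q ∧ Q.det ≠ 0 ∧ Function.Injective μ ∧
        (t • Matrix.diagonal lam + a) * Q = Q * Matrix.diagonal μ) ∧
      ∀ i, |t * (μ i - t * lam i - a i i) - Lam lam a i| < ε := by
  classical
  choose ε₁ hε₁ hG using fun i => G_cont lam hlam a i ε hε
  obtain ⟨γ, hγ, hgp⟩ := exists_gap lam hlam
  obtain ⟨ε₀, hε₀, hε₀γ, hmin⟩ : ∃ ε₀ > 0, ε₀ ≤ γ ∧ ∀ i, ε₀ ≤ ε₁ i := by
    by_cases hne : Nonempty (Fin n)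
    · obtain ⟨i₀, hi₀⟩ := Finite.exists_min ε₁
      exact ⟨min γ (ε₁ i₀), lt_min hγ (hε₁ i₀), min_le_left _ _,
        fun i => (min_le_right _ _).trans (hi₀ i)⟩
    · exact ⟨γ, hγ, le_refl _, fun i => absurd ⟨i⟩ hne⟩
  obtain ⟨δ, hδ, hE⟩ := eigenbasis G lam hlam ε₀ hε₀
  -- bound for the entries of `a`
  obtain ⟨B, hB, hab⟩ : ∃ B > 0, ∀ k l, |a k l| < B := by
    refine ⟨(∑ k, ∑ l, |a k l|) + 1, by positivity, ?_⟩
    intro k l
    have h1 : |a k l| ≤ ∑ l, |a k l| :=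
      Finset.single_le_sum (f := fun l => |a k l|) (fun _ _ => abs_nonneg _) (Finset.mem_univ l)
    have h2 : ∑ l, |a k l| ≤ ∑ k, ∑ l, |a k l| :=
      Finset.single_le_sum (f := fun k => ∑ l, |a k l|)
        (fun _ _ => Finset.sum_nonneg (fun _ _ => abs_nonneg _)) (Finset.mem_univ k)
    linarith
  refine ⟨B / δ, by positivity, ?_⟩
  intro t ht
  have ht0 : 0 < t := lt_of_lt_of_le (by positivity) ht
  have hZ : ∀ k l, |(t⁻¹ • a) k l| < δ := by
    intro k l
    rw [Matrix.smul_apply, smul_eq_mul, abs_mul, abs_inv, abs_of_pos ht0,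
      inv_mul_lt_iff₀ ht0]
    have h1 := hab k l
    have h2 : B ≤ t * δ := by rwa [div_le_iff₀ hδ] at ht
    linarith
  obtain ⟨μ', Q, h1, h2, h3, h4, h5, h6, h7⟩ := hE (t⁻¹ • a) (ha.smul _) hZ
  refine ⟨fun i => t * μ' i, Q, ⟨h4, h5, ?_, ?_⟩, ?_⟩
  · intro i j hij
    exact h6 (mul_left_cancel₀ ht0.ne' hij)
  · have e1 : t • Matrix.diagonal lam + a = t • (Matrix.diagonal lam + t⁻¹ • a) := by
      rw [smul_add, smul_smul, mul_inv_cancel₀ ht0.ne', one_smul]
    have e2 : Matrix.diagonal (fun i => t * μ' i) = t • Matrix.diagonal μ' := by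
      rw [← Matrix.diagonal_smul]; rfl
    rw [e1, e2, Matrix.smul_mul, h7, Matrix.mul_smul]
  · intro i
    have hrow : ∀ k, (μ' i - lam k) * Q k i = t⁻¹ * ∑ l, a k l * Q l i := by
      intro k
      have h8 := congrFun (congrFun h7 k) i
      rw [Matrix.mul_diagonal, Matrix.add_mul, Matrix.add_apply, Matrix.diagonal_mul,
        Matrix.smul_mul, Matrix.smul_apply, smul_eq_mul, Matrix.mul_apply] at h8
      linarith
    have hne : ∀ l ∈ Finset.univ.erase i, μ' i - lam l ≠ 0 := by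
      intro l hl h
      have hli : l ≠ i := Finset.ne_of_mem_erase hl
      have e1 : μ' i = lam l := sub_eq_zero.mp h
      have e2 := hgp i l hli
      have e3 := h1 i
      rw [e1, abs_sub_comm] at e3
      linarith
    have hgap : ∀ l ∈ Finset.univ.erase i, t * Q l i =
        (∑ m, a l m * Q m i) / (μ' i - lam l) := by
      intro l hl
      rw [eq_div_iff (hne l hl)]
      have := hrow l
      calc t * Q l i * (μ' i - lam l) = t * ((μ' i - lam l) * Q l i) := by ring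
        _ = ∑ m, a l m * Q m i := by
            rw [this, ← mul_assoc, mul_inv_cancel₀ ht0.ne', one_mul]
    have hi := hrow i
    rw [h2 i, mul_one, ← Finset.add_sum_erase _ _ (Finset.mem_univ i), h2 i, mul_one] at hi
    have hi' : t * μ' i - t * lam i - a i i = ∑ l ∈ Finset.univ.erase i, a i l * Q l i := by
      have : t * (μ' i - lam i) = a i i + ∑ l ∈ Finset.univ.erase i, a i l * Q l i := by
        rw [hi, ← mul_assoc, mul_inv_cancel₀ ht0.ne', one_mul]
      linarith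
    have hi'' : t * (t * μ' i - t * lam i - a i i) =
        ∑ l ∈ Finset.univ.erase i, a i l * (∑ m, a l m * Q m i) / (μ' i - lam l) := by
      rw [hi', Finset.mul_sum]
      apply Finset.sum_congr rfl
      intro l hl
      rw [mul_div_assoc, ← hgap l hl]; ring
    rw [hi'']
    exact hG i (μ' i) (fun m => Q m i) ((h1 i).trans_le (hmin i)) (h2 i)
      (fun k hk => (h3 i k hk).trans (hmin i))

/-- The combination of three values. -/
lemma three_values (a b c : ℕ) (ha : 0 < a) (hb : 0 < b) (hc : 0 < c) (hab : a ≠ b)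
    (hac : a ≠ c) (hbc : b ≠ c) (K : ℕ) (haK : a ≤ K) (hbK : b ≤ K) (hcK : c ≤ K)
    (C R Λ : ℝ) (L : ℝ) (hL : 0 < L) (ηa ηb ηc η : ℝ) (hηa : |ηa| ≤ η) (hηb : |ηb| ≤ η)
    (hηc : |ηc| ≤ η) (hη : 3 * K * η < |Λ| / K ^ 3) (hLbig : |Λ| * K ^ 3 + 3 * K * η < L)
    (za zb zc : ℤ) (hza : C * (a * L) + R + (Λ + ηa) / (a * L) = za)
    (hzb : C * (b * L) + R + (Λ + ηb) / (b * L) = zb)
    (hzc : C * (c * L) + R + (Λ + ηc) / (c * L) = zc) : False := by
  have ha' : (0 : ℝ) < a := by exact_mod_cast ha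
  have hb' : (0 : ℝ) < b := by exact_mod_cast hb
  have hc' : (0 : ℝ) < c := by exact_mod_cast hc
  have hK' : (0 : ℝ) < K := lt_of_lt_of_le ha' (by exact_mod_cast haK)
  have haK' : (a : ℝ) ≤ K := by exact_mod_cast haK
  have hbK' : (b : ℝ) ≤ K := by exact_mod_cast hbK
  have hcK' : (c : ℝ) ≤ K := by exact_mod_cast hcK
  have ha1 : (1 : ℝ) ≤ a := by exact_mod_cast ha
  have hb1 : (1 : ℝ) ≤ b := by exact_mod_cast hb
  have hc1 : (1 : ℝ) ≤ c := by exact_mod_cast hc
  set m : ℤ := ((c : ℤ) - b) * za + ((a : ℤ) - c) * zb + ((b : ℤ) - a) * zc with hm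
  set D : ℝ := ((a : ℝ) - b) * (b - c) * (c - a) / (a * b * c) with hD
  set E : ℝ := ((c : ℝ) - b) * ηa / a + (a - c) * ηb / b + (b - a) * ηc / c with hE
  have hmL : (m : ℝ) * L = Λ * D + E := by
    rw [hm, hD, hE]
    push_cast
    rw [← hza, ← hzb, ← hzc]
    field_simp
    ring
  have hη0 : 0 ≤ η := (abs_nonneg _).trans hηa
  have hterm : ∀ (x y z : ℝ), |x| ≤ K → |y| ≤ η → 1 ≤ z → |x * y / z| ≤ K * η := by
    intro x y z hx hy hz
    rw [abs_div, abs_mul, div_le_iff₀ (by positivity), abs_of_pos (by linarith : (0:ℝ) < z)]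
    calc |x| * |y| ≤ K * η := mul_le_mul hx hy (abs_nonneg _) hK'.le
      _ ≤ K * η * z := le_mul_of_one_le_right (by positivity) hz
  have hEb : |E| ≤ 3 * K * η := by
    have h1 := hterm (c - b) ηa a (by rw [abs_le]; constructor <;> linarith) hηa ha1
    have h2 := hterm (a - c) ηb b (by rw [abs_le]; constructor <;> linarith) hηb hb1
    have h3 := hterm (b - a) ηc c (by rw [abs_le]; constructor <;> linarith) hηc hc1
    have h4 := abs_add_three (((c : ℝ) - b) * ηa / a) ((a - c) * ηb / b) ((b - a) * ηc / c)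
    rw [hE]
    linarith
  -- bounds for `D`
  have hnum : (1 : ℝ) ≤ |((a : ℝ) - b) * (b - c) * (c - a)| := by
    have h1 : ((a : ℤ) - b) * (b - c) * (c - a) ≠ 0 := by
      apply mul_ne_zero
      · apply mul_ne_zero
        · omega
        · omega
      · omega
    have h2 := Int.one_le_abs h1
    exact_mod_cast h2
  have hnum' : |((a : ℝ) - b) * (b - c) * (c - a)| ≤ K ^ 3 := by
    rw [abs_mul, abs_mul]
    have h1 : |(a : ℝ) - b| ≤ K := by rw [abs_le]; constructor <;> linarith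
    have h2 : |(b : ℝ) - c| ≤ K := by rw [abs_le]; constructor <;> linarith
    have h3 : |(c : ℝ) - a| ≤ K := by rw [abs_le]; constructor <;> linarith
    calc |(a : ℝ) - b| * |(b : ℝ) - c| * |(c : ℝ) - a| ≤ K * K * K := by
          apply mul_le_mul (mul_le_mul h1 h2 (abs_nonneg _) hK'.le) h3 (abs_nonneg _) (by positivity)
      _ = K ^ 3 := by ring
  have hden : (1 : ℝ) ≤ a * b * c := by
    have h1 : (1 : ℝ) ≤ a * b := one_le_mul_of_one_le_of_one_le ha1 hb1
    exact one_le_mul_of_one_le_of_one_le h1 hc1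
  have hden' : (a : ℝ) * b * c ≤ K ^ 3 := by
    calc (a : ℝ) * b * c ≤ K * K * K := by
          apply mul_le_mul (mul_le_mul haK' hbK' hb'.le hK'.le) hcK' hc'.le (by positivity)
      _ = K ^ 3 := by ring
  have hDlow : 1 / K ^ 3 ≤ |D| := by
    rw [hD, abs_div, abs_of_pos (by positivity : (0 : ℝ) < a * b * c)]
    exact div_le_div₀ (abs_nonneg _) hnum (by positivity) hden'
  have hDup : |D| ≤ K ^ 3 := by
    rw [hD, abs_div, abs_of_pos (by positivity : (0 : ℝ) < a * b * c), div_le_iff₀ (by positivity)]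
    calc |((a : ℝ) - b) * (b - c) * (c - a)| ≤ K ^ 3 := hnum'
      _ ≤ K ^ 3 * (a * b * c) := le_mul_of_one_le_right (by positivity) hden
  have hlow : 0 < |(m : ℝ) * L| := by
    rw [hmL]
    have h1 : |Λ| * (1 / K ^ 3) ≤ |Λ * D| := by
      rw [abs_mul]; exact mul_le_mul_of_nonneg_left hDlow (abs_nonneg _)
    have h2 : |Λ * D| - |E| ≤ |Λ * D + E| := by
      have := abs_sub_abs_le_abs_sub (Λ * D) (-E)
      rw [abs_neg, sub_neg_eq_add] at this
      exact this
    have h3 : |Λ| * (1 / K ^ 3) = |Λ| / K ^ 3 := by ring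
    linarith
  have hup : |(m : ℝ) * L| < L := by
    rw [hmL]
    have h1 : |Λ * D| ≤ |Λ| * K ^ 3 := by
      rw [abs_mul]; exact mul_le_mul_of_nonneg_left hDup (abs_nonneg _)
    have h2 := abs_add_le (Λ * D) E
    linarith
  have hm0 : m ≠ 0 := by
    rintro h
    rw [h] at hlow
    simp at hlow
  have hm1 : (1 : ℝ) ≤ |(m : ℝ)| := by exact_mod_cast Int.one_le_abs hm0
  rw [abs_mul, abs_of_pos hL] at hup
  nlinarith

/-- counting: some integer `t` is good for finitely many sums of eigenvalues -/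
lemma exists_good (G : SimpleGraph (Fin n)) (lam : Fin n → ℝ) (hlam : Function.Injective lam)
    (a : Matrix (Fin n) (Fin n) ℝ) (ha : InA G a) (𝓘 : Finset (Finset (Fin n)))
    (h𝓘 : ∀ I ∈ 𝓘, ∑ i ∈ I, Lam lam a i ≠ 0) :
    ∃ t : ℕ, ∃ (μ : Fin n → ℝ) (Q : Matrix (Fin n) (Fin n) ℝ),
      (InA G Q ∧ Q.det ≠ 0 ∧ Function.Injective μ ∧
        ((t : ℝ) • Matrix.diagonal lam + a) * Q = Q * Matrix.diagonal μ) ∧
      ∀ I ∈ 𝓘, ∀ z : ℤ, ∑ i ∈ I, μ i ≠ z := by
  classical
  set K : ℕ := 2 * 𝓘.card + 1 with hK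
  have hKpos : 0 < K := by omega
  have hK' : (0 : ℝ) < K := by exact_mod_cast hKpos
  -- bounds for the coefficients
  obtain ⟨c0, hc0, hc0'⟩ : ∃ c0 > 0, ∀ I ∈ 𝓘, c0 ≤ |∑ i ∈ I, Lam lam a i| := by
    by_cases hne : 𝓘.Nonempty
    · obtain ⟨I₀, hI₀, hmin⟩ := 𝓘.exists_min_image (fun I => |∑ i ∈ I, Lam lam a i|) hne
      exact ⟨_, abs_pos.mpr (h𝓘 I₀ hI₀), hmin⟩
    · rw [Finset.not_nonempty_iff_eq_empty] at hne
      exact ⟨1, one_pos, by simp [hne]⟩
  obtain ⟨c1, hc1, hc1'⟩ : ∃ c1 > 0, ∀ I ∈ 𝓘, |∑ i ∈ I, Lam lam a i| ≤ c1 := by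
    refine ⟨(∑ I ∈ 𝓘, |∑ i ∈ I, Lam lam a i|) + 1, by positivity, ?_⟩
    intro I hI
    have := Finset.single_le_sum (f := fun I => |∑ i ∈ I, Lam lam a i|)
      (fun _ _ => abs_nonneg _) hI
    linarith
  set η : ℝ := c0 / (6 * K * K ^ 3) with hη
  have hη0 : 0 < η := by rw [hη]; positivity
  have hηK : 3 * K * η < c0 / K ^ 3 := by
    rw [hη]
    have : 3 * K * (c0 / (6 * K * K ^ 3)) = (c0 / K ^ 3) / 2 := by field_simp; norm_num
    rw [this]
    have : 0 < c0 / (K : ℝ) ^ 3 := by positivity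
    linarith
  obtain ⟨T, hT, hexp⟩ := expansion G lam hlam a ha (η / (n + 1)) (by positivity)
  obtain ⟨L, hL⟩ := exists_nat_gt (T + (c1 * K ^ 3 + 3 * K * η))
  have hLpos : (0 : ℝ) < L := by
    have : 0 < T + (c1 * K ^ 3 + 3 * K * η) := by positivity
    linarith
  have hLT : T < L := by
    have : 0 < (c1 * K ^ 3 + 3 * K * η) := by positivity
    linarith
  have hLbig : c1 * K ^ 3 + 3 * K * η < L := by linarith
  -- the values `k * L`
  have hk : ∀ k : ℕ, 0 < k → T ≤ (k : ℝ) * L := by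
    intro k hk
    have : (1 : ℝ) ≤ k := by exact_mod_cast hk
    nlinarith
  by_contra hcon
  push Not at hcon
  have hbad : ∀ k ∈ Finset.Icc 1 K, ∃ I ∈ 𝓘, ∃ (z : ℤ) (ηk : ℝ), |ηk| ≤ η ∧
      (∑ i ∈ I, lam i) * (k * L) + (∑ i ∈ I, a i i) + ((∑ i ∈ I, Lam lam a i) + ηk) / (k * L) = z := by
    intro k hkm
    have hk1 : 0 < k := (Finset.mem_Icc.mp hkm).1
    have hkL : (0 : ℝ) < (k : ℝ) * L := by
      have : (0 : ℝ) < k := by exact_mod_cast hk1
      positivity
    obtain ⟨μ, Q, hQ, hμ⟩ := hexp (k * L) (hk k hk1)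
    have hQ' : InA G Q ∧ Q.det ≠ 0 ∧ Function.Injective μ ∧
        (((k * L : ℕ) : ℝ) • Matrix.diagonal lam + a) * Q = Q * Matrix.diagonal μ := by
      push_cast; exact hQ
    obtain ⟨I, hI, z, hz⟩ := hcon (k * L) μ Q hQ'
    refine ⟨I, hI, z, ∑ i ∈ I, ((k * L) * (μ i - (k * L) * lam i - a i i) - Lam lam a i), ?_, ?_⟩
    · calc |∑ i ∈ I, (((k : ℝ) * L) * (μ i - (k * L) * lam i - a i i) - Lam lam a i)|
          ≤ ∑ i ∈ I, |((k : ℝ) * L) * (μ i - (k * L) * lam i - a i i) - Lam lam a i| :=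
            Finset.abs_sum_le_sum_abs _ _
        _ ≤ ∑ _i ∈ I, η / (n + 1) := Finset.sum_le_sum (fun i _ => (hμ i).le)
        _ = I.card * (η / (n + 1)) := by rw [Finset.sum_const, nsmul_eq_mul]
        _ ≤ (n + 1) * (η / (n + 1)) := by
            apply mul_le_mul_of_nonneg_right _ (by positivity)
            have : I.card ≤ n := by
              calc I.card ≤ (Finset.univ : Finset (Fin n)).card :=
                    Finset.card_le_card (Finset.subset_univ _)
                _ = n := by simp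
            have : (I.card : ℝ) ≤ n := by exact_mod_cast this
            linarith
        _ = η := by field_simp
    · rw [← hz, Finset.sum_sub_distrib, ← Finset.mul_sum]
      have e1 : ∑ i ∈ I, (μ i - (k * L) * lam i - a i i) =
          ∑ i ∈ I, μ i - (k * L) * ∑ i ∈ I, lam i - ∑ i ∈ I, a i i := by
        rw [Finset.sum_sub_distrib, Finset.sum_sub_distrib, Finset.mul_sum]
      rw [e1]
      field_simp
      ring
  choose! If hIf hIf' using hbad
  obtain ⟨I, hI, hcard⟩ := Finset.exists_lt_card_fiber_of_mul_lt_card_of_maps_to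
    (s := Finset.Icc 1 K) (t := 𝓘) (f := If) (n := 2) hIf (by simp [hK]; omega)
  obtain ⟨x, y, z, hx, hy, hz, hxy, hxz, hyz⟩ := Finset.two_lt_card_iff.mp hcard
  simp only [Finset.mem_filter] at hx hy hz
  obtain ⟨zx, ηx, hηx, hzx⟩ := hIf' x hx.1
  obtain ⟨zy, ηy, hηy, hzy⟩ := hIf' y hy.1
  obtain ⟨zz, ηz, hηz, hzz⟩ := hIf' z hz.1
  rw [hx.2] at hzx
  rw [hy.2] at hzy
  rw [hz.2] at hzz
  have hx1 := Finset.mem_Icc.mp hx.1
  have hy1 := Finset.mem_Icc.mp hy.1
  have hz1 := Finset.mem_Icc.mp hz.1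
  refine three_values x y z (by omega) (by omega) (by omega) hxy hxz hyz K hx1.2 hy1.2 hz1.2
    (∑ i ∈ I, lam i) (∑ i ∈ I, a i i) (∑ i ∈ I, Lam lam a i) L hLpos ηx ηy ηz η hηx hηy hηz
    ?_ ?_ zx zy zz hzx hzy hzz
  · have h1 := hc0' I hI
    have h2 : c0 / (K : ℝ) ^ 3 ≤ |∑ i ∈ I, Lam lam a i| / K ^ 3 := by gcongr
    linarith
  · have h1 := hc1' I hI
    have h2 : |∑ i ∈ I, Lam lam a i| * (K : ℝ) ^ 3 ≤ c1 * K ^ 3 := by gcongr
    linarith

end Pool.Agent.Q31.AN
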