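import Pool.Agent.Q31.AN.Generic

set_option autoImplicit false

/-! Rational forms at the level of matrices and density of rational points. -/

namespace Pool.Agent.Q31.AN

open Matrix Filter Topology

variable {n : ℕ}

/-- real matrix of a rational matrix -/
noncomputable def toR (X : Matrix (Fin n) (Fin n) ℚ) : Matrix (Fin n) (Fin n) ℝ :=
  X.map (algebraMap ℚ ℝ)

lemma toR_mul (X Y : Matrix (Fin n) (Fin n) ℚ) : toR (X * Y) = toR X * toR Y :=
  Matrix.map_mul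

lemma toR_add (X Y : Matrix (Fin n) (Fin n) ℚ) : toR (X + Y) = toR X + toR Y :=
  Matrix.map_add _ (fun _ _ => map_add _ _ _) _ _

lemma toR_smul (c : ℚ) (X : Matrix (Fin n) (Fin n) ℚ) : toR (c • X) = (c : ℝ) • toR X := by
  ext i j
  simp [toR]

lemma toR_transpose (X : Matrix (Fin n) (Fin n) ℚ) : toR Xᵀ = (toR X)ᵀ := rfl

/-- rational form data -/
structure RForm (G : SimpleGraph (Fin n)) {L : Type} (B : L → Matrix (Fin n) (Fin n) ℚ)
    (g : Matrix (Fin n) (Fin n) ℝ) : Prop where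
  det : g.det ≠ 0
  hP : ∀ Ω : Matrix (Fin n) (Fin n) ℝ,
    Ω ∈ Submodule.span ℝ (Set.range (fun l => toR (B l))) ↔ InP G (g⁻¹ᵀ * Ω * g⁻¹)

section

variable {G : SimpleGraph (Fin n)} {L : Type} {B : L → Matrix (Fin n) (Fin n) ℚ}
  {g : Matrix (Fin n) (Fin n) ℝ}

lemma RForm.mul_inv (h : RForm G B g) : g * g⁻¹ = 1 :=
  Matrix.mul_nonsing_inv _ (isUnit_iff_ne_zero.mpr h.det)

lemma RForm.inv_mul (h : RForm G B g) : g⁻¹ * g = 1 :=
  Matrix.nonsing_inv_mul _ (isUnit_iff_ne_zero.mpr h.det)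

/-- the inverse of an invertible element of the incidence algebra -/
lemma InA.inv {Q : Matrix (Fin n) (Fin n) ℝ} (hQ : InA G Q) (hdet : Q.det ≠ 0) : InA G Q⁻¹ := by
  classical
  let 𝒜 : Submodule ℝ (Matrix (Fin n) (Fin n) ℝ) :=
    { carrier := {Z | InA G Z}
      zero_mem' := by intro i j h; simp at h
      add_mem' := fun h1 h2 => h1.add h2
      smul_mem' := fun c _ h => h.smul c }
  let T : 𝒜 →ₗ[ℝ] 𝒜 := (LinearMap.mulLeft ℝ Q).restrict (fun Z hZ => hQ.mul hZ)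
  have hinv : Q⁻¹ * Q = 1 := Matrix.nonsing_inv_mul _ (isUnit_iff_ne_zero.mpr hdet)
  have hinj : Function.Injective T := by
    intro x y hxy
    have h1 : Q * x.1 = Q * y.1 := congrArg Subtype.val hxy
    have h2 : Q⁻¹ * (Q * x.1) = Q⁻¹ * (Q * y.1) := by rw [h1]
    rw [← Matrix.mul_assoc, ← Matrix.mul_assoc, hinv, Matrix.one_mul, Matrix.one_mul] at h2
    exact Subtype.ext h2
  have hsurj := LinearMap.injective_iff_surjective.mp hinj
  have h1 : InA G (1 : Matrix (Fin n) (Fin n) ℝ) := by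
    rw [← Matrix.diagonal_one]; exact InA.diagonal G _
  obtain ⟨Y, hY⟩ := hsurj ⟨1, h1⟩
  have hY' : Q * Y.1 = 1 := congrArg Subtype.val hY
  have : Q⁻¹ = Y.1 := Matrix.inv_eq_right_inv hY'
  rw [this]
  exact Y.2

lemma RForm.twist (h : RForm G B g) {Q : Matrix (Fin n) (Fin n) ℝ} (hQ : InA G Q)
    (hdet : Q.det ≠ 0) : RForm G B (Q⁻¹ * g) := by
  have hQu : IsUnit Q.det := isUnit_iff_ne_zero.mpr hdet
  have hgu : IsUnit g.det := isUnit_iff_ne_zero.mpr h.det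
  have hinv : (Q⁻¹ * g)⁻¹ = g⁻¹ * Q := by
    rw [Matrix.mul_inv_rev, Matrix.nonsing_inv_nonsing_inv _ hQu]
  refine ⟨?_, ?_⟩
  · rw [Matrix.det_mul, Matrix.det_nonsing_inv, Ring.inverse_eq_inv']
    exact mul_ne_zero (inv_ne_zero hdet) h.det
  · intro Ω
    rw [h.hP, hinv]
    have e1 : (g⁻¹ * Q)ᵀ * Ω * (g⁻¹ * Q) = Qᵀ * (g⁻¹ᵀ * Ω * g⁻¹) * Q := by
      rw [Matrix.transpose_mul]; simp only [Matrix.mul_assoc]
    rw [e1]
    constructor
    · intro h1; exact h1.congr hQ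
    · intro h1
      have h2 := h1.congr (hQ.inv hdet)
      have e2 : (Q⁻¹)ᵀ * (Qᵀ * (g⁻¹ᵀ * Ω * g⁻¹) * Q) * Q⁻¹ = g⁻¹ᵀ * Ω * g⁻¹ := by
        have e3 : (Q⁻¹)ᵀ * Qᵀ = 1 := by
          rw [← Matrix.transpose_mul, Matrix.mul_nonsing_inv _ hQu, Matrix.transpose_one]
        have e4 : Q * Q⁻¹ = 1 := Matrix.mul_nonsing_inv _ hQu
        calc (Q⁻¹)ᵀ * (Qᵀ * (g⁻¹ᵀ * Ω * g⁻¹) * Q) * Q⁻¹
            = ((Q⁻¹)ᵀ * Qᵀ) * (g⁻¹ᵀ * Ω * g⁻¹) * (Q * Q⁻¹) := by
              simp only [Matrix.mul_assoc]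
          _ = _ := by rw [e3, e4, Matrix.one_mul, Matrix.mul_one]
      rw [e2] at h2
      exact h2

/-- characterisation of the twisted incidence algebra through the span of the forms -/
lemma RForm.inA_iff (h : RForm G B g) (Y : Matrix (Fin n) (Fin n) ℝ) :
    InA G (g * Y * g⁻¹) ↔ ∀ l, Yᵀ * toR (B l) + toR (B l) * Y ∈
      Submodule.span ℝ (Set.range (fun l => toR (B l))) := by
  have hkey : ∀ Ω : Matrix (Fin n) (Fin n) ℝ,
      g⁻¹ᵀ * (Yᵀ * Ω + Ω * Y) * g⁻¹ =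
        (g * Y * g⁻¹)ᵀ * (g⁻¹ᵀ * Ω * g⁻¹) + (g⁻¹ᵀ * Ω * g⁻¹) * (g * Y * g⁻¹) := by
    intro Ω
    have e1 : gᵀ * (g⁻¹)ᵀ = 1 := by
      rw [← Matrix.transpose_mul, h.inv_mul, Matrix.transpose_one]
    have e2 : g⁻¹ * g = 1 := h.inv_mul
    have e3 : (g * Y * g⁻¹)ᵀ = (g⁻¹)ᵀ * Yᵀ * gᵀ := by
      rw [Matrix.transpose_mul, Matrix.transpose_mul, Matrix.mul_assoc]
    rw [e3]
    have e4 : (g⁻¹)ᵀ * Yᵀ * gᵀ * (g⁻¹ᵀ * Ω * g⁻¹) = (g⁻¹)ᵀ * Yᵀ * (gᵀ * (g⁻¹)ᵀ) * Ω * g⁻¹ := by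
      simp only [Matrix.mul_assoc]
    have e5 : (g⁻¹ᵀ * Ω * g⁻¹) * (g * Y * g⁻¹) = (g⁻¹)ᵀ * Ω * (g⁻¹ * g) * Y * g⁻¹ := by
      simp only [Matrix.mul_assoc]
    rw [e4, e5, e1, e2, Matrix.mul_one, Matrix.mul_one, Matrix.mul_add, Matrix.add_mul]
    simp only [Matrix.mul_assoc]
  constructor
  · intro hA l
    rw [h.hP, hkey]
    exact (AN.inA_iff G _).mp hA _ ((h.hP _).mp (Submodule.subset_span ⟨l, rfl⟩))
  · intro hB
    rw [AN.inA_iff]
    -- all elements of the span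
    have hspan : ∀ Ω ∈ Submodule.span ℝ (Set.range (fun l => toR (B l))),
        Yᵀ * Ω + Ω * Y ∈ Submodule.span ℝ (Set.range (fun l => toR (B l))) := by
      intro Ω hΩ
      induction hΩ using Submodule.span_induction with
      | mem x hx => obtain ⟨l, rfl⟩ := hx; exact hB l
      | zero => simp
      | add x y _ _ h1 h2 =>
        have : Yᵀ * (x + y) + (x + y) * Y = (Yᵀ * x + x * Y) + (Yᵀ * y + y * Y) := by
          rw [Matrix.mul_add, Matrix.add_mul]; abel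
        rw [this]; exact Submodule.add_mem _ h1 h2
      | smul c x _ h1 =>
        have : Yᵀ * (c • x) + (c • x) * Y = c • (Yᵀ * x + x * Y) := by
          rw [Matrix.mul_smul, Matrix.smul_mul, smul_add]
        rw [this]; exact Submodule.smul_mem _ _ h1
    intro Ω hΩ
    have e0 : g⁻¹ᵀ * (gᵀ * Ω * g) * g⁻¹ = Ω := by
      have e1 : (g⁻¹)ᵀ * gᵀ = 1 := by
        rw [← Matrix.transpose_mul, h.mul_inv, Matrix.transpose_one]
      calc g⁻¹ᵀ * (gᵀ * Ω * g) * g⁻¹ = ((g⁻¹)ᵀ * gᵀ) * Ω * (g * g⁻¹) := by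
            simp only [Matrix.mul_assoc]
        _ = Ω := by rw [e1, h.mul_inv, Matrix.one_mul, Matrix.mul_one]
    have h1 : gᵀ * Ω * g ∈ Submodule.span ℝ (Set.range (fun l => toR (B l))) := by
      rw [h.hP, e0]; exact hΩ
    have h2 := (h.hP _).mp (hspan _ h1)
    rw [hkey, e0] at h2
    exact h2

/-- applying a rational functional to the entries preserves the twisted incidence algebra -/
lemma RForm.functional [Fintype L] (h : RForm G B g) (φ : ℝ →ₗ[ℚ] ℚ)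
    (Y : Matrix (Fin n) (Fin n) ℝ) (hY : InA G (g * Y * g⁻¹)) :
    InA G (g * toR (Y.map φ) * g⁻¹) := by
  classical
  rw [h.inA_iff] at hY ⊢
  intro l
  obtain ⟨c, hc⟩ := (Submodule.mem_span_range_iff_exists_fun ℝ).mp (hY l)
  rw [Submodule.mem_span_range_iff_exists_fun]
  refine ⟨fun m => ((φ (c m) : ℚ) : ℝ), ?_⟩
  ext i j
  have h1 := congrFun (congrFun hc i) j
  simp only [Matrix.sum_apply, Matrix.smul_apply, smul_eq_mul, Matrix.add_apply,
    Matrix.mul_apply, Matrix.transpose_apply, toR, Matrix.map_apply] at h1 ⊢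
  -- apply `φ` to `h1`
  have h2 := congrArg φ h1
  have hφ : ∀ (x : ℝ) (q : ℚ), φ (x * (algebraMap ℚ ℝ q)) = φ x * q := by
    intro x q
    have : x * (algebraMap ℚ ℝ q) = q • x := by rw [Algebra.smul_def, mul_comm]
    rw [this, map_smul, smul_eq_mul, mul_comm]
  have hφ' : ∀ (x : ℝ) (q : ℚ), φ ((algebraMap ℚ ℝ q) * x) = q * φ x := by
    intro x q
    rw [mul_comm, hφ, mul_comm]
  simp only [map_sum, map_add, hφ, hφ'] at h2
  have h3 := congrArg (algebraMap ℚ ℝ) h2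
  simp only [map_sum, map_add, map_mul] at h3
  simpa using h3

omit G L B g in
/-- expansion in a Hamel basis -/
lemma hamel (Y : Matrix (Fin n) (Fin n) ℝ) : ∃ (ι : Type) (s : Finset ι) (θ : ι → ℝ)
    (φ : ι → (ℝ →ₗ[ℚ] ℚ)), Y = ∑ t ∈ s, (θ t) • toR (Y.map (φ t)) := by
  classical
  obtain ⟨ι, ⟨Bs⟩⟩ : ∃ ι : Type, Nonempty (Module.Basis ι ℚ ℝ) :=
    ⟨_, ⟨Module.Basis.ofVectorSpace ℚ ℝ⟩⟩
  refine ⟨ι, Finset.univ.biUnion (fun p : Fin n × Fin n => (Bs.repr (Y p.1 p.2)).support),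
    Bs, Bs.coord, ?_⟩
  ext i j
  rw [Matrix.sum_apply]
  have h1 : Y i j = ∑ t ∈ Finset.univ.biUnion
      (fun p : Fin n × Fin n => (Bs.repr (Y p.1 p.2)).support), (Bs.repr (Y i j) t) • Bs t := by
    conv_lhs => rw [← Bs.linearCombination_repr (Y i j), Finsupp.linearCombination_apply]
    rw [Finsupp.sum]
    apply Finset.sum_subset
    · exact Finset.subset_biUnion_of_mem
        (fun p : Fin n × Fin n => (Bs.repr (Y p.1 p.2)).support) (Finset.mem_univ (i, j))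
    · intro t _ ht
      rw [Finsupp.notMem_support_iff.mp ht, zero_smul]
  rw [h1]
  apply Finset.sum_congr rfl
  intro t _
  rw [Matrix.smul_apply, smul_eq_mul, toR, Matrix.map_apply, Matrix.map_apply,
    Module.Basis.coord_apply, Algebra.smul_def, mul_comm]

/-- the rational points of the twisted incidence algebra are dense -/
lemma RForm.dense [Fintype L] (h : RForm G B g) (Z : Matrix (Fin n) (Fin n) ℝ) (hZ : InA G Z)
    (ε : ℝ) (hε : 0 < ε) :
    ∃ X : Matrix (Fin n) (Fin n) ℚ, InA G (g * toR X * g⁻¹) ∧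
      ∀ i j, |(g * toR X * g⁻¹) i j - Z i j| < ε := by
  classical
  let R : AddSubgroup (Matrix (Fin n) (Fin n) ℝ) :=
    { carrier := {W | ∃ X : Matrix (Fin n) (Fin n) ℚ, InA G (g * toR X * g⁻¹) ∧ W = toR X}
      zero_mem' := by
        refine ⟨0, ?_, ?_⟩
        · have : toR (0 : Matrix (Fin n) (Fin n) ℚ) = 0 := by ext i j; simp [toR]
          rw [this, Matrix.mul_zero, Matrix.zero_mul]
          intro i j h; simp at h
        · ext i j; simp [toR]
      add_mem' := by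
        rintro _ _ ⟨X, hX, rfl⟩ ⟨Y, hY, rfl⟩
        refine ⟨X + Y, ?_, (toR_add X Y).symm⟩
        rw [toR_add, Matrix.mul_add, Matrix.add_mul]
        exact hX.add hY
      neg_mem' := by
        rintro _ ⟨X, hX, rfl⟩
        refine ⟨-X, ?_, ?_⟩
        · have : toR (-X) = - toR X := by ext i j; simp [toR]
          rw [this, Matrix.mul_neg, Matrix.neg_mul]
          exact hX.neg
        · ext i j; simp [toR] }
  have hsmul : ∀ (c : ℝ) (X : Matrix (Fin n) (Fin n) ℚ), InA G (g * toR X * g⁻¹) →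
      c • toR X ∈ R.topologicalClosure := by
    intro c X hX
    refine (Rat.isDenseEmbedding_coe_real.dense).induction_on
      (p := fun c : ℝ => c • toR X ∈ R.topologicalClosure) c ?_ ?_
    · have hc : Continuous (fun c : ℝ => c • toR X) := by fun_prop
      exact (R.isClosed_topologicalClosure).preimage hc
    · intro q
      apply R.le_topologicalClosure
      refine ⟨q • X, ?_, ?_⟩
      · rw [toR_smul, Matrix.mul_smul, Matrix.smul_mul]; exact hX.smul _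
      · rw [toR_smul]
  set Y : Matrix (Fin n) (Fin n) ℝ := g⁻¹ * Z * g with hYdef
  have hYZ : g * Y * g⁻¹ = Z := by
    calc g * (g⁻¹ * Z * g) * g⁻¹ = (g * g⁻¹) * Z * (g * g⁻¹) := by simp only [Matrix.mul_assoc]
      _ = Z := by rw [h.mul_inv, Matrix.one_mul, Matrix.mul_one]
  have hYA : InA G (g * Y * g⁻¹) := by rw [hYZ]; exact hZ
  obtain ⟨ι, s, θ, φ, hexp⟩ := hamel Y
  have hYcl : Y ∈ R.topologicalClosure := by
    rw [hexp]
    apply AddSubgroup.sum_mem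
    intro t _
    exact hsmul _ _ (h.functional _ Y hYA)
  have hopen : IsOpen {W : Matrix (Fin n) (Fin n) ℝ |
      ∀ i j, |(g * W * g⁻¹) i j - Z i j| < ε} := by
    simp only [Set.ofPred_forall]
    apply isOpen_iInter_of_finite; intro i
    apply isOpen_iInter_of_finite; intro j
    apply isOpen_lt _ continuous_const
    apply Continuous.abs
    apply Continuous.sub _ continuous_const
    exact ((continuous_const.matrix_mul continuous_id).matrix_mul continuous_const).matrix_elem i j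
  have hmem : Y ∈ {W : Matrix (Fin n) (Fin n) ℝ |
      ∀ i j, |(g * W * g⁻¹) i j - Z i j| < ε} := by
    intro i j; rw [hYZ]; simpa using hε
  have hYcl' : Y ∈ closure (R : Set (Matrix (Fin n) (Fin n) ℝ)) := hYcl
  obtain ⟨W, hW1, hW2⟩ := mem_closure_iff.mp hYcl' _ hopen hmem
  obtain ⟨X, hX, rfl⟩ := hW2
  exact ⟨X, hX, hW1⟩

end

end Pool.Agent.Q31.AN
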