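import Pool.Agent.Q31.AN.Count

set_option autoImplicit false

/-! Avoiding finitely many homomorphisms, generic real elements of the incidence algebra. -/

namespace Pool.Agent.Q31.AN

open Matrix Filter Topology

lemma avoid {Γ ι : Type*} [AddCommMonoid Γ] (s : Finset ι) (χ : ι → Γ →+ ℝ)
    (h : ∀ i ∈ s, ∃ γ, χ i γ ≠ 0) : ∃ γ, ∀ i ∈ s, χ i γ ≠ 0 := by
  classical
  induction s using Finset.induction_on with
  | empty => exact ⟨0, by simp⟩
  | insert j s hj ih =>
    obtain ⟨γ, hγ⟩ := ih (fun i hi => h i (Finset.mem_insert_of_mem hi))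
    by_cases hjγ : χ j γ = 0
    · obtain ⟨δ, hδ⟩ := h j (Finset.mem_insert_self _ _)
      have hev : ∀ᶠ m : ℕ in atTop, ∀ i ∈ s, |χ i δ| < m * |χ i γ| := by
        rw [Filter.eventually_all_finset]
        intro i hi
        have hpos : 0 < |χ i γ| := abs_pos.mpr (hγ i hi)
        obtain ⟨m₀, hm₀⟩ := exists_nat_gt (|χ i δ| / |χ i γ|)
        filter_upwards [eventually_ge_atTop m₀] with m hm
        rw [div_lt_iff₀ hpos] at hm₀
        have : (m₀ : ℝ) ≤ m := by exact_mod_cast hm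
        nlinarith
      obtain ⟨m, hm⟩ := hev.exists
      refine ⟨m • γ + δ, ?_⟩
      intro i hi
      rw [map_add, map_nsmul, nsmul_eq_mul]
      rcases Finset.mem_insert.mp hi with rfl | hi
      · rw [hjγ, mul_zero, zero_add]; exact hδ
      · intro h0
        have h1 := hm i hi
        have h2 : χ i δ = - (m * χ i γ) := by linarith
        rw [h2, abs_neg, abs_mul, Nat.abs_cast] at h1
        exact lt_irrefl _ h1
    · refine ⟨γ, ?_⟩
      intro i hi
      rcases Finset.mem_insert.mp hi with rfl | hi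
      · exact hjγ
      · exact hγ i hi

variable {n : ℕ}

/-- The graph condition. -/
def GC (G : SimpleGraph (Fin n)) : Prop :=
  (∀ α, ∃ γ, γ ≠ α ∧ Le G γ α ∧ Le G α γ) ∧
    (∀ α β, G.Adj α β → ∃ γ, γ ≠ α ∧ γ ≠ β ∧ Le G γ α ∧ Le G α γ)

/-- The bad index sets. -/
def Bad (G : SimpleGraph (Fin n)) (I : Finset (Fin n)) : Prop :=
  (∃ α, I = {α}) ∨ ∃ α β, G.Adj α β ∧ I = {α, β}

open Classical in
/-- linear form -/
noncomputable def chiI (G : SimpleGraph (Fin n)) (I : Finset (Fin n)) :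
    (Fin n → Fin n → ℝ) →+ ℝ where
  toFun y := ∑ i ∈ I, ∑ l ∈ Finset.univ.erase i,
    if Le G i l ∧ Le G l i then y i l - y l i else 0
  map_zero' := by simp
  map_add' := by
    intro y z
    rw [← Finset.sum_add_distrib]
    apply Finset.sum_congr rfl
    intro i _
    rw [← Finset.sum_add_distrib]
    apply Finset.sum_congr rfl
    intro l _
    split_ifs
    · simp only [Pi.add_apply]; ring
    · simp

lemma chiI_ne (G : SimpleGraph (Fin n)) (hG : GC G) (I : Finset (Fin n)) (hI : Bad G I) :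
    ∃ y, chiI G I y ≠ 0 := by
  classical
  obtain ⟨α, γ, hα, hγI, hγ1, hγ2⟩ : ∃ α γ, α ∈ I ∧ γ ∉ I ∧ Le G γ α ∧ Le G α γ := by
    rcases hI with ⟨α, rfl⟩ | ⟨α, β, hαβ, rfl⟩
    · obtain ⟨γ, h1, h2, h3⟩ := hG.1 α
      exact ⟨α, γ, by simp, by simpa using h1, h2, h3⟩
    · obtain ⟨γ, h1, h1', h2, h3⟩ := hG.2 α β hαβ
      exact ⟨α, γ, by simp, by simp [h1, h1'], h2, h3⟩
  refine ⟨fun i l => if i = α ∧ l = γ then 1 else 0, ?_⟩
  have hne : α ≠ γ := by rintro rfl; exact hγI hα
  change (∑ i ∈ I, ∑ l ∈ Finset.univ.erase i,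
    if Le G i l ∧ Le G l i then (if i = α ∧ l = γ then (1:ℝ) else 0) -
      (if l = α ∧ i = γ then 1 else 0) else 0) ≠ 0
  rw [Finset.sum_eq_single α]
  · rw [Finset.sum_eq_single γ]
    · simp [hγ1, hγ2, hne]
    · intro l _ hl
      simp [hl, hne]
    · intro h; exact absurd (Finset.mem_erase.mpr ⟨hne.symm, Finset.mem_univ _⟩) h
  · intro i hi hiα
    apply Finset.sum_eq_zero
    intro l _
    have hiγ : i ≠ γ := by rintro rfl; exact hγI hi
    simp [hiα, hiγ]
  · intro h; exact absurd hα h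

/-- generic real element of the incidence algebra -/
lemma generic_real (G : SimpleGraph (Fin n)) (hG : GC G) (lam : Fin n → ℝ)
    (hlam : Function.Injective lam) :
    ∃ Z : Matrix (Fin n) (Fin n) ℝ, InA G Z ∧ ∀ I, Bad G I → ∑ i ∈ I, Lam lam Z i ≠ 0 := by
  classical
  obtain ⟨y, hy⟩ := avoid (Finset.univ.filter (Bad G)) (chiI G)
    (fun I hI => chiI_ne G hG I (Finset.mem_filter.mp hI).2)
  let Z : Matrix (Fin n) (Fin n) ℝ := fun i l =>
    if Le G i l ∧ Le G l i then
      (if i < l then (lam i - lam l) * (y i l - y l i) else if l < i then 1 else 0) else 0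
  refine ⟨Z, ?_, ?_⟩
  · intro i l h
    by_contra hc
    apply h
    simp only [Z]
    rw [if_neg (fun h' => hc h'.1)]
  · intro I hI
    have h1 := hy I (Finset.mem_filter.mpr ⟨Finset.mem_univ _, hI⟩)
    have h2 : ∑ i ∈ I, Lam lam Z i = chiI G I y := by
      change _ = ∑ i ∈ I, ∑ l ∈ Finset.univ.erase i,
        if Le G i l ∧ Le G l i then y i l - y l i else 0
      apply Finset.sum_congr rfl
      intro i _
      rw [Lam]
      apply Finset.sum_congr rfl
      intro l hl
      have hli : l ≠ i := Finset.ne_of_mem_erase hl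
      have hne : lam i - lam l ≠ 0 := by
        rw [sub_ne_zero]; intro h; exact hli (hlam h).symm
      by_cases hc : Le G i l ∧ Le G l i
      · have hc' : Le G l i ∧ Le G i l := ⟨hc.2, hc.1⟩
        simp only [Z, if_pos hc, if_pos hc']
        rcases lt_or_gt_of_ne hli with hlt | hgt
        · rw [if_neg (not_lt.mpr hlt.le), if_pos hlt, if_pos hlt]
          rw [div_eq_iff hne]; ring
        · rw [if_pos hgt, if_neg (not_lt.mpr hgt.le), if_pos hgt]
          rw [div_eq_iff hne]; ring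
      · simp only [Z, if_neg hc]
        rw [zero_mul, zero_div]
    rw [h2]; exact h1

/-- continuity of the second order coefficients -/
lemma lam_open (G : SimpleGraph (Fin n)) (lam : Fin n → ℝ) (Z : Matrix (Fin n) (Fin n) ℝ)
    (hZ : ∀ I, Bad G I → ∑ i ∈ I, Lam lam Z i ≠ 0) :
    ∃ ε > 0, ∀ Z' : Matrix (Fin n) (Fin n) ℝ, (∀ i j, |Z' i j - Z i j| < ε) →
      ∀ I, Bad G I → ∑ i ∈ I, Lam lam Z' i ≠ 0 := by
  classical
  have hcont : ∀ I : Finset (Fin n), Continuous
      (fun W : Fin n → Fin n → ℝ => ∑ i ∈ I, Lam lam (W : Matrix (Fin n) (Fin n) ℝ) i) := by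
    intro I
    simp only [Lam]
    fun_prop
  have hev : ∀ᶠ W : Fin n → Fin n → ℝ in 𝓝 (fun i j => Z i j),
      ∀ I ∈ (Finset.univ.filter (Bad G)), ∑ i ∈ I, Lam lam (W : Matrix (Fin n) (Fin n) ℝ) i ≠ 0 := by
    rw [Filter.eventually_all_finset]
    intro I hI
    exact (hcont I).continuousAt.eventually_ne (hZ I (Finset.mem_filter.mp hI).2)
  obtain ⟨ε, hε, h⟩ := Metric.eventually_nhds_iff.mp hev
  refine ⟨ε, hε, ?_⟩
  intro Z' hZ' I hI
  have hd : dist (fun i j => Z' i j) (fun i j => Z i j) < ε := by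
    rw [dist_pi_lt_iff hε]; intro i
    rw [dist_pi_lt_iff hε]; intro j
    rw [Real.dist_eq]; exact hZ' i j
  exact h hd I (Finset.mem_filter.mpr ⟨Finset.mem_univ _, hI⟩)

lemma Lam_smul (lam : Fin n → ℝ) (c : ℝ) (Z : Matrix (Fin n) (Fin n) ℝ) (i : Fin n) :
    Lam lam (c • Z) i = c ^ 2 * Lam lam Z i := by
  simp only [Lam, Matrix.smul_apply, smul_eq_mul, Finset.mul_sum]
  apply Finset.sum_congr rfl
  intro l _
  ring

end Pool.Agent.Q31.AN
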