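import Mathlib

set_option autoImplicit false

/-! Graph algebra: the preorder on vertices, the incidence algebra and the space of edge forms. -/

namespace Pool.Agent.Q31.AN

open Matrix

variable {n : ℕ}

/-- `Le G i j`: every neighbour of `i` other than `j` is a neighbour of `j`. -/
def Le (G : SimpleGraph (Fin n)) (i j : Fin n) : Prop :=
  ∀ k, G.Adj i k → k ≠ j → G.Adj j k

lemma Le.refl (G : SimpleGraph (Fin n)) (i : Fin n) : Le G i i := fun _ h _ => h

lemma Le.trans {G : SimpleGraph (Fin n)} {i j k : Fin n} (h₁ : Le G i j) (h₂ : Le G j k) :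
    Le G i k := by
  intro l hil hlk
  by_cases hij : i = j
  · subst hij; exact h₂ l hil hlk
  by_cases hlj : l = j
  · subst hlj
    -- `l ∈ N(i)`, so `i ∈ N(l)`
    by_cases hik : i = k
    · subst hik; exact hil
    have h3 : G.Adj k i := h₂ i hil.symm hik
    have h4 : G.Adj l k := h₁ k h3.symm (fun h => hlk h.symm)
    exact h4.symm
  · exact h₂ l (h₁ l hil hlj) hlk

/-- The incidence algebra, as a predicate. -/
def InA (G : SimpleGraph (Fin n)) (Z : Matrix (Fin n) (Fin n) ℝ) : Prop :=
  ∀ i j, Z i j ≠ 0 → Le G i j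

/-- The edge forms. -/
def InP (G : SimpleGraph (Fin n)) (Ω : Matrix (Fin n) (Fin n) ℝ) : Prop :=
  (∀ i j, Ω i j = - Ω j i) ∧ ∀ i j, ¬ G.Adj i j → Ω i j = 0

lemma InA.diagonal (G : SimpleGraph (Fin n)) (d : Fin n → ℝ) : InA G (Matrix.diagonal d) := by
  intro i j h
  by_cases hij : i = j
  · subst hij; exact Le.refl G i
  · exact absurd (Matrix.diagonal_apply_ne d hij) h

lemma InA.add {G : SimpleGraph (Fin n)} {X Y : Matrix (Fin n) (Fin n) ℝ} (hX : InA G X)
    (hY : InA G Y) : InA G (X + Y) := by
  intro i j h
  by_contra hc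
  apply h
  have h1 : X i j = 0 := by by_contra h'; exact hc (hX i j h')
  have h2 : Y i j = 0 := by by_contra h'; exact hc (hY i j h')
  simp [h1, h2]

lemma InA.smul {G : SimpleGraph (Fin n)} {X : Matrix (Fin n) (Fin n) ℝ} (c : ℝ) (hX : InA G X) :
    InA G (c • X) := by
  intro i j h
  apply hX
  intro h0
  apply h
  simp [h0]

lemma InA.neg {G : SimpleGraph (Fin n)} {X : Matrix (Fin n) (Fin n) ℝ} (hX : InA G X) :
    InA G (-X) := by
  intro i j h
  apply hX
  intro h0
  apply h
  simp [h0]

lemma InA.sub {G : SimpleGraph (Fin n)} {X Y : Matrix (Fin n) (Fin n) ℝ} (hX : InA G X)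
    (hY : InA G Y) : InA G (X - Y) := by
  rw [sub_eq_add_neg]; exact hX.add hY.neg

lemma InA.mul {G : SimpleGraph (Fin n)} {X Y : Matrix (Fin n) (Fin n) ℝ} (hX : InA G X)
    (hY : InA G Y) : InA G (X * Y) := by
  intro i j h
  rw [Matrix.mul_apply] at h
  obtain ⟨k, -, hk⟩ := Finset.exists_ne_zero_of_sum_ne_zero h
  exact (hX i k (left_ne_zero_of_mul hk)).trans (hY k j (right_ne_zero_of_mul hk))

/-- Characterisation of the incidence algebra as the stabiliser of the space of edge forms. -/
lemma inA_iff (G : SimpleGraph (Fin n)) (Z : Matrix (Fin n) (Fin n) ℝ) :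
    InA G Z ↔ ∀ Ω, InP G Ω → InP G (Zᵀ * Ω + Ω * Z) := by
  constructor
  · intro hZ Ω hΩ
    refine ⟨?_, ?_⟩
    · intro i j
      simp only [Matrix.add_apply, Matrix.mul_apply, Matrix.transpose_apply]
      rw [← Finset.sum_add_distrib, ← Finset.sum_add_distrib, ← Finset.sum_neg_distrib]
      apply Finset.sum_congr rfl
      intro k _
      rw [hΩ.1 k j, hΩ.1 i k]; ring
    · intro i j hij
      simp only [Matrix.add_apply, Matrix.mul_apply, Matrix.transpose_apply]
      by_cases h : i = j
      · subst h
        rw [← Finset.sum_add_distrib]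
        apply Finset.sum_eq_zero
        intro k _
        rw [hΩ.1 i k]; ring
      · have h1 : ∀ k, Z k i * Ω k j = 0 := by
          intro k
          by_contra hk
          have hk1 := hZ k i (left_ne_zero_of_mul hk)
          have hk2 : G.Adj k j := by
            by_contra h'; exact right_ne_zero_of_mul hk (hΩ.2 k j h')
          exact hij (hk1 j hk2 (fun h' => h h'.symm))
        have h2 : ∀ k, Ω i k * Z k j = 0 := by
          intro k
          by_contra hk
          have hk1 := hZ k j (right_ne_zero_of_mul hk)
          have hk2 : G.Adj i k := by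
            by_contra h'; exact left_ne_zero_of_mul hk (hΩ.2 i k h')
          exact hij (hk1 i hk2.symm h).symm
        rw [Finset.sum_eq_zero (fun k _ => h1 k), Finset.sum_eq_zero (fun k _ => h2 k), add_zero]
  · intro hZ i j hne
    by_contra hle
    simp only [Le, not_forall] at hle
    obtain ⟨k, hik, hkj, hjk⟩ := hle
    apply hne
    have hijne : i ≠ j := by rintro rfl; exact hjk hik
    have hikne : i ≠ k := hik.ne
    have hP : InP G (Matrix.single i k (1 : ℝ) - Matrix.single k i (1 : ℝ)) := by
      refine ⟨?_, ?_⟩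
      · intro a b
        simp only [Matrix.sub_apply, Matrix.single_apply]
        simp only [and_comm (a := i = b), and_comm (a := k = b)]
        ring
      · intro a b hab
        simp only [Matrix.sub_apply, Matrix.single_apply]
        have h1 : ¬ (i = a ∧ k = b) := by rintro ⟨rfl, rfl⟩; exact hab hik
        have h2 : ¬ (k = a ∧ i = b) := by rintro ⟨rfl, rfl⟩; exact hab hik.symm
        simp [h1, h2]
    have h := (hZ _ hP).2 j k hjk
    simp only [Matrix.add_apply, Matrix.mul_apply, Matrix.transpose_apply, Matrix.sub_apply,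
      Matrix.single_apply, and_true] at h
    have e1 : ∀ l, Z l j * ((if i = l then (1 : ℝ) else 0) - (if k = l ∧ i = k then 1 else 0))
        = if i = l then Z i j else 0 := by
      intro l
      have : ¬ (k = l ∧ i = k) := fun h => hikne h.2
      by_cases h : i = l
      · subst h; simp [this]
      · simp [h, this]
    have e2 : ∀ l, ((if i = j ∧ k = l then (1 : ℝ) else 0) - (if k = j ∧ i = l then 1 else 0)) * Z l k
        = 0 := by
      intro l
      have h1 : ¬ (i = j ∧ k = l) := fun h => hijne h.1
      have h2 : ¬ (k = j ∧ i = l) := fun h => hkj h.1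
      simp [h1, h2]
    rw [Finset.sum_congr rfl (fun l _ => e1 l), Finset.sum_congr rfl (fun l _ => e2 l)] at h
    simpa using h

/-- Congruence by an element of the incidence algebra preserves edge forms. -/
lemma InP.congr {G : SimpleGraph (Fin n)} {Q Ω : Matrix (Fin n) (Fin n) ℝ} (hQ : InA G Q)
    (hΩ : InP G Ω) : InP G (Qᵀ * Ω * Q) := by
  have key : ∀ i j, (Qᵀ * Ω * Q) i j = ∑ l, ∑ k, Q k i * Ω k l * Q l j := by
    intro i j
    simp only [Matrix.mul_apply, Matrix.transpose_apply, Finset.sum_mul]
  refine ⟨?_, ?_⟩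
  · intro i j
    rw [key i j, key j i, Finset.sum_comm, ← Finset.sum_neg_distrib]
    apply Finset.sum_congr rfl
    intro k _
    rw [← Finset.sum_neg_distrib]
    apply Finset.sum_congr rfl
    intro l _
    rw [hΩ.1 k l]; ring
  · intro i j hij
    by_cases hne : i = j
    · subst hne
      have h1 : (Qᵀ * Ω * Q) i i = - (Qᵀ * Ω * Q) i i := by
        rw [key i i]
        conv_lhs => rw [Finset.sum_comm]
        rw [← Finset.sum_neg_distrib]
        apply Finset.sum_congr rfl
        intro k _
        rw [← Finset.sum_neg_distrib]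
        apply Finset.sum_congr rfl
        intro l _
        rw [hΩ.1 k l]; ring
      linarith
    rw [key]
    apply Finset.sum_eq_zero
    intro l _
    apply Finset.sum_eq_zero
    intro k _
    by_contra hc
    have hki : Le G k i := hQ k i (left_ne_zero_of_mul (left_ne_zero_of_mul hc))
    have hlj : Le G l j := hQ l j (right_ne_zero_of_mul hc)
    have hkl : G.Adj k l := by
      by_contra h'; exact right_ne_zero_of_mul (left_ne_zero_of_mul hc) (hΩ.2 k l h')
    apply hij
    by_cases hli : l = i
    · subst hli
      -- l = i, i ≤ j, k adj i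
      by_cases hkj : k = j
      · subst hkj; exact hkl.symm
      · -- k adj j
        have h1 : G.Adj j k := hlj k hkl.symm hkj
        exact (hki j h1.symm (fun h => hne h.symm))
    · have h1 : G.Adj i l := hki l hkl hli
      exact (hlj i h1.symm hne).symm

end Pool.Agent.Q31.AN
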