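import Pool.Agent.Q31.AN.Graph

set_option autoImplicit false

/-! The 2-step nilpotent Lie algebra of a graph: coefficients of brackets, derivations,
differential subspaces. -/

namespace Pool.Agent.Q31.AN

variable {n : ℕ}

/-- A basis exhibiting a Lie algebra as the 2-step nilpotent Lie algebra of a graph. -/
structure GrBasis {K : Type} [Field K] (G : SimpleGraph (Fin n)) {N : Type} [LieRing N]
    [LieAlgebra K N] (b : Module.Basis (Fin n ⊕ G.edgeSet) K N) : Prop where
  adj : ∀ (i j : Fin n) (h : G.Adj i j), i < j →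
    ⁅b (Sum.inl i), b (Sum.inl j)⁆ = b (Sum.inr ⟨s(i, j), G.mem_edgeSet.mpr h⟩)
  nadj : ∀ i j : Fin n, ¬ G.Adj i j → ⁅b (Sum.inl i), b (Sum.inl j)⁆ = 0
  cen : ∀ (e : G.edgeSet) (k : Fin n ⊕ G.edgeSet), ⁅b (Sum.inr e), b k⁆ = 0

section

variable {K : Type} [Field K] {G : SimpleGraph (Fin n)} {N : Type} [LieRing N]
  [LieAlgebra K N] {b : Module.Basis (Fin n ⊕ G.edgeSet) K N}

/-- sign -/
def sg (K : Type) [Field K] (i j : Fin n) : K := if i < j then 1 else -1

lemma sg_ne (i j : Fin n) : sg K i j ≠ 0 := by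
  unfold sg; split_ifs <;> simp

lemma GrBasis.cen' (hb : GrBasis G b) (e : G.edgeSet) (x : N) : ⁅b (Sum.inr e), x⁆ = 0 := by
  classical
  have : Fintype G.edgeSet := Fintype.ofFinite _
  rw [← b.sum_repr x, lie_sum]
  apply Finset.sum_eq_zero
  intro k _
  rw [lie_smul, hb.cen, smul_zero]

lemma GrBasis.cen'' (hb : GrBasis G b) (e : G.edgeSet) (x : N) : ⁅x, b (Sum.inr e)⁆ = 0 := by
  rw [← lie_skew, hb.cen', neg_zero]

lemma GrBasis.bracket (hb : GrBasis G b) (x y : N) :
    ⁅x, y⁆ = ∑ i, ∑ j, (b.repr x (Sum.inl i) * b.repr y (Sum.inl j)) •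
      ⁅b (Sum.inl i), b (Sum.inl j)⁆ := by
  classical
  have : Fintype G.edgeSet := Fintype.ofFinite _
  conv_lhs => rw [← b.sum_repr x, ← b.sum_repr y]
  rw [Fintype.sum_sum_type, Fintype.sum_sum_type]
  rw [add_lie, lie_add]
  have h1 : ⁅∑ e : G.edgeSet, (b.repr x (Sum.inr e)) • b (Sum.inr e),
      (∑ i, (b.repr y (Sum.inl i)) • b (Sum.inl i)) +
        ∑ e : G.edgeSet, (b.repr y (Sum.inr e)) • b (Sum.inr e)⁆ = 0 := by
    rw [sum_lie]
    apply Finset.sum_eq_zero
    intro e _
    rw [smul_lie, hb.cen', smul_zero]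
  have h2 : ⁅∑ i, (b.repr x (Sum.inl i)) • b (Sum.inl i),
        ∑ e : G.edgeSet, (b.repr y (Sum.inr e)) • b (Sum.inr e)⁆ = 0 := by
    rw [lie_sum]
    apply Finset.sum_eq_zero
    intro e _
    rw [lie_smul, hb.cen'', smul_zero]
  rw [h1, h2, add_zero, add_zero, sum_lie]
  apply Finset.sum_congr rfl
  intro i _
  rw [lie_sum]
  apply Finset.sum_congr rfl
  intro j _
  rw [smul_lie, lie_smul, smul_smul]

lemma GrBasis.repr_bb (hb : GrBasis G b) (k l i j : Fin n) (h : G.Adj i j) (hij : i < j) :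
    b.repr ⁅b (Sum.inl k), b (Sum.inl l)⁆ (Sum.inr ⟨s(i, j), G.mem_edgeSet.mpr h⟩) =
      (if k = i ∧ l = j then 1 else 0) - (if k = j ∧ l = i then 1 else 0) := by
  classical
  by_cases hkl : G.Adj k l
  · rcases lt_or_gt_of_ne hkl.ne with hlt | hgt
    · rw [hb.adj k l hkl hlt, b.repr_self]
      have h2 : ¬ (k = j ∧ l = i) := by
        rintro ⟨rfl, rfl⟩; exact absurd (lt_trans hij hlt) (lt_irrefl _)
      by_cases h1 : k = i ∧ l = j
      · obtain ⟨rfl, rfl⟩ := h1
        simp [h2]
      · rw [Finsupp.single_apply, if_neg, if_neg h1, if_neg h2]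
        · simp
        · intro h3
          rw [Sum.inr.injEq, Subtype.mk.injEq, Sym2.eq_iff] at h3
          rcases h3 with h3 | h3
          · exact h1 h3
          · exact h2 h3
    · rw [← lie_skew, hb.adj l k hkl.symm hgt, map_neg, b.repr_self]
      have h1 : ¬ (k = i ∧ l = j) := by
        rintro ⟨rfl, rfl⟩; exact absurd (lt_trans hij hgt) (lt_irrefl _)
      by_cases h2 : k = j ∧ l = i
      · obtain ⟨rfl, rfl⟩ := h2
        simp [h1]
      · rw [Finsupp.neg_apply, Finsupp.single_apply, if_neg, if_neg h1, if_neg h2]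
        · simp
        · intro h3
          rw [Sum.inr.injEq, Subtype.mk.injEq, Sym2.eq_iff] at h3
          rcases h3 with h3 | h3
          · exact h2 ⟨h3.2, h3.1⟩
          · exact h1 ⟨h3.2, h3.1⟩
  · rw [hb.nadj k l hkl]
    have h1 : ¬ (k = i ∧ l = j) := by rintro ⟨rfl, rfl⟩; exact hkl h
    have h2 : ¬ (k = j ∧ l = i) := by rintro ⟨rfl, rfl⟩; exact hkl h.symm
    simp [h1, h2]

lemma GrBasis.repr_bracket_lt (hb : GrBasis G b) (x y : N) (i j : Fin n) (h : G.Adj i j)
    (hij : i < j) :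
    b.repr ⁅x, y⁆ (Sum.inr ⟨s(i, j), G.mem_edgeSet.mpr h⟩) =
      b.repr x (Sum.inl i) * b.repr y (Sum.inl j) - b.repr x (Sum.inl j) * b.repr y (Sum.inl i) := by
  classical
  rw [hb.bracket x y]
  simp only [map_sum, map_smul, Finsupp.coe_finsetSum, Finset.sum_apply, Finsupp.smul_apply,
    smul_eq_mul]
  simp only [hb.repr_bb _ _ i j h hij, mul_sub, Finset.sum_sub_distrib]
  congr 1
  · rw [Finset.sum_eq_single i, Finset.sum_eq_single j]
    · simp
    · intro k _ hk; simp [hk]
    · simp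
    · intro k _ hk; simp [hk]
    · simp
  · rw [Finset.sum_eq_single j, Finset.sum_eq_single i]
    · simp
    · intro k _ hk; simp [hk]
    · simp
    · intro k _ hk; simp [hk]
    · simp

lemma GrBasis.repr_bracket_inr (hb : GrBasis G b) (x y : N) (i j : Fin n) (h : G.Adj i j) :
    b.repr ⁅x, y⁆ (Sum.inr ⟨s(i, j), G.mem_edgeSet.mpr h⟩) =
      sg K i j * (b.repr x (Sum.inl i) * b.repr y (Sum.inl j) -
        b.repr x (Sum.inl j) * b.repr y (Sum.inl i)) := by
  rcases lt_or_gt_of_ne h.ne with hlt | hgt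
  · rw [hb.repr_bracket_lt x y i j h hlt, sg, if_pos hlt, one_mul]
  · have h1 : (⟨s(i, j), G.mem_edgeSet.mpr h⟩ : G.edgeSet) =
        ⟨s(j, i), G.mem_edgeSet.mpr h.symm⟩ := Subtype.ext Sym2.eq_swap
    rw [h1, hb.repr_bracket_lt x y j i h.symm hgt, sg, if_neg (not_lt.mpr hgt.le)]
    ring

lemma GrBasis.repr_bracket_inl (hb : GrBasis G b) (x y : N) (i : Fin n) :
    b.repr ⁅x, y⁆ (Sum.inl i) = 0 := by
  classical
  rw [hb.bracket x y]
  simp only [map_sum, map_smul, Finsupp.coe_finsetSum, Finset.sum_apply, Finsupp.smul_apply,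
    smul_eq_mul]
  apply Finset.sum_eq_zero
  intro k _
  apply Finset.sum_eq_zero
  intro l _
  have : b.repr ⁅b (Sum.inl k), b (Sum.inl l)⁆ (Sum.inl i) = 0 := by
    by_cases hkl : G.Adj k l
    · rcases lt_or_gt_of_ne hkl.ne with hlt | hgt
      · rw [hb.adj k l hkl hlt, b.repr_self, Finsupp.single_apply, if_neg (by simp)]
      · rw [← lie_skew, hb.adj l k hkl.symm hgt, map_neg, b.repr_self, Finsupp.neg_apply,
          Finsupp.single_apply, if_neg (by simp), neg_zero]
    · rw [hb.nadj k l hkl]; simp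
  rw [this, mul_zero]

/-- Extensionality through coefficients. -/
lemma GrBasis.ext' (b : Module.Basis (Fin n ⊕ G.edgeSet) K N) {x y : N}
    (h1 : ∀ i, b.repr x (Sum.inl i) = b.repr y (Sum.inl i))
    (h2 : ∀ i j (h : G.Adj i j), b.repr x (Sum.inr ⟨s(i, j), G.mem_edgeSet.mpr h⟩) =
      b.repr y (Sum.inr ⟨s(i, j), G.mem_edgeSet.mpr h⟩)) : x = y := by
  apply b.repr.injective
  ext k
  rcases k with i | ⟨e, he⟩
  · exact h1 i
  · induction e using Sym2.ind with
    | _ i j => exact h2 i j (G.mem_edgeSet.mp he)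

/-- Derivations. -/
def IsDer (D : N →ₗ[K] N) : Prop := ∀ x y, D ⁅x, y⁆ = ⁅D x, y⁆ + ⁅x, D y⁆

lemma GrBasis.der_le (hb : GrBasis G b) {D : N →ₗ[K] N} (hD : IsDer D) (i j : Fin n)
    (h : b.repr (D (b (Sum.inl j))) (Sum.inl i) ≠ 0) : Le G i j := by
  classical
  by_contra hle
  simp only [Le, not_forall] at hle
  obtain ⟨k, hik, hkj, hjk⟩ := hle
  apply h
  have hijne : i ≠ j := by rintro rfl; exact hjk hik
  have hikne : i ≠ k := hik.ne
  have h0 := hD (b (Sum.inl j)) (b (Sum.inl k))
  rw [hb.nadj j k hjk, map_zero] at h0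
  have h1 := congrArg (fun z => b.repr z (Sum.inr ⟨s(i, k), G.mem_edgeSet.mpr hik⟩)) h0
  simp only [map_zero, map_add, Finsupp.coe_zero, Pi.zero_apply, Finsupp.add_apply,
    hb.repr_bracket_inr _ _ i k hik, b.repr_self] at h1
  have e1 : (Finsupp.single (Sum.inl k : Fin n ⊕ G.edgeSet) (1 : K)) (Sum.inl k) = 1 := by simp
  have e2 : (Finsupp.single (Sum.inl k : Fin n ⊕ G.edgeSet) (1 : K)) (Sum.inl i) = 0 := by
    rw [Finsupp.single_apply, if_neg]; intro h'; exact hikne (Sum.inl.inj h').symm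
  have e3 : (Finsupp.single (Sum.inl j : Fin n ⊕ G.edgeSet) (1 : K)) (Sum.inl i) = 0 := by
    rw [Finsupp.single_apply, if_neg]; intro h'; exact hijne (Sum.inl.inj h').symm
  have e4 : (Finsupp.single (Sum.inl j : Fin n ⊕ G.edgeSet) (1 : K)) (Sum.inl k) = 0 := by
    rw [Finsupp.single_apply, if_neg]; intro h'; exact hkj (Sum.inl.inj h').symm
  rw [e1, e2, e3, e4] at h1
  simp only [mul_one, mul_zero, sub_zero, zero_mul, add_zero] at h1
  rcases mul_eq_zero.mp h1.symm with h2 | h2
  · exact absurd h2 (sg_ne i k)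
  · exact h2

/-- Diagonal map. -/
noncomputable def dg (b : Module.Basis (Fin n ⊕ G.edgeSet) K N) (c : Fin n ⊕ G.edgeSet → K) :
    N →ₗ[K] N := b.constr K (fun k => c k • b k)

lemma repr_dg (b : Module.Basis (Fin n ⊕ G.edgeSet) K N) (c : Fin n ⊕ G.edgeSet → K) (x : N)
    (k : Fin n ⊕ G.edgeSet) : b.repr (dg b c x) k = c k * b.repr x k := by
  classical
  have : Fintype G.edgeSet := Fintype.ofFinite _
  conv_lhs => rw [← b.sum_repr x]
  simp only [map_sum, map_smul, dg, Module.Basis.constr_basis, Finsupp.coe_finsetSum,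
    Finset.sum_apply, Finsupp.smul_apply, smul_eq_mul, b.repr_self]
  rw [Finset.sum_eq_single k]
  · simp; ring
  · intro l _ hl
    rw [Finsupp.single_apply, if_neg hl]; simp
  · simp

/-- weights of a diagonal derivation -/
def wt (G : SimpleGraph (Fin n)) (d : Fin n → K) : Fin n ⊕ G.edgeSet → K :=
  Sum.elim d (fun e => Sym2.lift ⟨fun i j => d i + d j, fun _ _ => add_comm _ _⟩ e.1)

lemma GrBasis.isDer_dg (hb : GrBasis G b) (d : Fin n → K) : IsDer (dg b (wt G d)) := by
  intro x y
  apply GrBasis.ext' b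
  · intro i
    rw [repr_dg, hb.repr_bracket_inl, map_add, Finsupp.add_apply, hb.repr_bracket_inl,
      hb.repr_bracket_inl]
    simp
  · intro i j h
    rw [repr_dg, hb.repr_bracket_inr _ _ i j h, map_add, Finsupp.add_apply,
      hb.repr_bracket_inr _ _ i j h, hb.repr_bracket_inr _ _ i j h]
    simp only [repr_dg, wt, Sum.elim_inl, Sum.elim_inr, Sym2.lift_mk]
    ring

/-- Differential subspaces: stable under all derivations. -/
def DSt (Z : Submodule K N) : Prop := ∀ D : N →ₗ[K] N, IsDer D → ∀ x ∈ Z, D x ∈ Z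

lemma GrBasis.comp_inr (hb : GrBasis G b) {Z : Submodule K N} (hZ : DSt Z) {x : N} (hx : x ∈ Z)
    (e : G.edgeSet) : (b.repr x (Sum.inr e)) • b (Sum.inr e) ∈ Z := by
  classical
  obtain ⟨e, he⟩ := e
  induction e using Sym2.ind with
  | _ i j =>
    have hadj : G.Adj i j := G.mem_edgeSet.mp he
    have h1 := hZ _ (hb.isDer_dg (Pi.single i 1)) _ (hZ _ (hb.isDer_dg (Pi.single j 1)) x hx)
    have h2 : (b.repr x (Sum.inr ⟨s(i, j), he⟩)) • b (Sum.inr ⟨s(i, j), he⟩) =
        dg b (wt G (Pi.single i 1)) (dg b (wt G (Pi.single j 1)) x) := by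
      apply GrBasis.ext' b
      · intro k
        rw [repr_dg, repr_dg]
        simp only [wt, Sum.elim_inl, map_smul, Finsupp.smul_apply, b.repr_self, smul_eq_mul]
        have : (Pi.single i 1 : Fin n → K) k * (Pi.single j 1 : Fin n → K) k = 0 := by
          by_cases hk : k = i
          · subst hk
            have : (Pi.single j 1 : Fin n → K) k = 0 := by
              rw [Pi.single_apply, if_neg hadj.ne]
            rw [this, mul_zero]
          · rw [Pi.single_apply, if_neg hk, zero_mul]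
        rw [← mul_assoc, this]
        simp
      · intro k l hkl
        rw [repr_dg, repr_dg]
        simp only [wt, Sum.elim_inr, Sym2.lift_mk, map_smul, Finsupp.smul_apply, b.repr_self,
          smul_eq_mul]
        rw [Finsupp.single_apply]
        by_cases h3 : (⟨s(i, j), he⟩ : G.edgeSet) = ⟨s(k, l), G.mem_edgeSet.mpr hkl⟩
        · rw [if_pos (by rw [h3])]
          rw [← h3]
          rw [Subtype.mk.injEq, Sym2.eq_iff] at h3
          have hne := hadj.ne
          rcases h3 with ⟨rfl, rfl⟩ | ⟨rfl, rfl⟩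
          · simp [hne, hne.symm]
          · simp [hne, hne.symm]
        · rw [if_neg (fun h4 => h3 (Sum.inr.inj h4))]
          have hne := hkl.ne
          have h5 : ¬ ((i = k ∧ j = l) ∨ (i = l ∧ j = k)) := by
            intro h6; apply h3; rw [Subtype.mk.injEq, Sym2.eq_iff]; exact h6
          have h7 : ((Pi.single i 1 : Fin n → K) k + (Pi.single i 1 : Fin n → K) l) *
            ((Pi.single j 1 : Fin n → K) k + (Pi.single j 1 : Fin n → K) l) = 0 := by
            simp only [Pi.single_apply]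
            by_cases a1 : k = i
            · subst a1
              have : l ≠ j := fun h => h5 (Or.inl ⟨rfl, h.symm⟩)
              simp [hadj.ne, this]
            · by_cases a2 : l = i
              · subst a2
                have : k ≠ j := fun h => h5 (Or.inr ⟨rfl, h.symm⟩)
                simp [hadj.ne, this]
              · simp [a1, a2]
          rw [← mul_assoc, h7]; simp
    rw [h2]; exact h1

lemma GrBasis.comp_mem (hb : GrBasis G b) {Z : Submodule K N} (hZ : DSt Z) {x : N} (hx : x ∈ Z)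
    (k : Fin n ⊕ G.edgeSet) : (b.repr x k) • b k ∈ Z := by
  classical
  have : Fintype G.edgeSet := Fintype.ofFinite _
  rcases k with i | e
  · have h1 := hZ _ (hb.isDer_dg (Pi.single i 1)) x hx
    have h2 : (b.repr x (Sum.inl i)) • b (Sum.inl i) = dg b (wt G (Pi.single i 1)) x -
        ∑ e : G.edgeSet, (wt G (Pi.single i (1 : K)) (Sum.inr e)) •
          ((b.repr x (Sum.inr e)) • b (Sum.inr e)) := by
      apply b.repr.injective
      ext k
      rw [map_sub, Finsupp.sub_apply, repr_dg]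
      simp only [map_sum, map_smul, Finsupp.coe_finsetSum, Finset.sum_apply, Finsupp.smul_apply,
        smul_eq_mul, b.repr_self]
      rcases k with k | e
      · simp only [wt, Sum.elim_inl]
        rw [Finset.sum_eq_zero]
        · simp only [Finsupp.single_apply, Sum.inl.injEq, Pi.single_apply, sub_zero]
          by_cases hik : i = k
          · subst hik; simp
          · simp [hik, Ne.symm hik]
        · intro e _
          rw [Finsupp.single_apply, if_neg (by simp)]; simp
      · rw [Finset.sum_eq_single e]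
        · simp
        · intro e' _ he'
          rw [Finsupp.single_apply, if_neg (fun h => he' (Sum.inr.inj h))]; simp
        · simp
    rw [h2]
    apply Z.sub_mem h1
    apply Z.sum_mem
    intro e _
    exact Z.smul_mem _ (hb.comp_inr hZ hx e)
  · exact hb.comp_inr hZ hx e

lemma GrBasis.basis_mem (hb : GrBasis G b) {Z : Submodule K N} (hZ : DSt Z) {x : N} (hx : x ∈ Z)
    (k : Fin n ⊕ G.edgeSet) (hk : b.repr x k ≠ 0) : b k ∈ Z := by
  have h := Z.smul_mem (b.repr x k)⁻¹ (hb.comp_mem hZ hx k)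
  rwa [smul_smul, inv_mul_cancel₀ hk, one_smul] at h

lemma GrBasis.finite_dst (hb : GrBasis G b) : Finite {Z : Submodule K N // DSt Z} := by
  classical
  have : Fintype G.edgeSet := Fintype.ofFinite _
  apply Finite.of_injective (β := Set (Fin n ⊕ G.edgeSet)) (fun Z => {k | b k ∈ Z.1})
  have key : ∀ Z Z' : {Z : Submodule K N // DSt Z},
      {k | b k ∈ Z.1} = {k | b k ∈ Z'.1} → Z.1 ≤ Z'.1 := by
    intro Z Z' h x hx
    rw [← b.sum_repr x]
    apply Z'.1.sum_mem
    intro k _
    by_cases hk : b.repr x k = 0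
    · rw [hk, zero_smul]; exact Z'.1.zero_mem
    · apply Z'.1.smul_mem
      have h1 : k ∈ {k | b k ∈ Z.1} := hb.basis_mem Z.2 hx k hk
      rw [h] at h1
      exact h1
  intro Z Z' h
  apply Subtype.ext
  exact le_antisymm (key Z Z' h) (key Z' Z h.symm)

/-- some power of an automorphism preserves every differential subspace -/
lemma GrBasis.exists_pow (hb : GrBasis G b) (f : N ≃ₗ⁅K⁆ N) :
    ∃ m : ℕ, 0 < m ∧ ∀ Z : Submodule K N, DSt Z → ∀ x ∈ Z, (f : N → N)^[m] x ∈ Z := by
  classical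
  have := hb.finite_dst
  have hmap : ∀ Z : Submodule K N, DSt Z → DSt (Z.map (f.toLinearEquiv : N →ₗ[K] N)) := by
    intro Z hZ D hD x hx
    obtain ⟨z, hz, rfl⟩ := Submodule.mem_map.mp hx
    have hD' : IsDer ((f.symm.toLinearEquiv : N →ₗ[K] N) ∘ₗ D ∘ₗ
        (f.toLinearEquiv : N →ₗ[K] N)) := by
      intro x y
      change f.symm (D (f ⁅x, y⁆)) = ⁅f.symm (D (f x)), y⁆ + ⁅x, f.symm (D (f y))⁆
      rw [LieEquiv.map_lie, hD, map_add, LieEquiv.map_lie, LieEquiv.map_lie,
        LieEquiv.symm_apply_apply, LieEquiv.symm_apply_apply]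
    refine Submodule.mem_map.mpr ⟨_, hZ _ hD' z hz, ?_⟩
    change f (f.symm (D (f z))) = D (f z)
    rw [LieEquiv.apply_symm_apply]
  let σ : {Z : Submodule K N // DSt Z} → {Z : Submodule K N // DSt Z} :=
    fun Z => ⟨Z.1.map (f.toLinearEquiv : N →ₗ[K] N), hmap Z.1 Z.2⟩
  have hσ : Function.Injective σ := by
    intro Z Z' h
    apply Subtype.ext
    have := congrArg Subtype.val h
    exact Submodule.map_injective_of_injective (f := (f.toLinearEquiv : N →ₗ[K] N))
      f.injective this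
  let τ : Equiv.Perm {Z : Submodule K N // DSt Z} :=
    Equiv.ofBijective σ ⟨hσ, Finite.injective_iff_surjective.mp hσ⟩
  have : Finite (Equiv.Perm {Z : Submodule K N // DSt Z}) := inferInstance
  refine ⟨orderOf τ, orderOf_pos τ, ?_⟩
  have hiter : ∀ (k : ℕ) (Z : {Z : Submodule K N // DSt Z}) (x : N), x ∈ Z.1 →
      (f : N → N)^[k] x ∈ ((τ ^ k) Z).1 := by
    intro k
    induction k with
    | zero => intro Z x hx; simpa using hx
    | succ k ih =>
      intro Z x hx
      rw [Function.iterate_succ_apply', pow_succ', Equiv.Perm.mul_apply]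
      exact Submodule.mem_map_of_mem (f := (f.toLinearEquiv : N →ₗ[K] N)) (ih Z x hx)
  intro Z hZ x hx
  have := hiter (orderOf τ) ⟨Z, hZ⟩ x hx
  rw [pow_orderOf_eq_one] at this
  simpa using this

end

end Pool.Agent.Q31.AN
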