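import Pool.Agent.Q31.AN.Graph

set_option autoImplicit false

/-! Elementary perturbation theory of a diagonal real matrix with distinct entries. -/

namespace Pool.Agent.Q31.AN

open Matrix Filter Topology

variable {n : ℕ}

lemma exists_gap (lam : Fin n → ℝ) (hlam : Function.Injective lam) :
    ∃ γ > 0, ∀ i k, k ≠ i → 2 * γ ≤ |lam i - lam k| := by
  classical
  let s : Finset (Fin n × Fin n) := Finset.univ.filter (fun p => p.2 ≠ p.1)
  by_cases hs : s.Nonempty
  · obtain ⟨p, hp, hmin⟩ := s.exists_min_image (fun p => |lam p.1 - lam p.2|) hs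
    have hp' : p.2 ≠ p.1 := (Finset.mem_filter.mp hp).2
    have hpos : 0 < |lam p.1 - lam p.2| := by
      rw [abs_pos, sub_ne_zero]; intro h; exact hp' (hlam h).symm
    refine ⟨|lam p.1 - lam p.2| / 2, by positivity, ?_⟩
    intro i k hk
    have := hmin (i, k) (Finset.mem_filter.mpr ⟨Finset.mem_univ _, hk⟩)
    linarith
  · refine ⟨1, one_pos, ?_⟩
    intro i k hk
    exact absurd ⟨(i, k), Finset.mem_filter.mpr ⟨Finset.mem_univ _, hk⟩⟩ hs

lemma det_diag (lam : Fin n → ℝ) (x : ℝ) :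
    (x • (1 : Matrix (Fin n) (Fin n) ℝ) - (Matrix.diagonal lam + 0)).det = ∏ k, (x - lam k) := by
  have : x • (1 : Matrix (Fin n) (Fin n) ℝ) - (Matrix.diagonal lam + 0) =
      Matrix.diagonal (fun k => x - lam k) := by
    rw [add_zero, Matrix.smul_one_eq_diagonal, Matrix.diagonal_sub]
  rw [this, Matrix.det_diagonal]

lemma eigenpair (lam : Fin n → ℝ) (hlam : Function.Injective lam) (i : Fin n) (ε : ℝ)
    (hε : 0 < ε) :
    ∃ δ > 0, ∀ Z : Matrix (Fin n) (Fin n) ℝ, (∀ k l, |Z k l| < δ) →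
      ∃ μ : ℝ, |μ - lam i| < ε ∧ ∃ v : Fin n → ℝ, v i = 1 ∧ (∀ k, k ≠ i → |v k| ≤ ε) ∧
        (Matrix.diagonal lam + Z).mulVec v = μ • v := by
  classical
  obtain ⟨γ, hγ, hgap⟩ := exists_gap lam hlam
  set r := min (ε / 2) (γ / 2) with hr
  have hr0 : 0 < r := by rw [hr]; positivity
  have hrε : r < ε := by have := min_le_left (ε / 2) (γ / 2); linarith
  have hrγ : r < γ := by have := min_le_right (ε / 2) (γ / 2); linarith
  let F : (Fin n → Fin n → ℝ) → ℝ → ℝ := fun Z x =>
    (x • (1 : Matrix (Fin n) (Fin n) ℝ) - (Matrix.diagonal lam + Matrix.of Z)).det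
  have hF0 : F 0 (lam i - r) * F 0 (lam i + r) < 0 := by
    have e : ∀ x, F 0 x = ∏ k, (x - lam k) := fun x => det_diag lam x
    rw [e, e, ← Finset.prod_mul_distrib, ← Finset.mul_prod_erase _ _ (Finset.mem_univ i)]
    apply mul_neg_of_neg_of_pos
    · have : (lam i - r - lam i) * (lam i + r - lam i) = - (r * r) := by ring
      rw [this]; have := mul_pos hr0 hr0; linarith
    · apply Finset.prod_pos
      intro k hk
      have hk' := hgap i k (Finset.ne_of_mem_erase hk)
      have e2 : (lam i - r - lam k) * (lam i + r - lam k) = (lam i - lam k) ^ 2 - r ^ 2 := by ring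
      rw [e2, sub_pos, ← sq_abs (lam i - lam k)]
      apply pow_lt_pow_left₀ _ hr0.le (by norm_num)
      linarith
  have hcontZ : ∀ x, Continuous (fun Z => F Z x) := by
    intro x
    apply Continuous.matrix_det
    apply Continuous.sub continuous_const
    apply Continuous.add continuous_const
    exact continuous_id
  have hcontx : ∀ Z, Continuous (F Z) := by
    intro Z
    apply Continuous.matrix_det
    apply Continuous.sub _ continuous_const
    exact continuous_id.smul continuous_const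
  have hev : ∀ᶠ Z in 𝓝 (0 : Fin n → Fin n → ℝ), F Z (lam i - r) * F Z (lam i + r) < 0 := by
    have hc : Continuous (fun Z => F Z (lam i - r) * F Z (lam i + r)) :=
      (hcontZ _).mul (hcontZ _)
    exact hc.continuousAt.eventually_lt continuousAt_const hF0
  obtain ⟨δ₁, hδ₁, hball⟩ := Metric.eventually_nhds_iff.mp hev
  set δ := min δ₁ (γ * min ε (1 / 2) / (n + 1)) with hδdef
  have hn : (0 : ℝ) < n + 1 := by positivity
  have hδ : 0 < δ := by rw [hδdef]; positivity
  have hδ1 : δ ≤ δ₁ := min_le_left _ _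
  have hδ2 : (n : ℝ) * δ ≤ γ * min ε (1 / 2) := by
    have h1 : δ ≤ γ * min ε (1 / 2) / (n + 1) := min_le_right _ _
    have h2 : (n + 1) * δ ≤ γ * min ε (1 / 2) := by
      rw [le_div_iff₀ hn] at h1; linarith
    nlinarith
  refine ⟨δ, hδ, ?_⟩
  intro Z hZ
  let Zf : Fin n → Fin n → ℝ := fun k l => Z k l
  have hZδ : dist Zf 0 < δ₁ := by
    rw [dist_pi_lt_iff hδ₁]
    intro k
    rw [dist_pi_lt_iff hδ₁]
    intro l
    rw [Pi.zero_apply, Pi.zero_apply, Real.dist_eq, sub_zero]
    exact lt_of_lt_of_le (hZ k l) hδ1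
  have hprod : F Z (lam i - r) * F Z (lam i + r) < 0 := hball hZδ
  obtain ⟨μ, hμ, hdet⟩ : ∃ μ ∈ Set.Icc (lam i - r) (lam i + r), F Z μ = 0 := by
    have hab : lam i - r ≤ lam i + r := by linarith
    rcases mul_neg_iff.mp hprod with ⟨h1, h2⟩ | ⟨h1, h2⟩
    · exact intermediate_value_Icc' hab (hcontx Z).continuousOn ⟨h2.le, h1.le⟩
    · exact intermediate_value_Icc hab (hcontx Z).continuousOn ⟨h1.le, h2.le⟩
  have hμ' : |μ - lam i| ≤ r := by rw [abs_le]; constructor <;> linarith [hμ.1, hμ.2]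
  obtain ⟨v, hv0, hv⟩ := Matrix.exists_mulVec_eq_zero_iff.mpr hdet
  have hv' : (Matrix.diagonal lam + Z).mulVec v = μ • v := by
    rw [Matrix.sub_mulVec, Matrix.smul_mulVec, Matrix.one_mulVec, sub_eq_zero] at hv
    exact hv.symm
  have hrow : ∀ k, (μ - lam k) * v k = ∑ l, Z k l * v l := by
    intro k
    have h1 := congrFun hv' k
    rw [Matrix.add_mulVec, Pi.add_apply, Matrix.mulVec_diagonal, Pi.smul_apply, smul_eq_mul] at h1
    have h2 : (Z.mulVec v) k = ∑ l, Z k l * v l := rfl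
    rw [h2] at h1
    linarith
  have : Nonempty (Fin n) := ⟨i⟩
  obtain ⟨k₀, hk₀⟩ := Finite.exists_max (fun k => |v k|)
  have hvk₀ : 0 < |v k₀| := by
    rw [abs_pos]
    intro h0
    apply hv0
    funext k
    have := hk₀ k
    simp only [h0, abs_zero] at this
    exact abs_nonpos_iff.mp this
  have hbound : ∀ k, k ≠ i → γ * |v k| ≤ (n * δ) * |v k₀| := by
    intro k hk
    have h1 : γ ≤ |μ - lam k| := by
      have h2 := hgap i k hk
      have h3 : |lam i - lam k| ≤ |μ - lam k| + |μ - lam i| := by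
        have : lam i - lam k = (μ - lam k) - (μ - lam i) := by ring
        rw [this]; exact abs_sub _ _
      linarith
    calc γ * |v k| ≤ |μ - lam k| * |v k| := mul_le_mul_of_nonneg_right h1 (abs_nonneg _)
      _ = |∑ l, Z k l * v l| := by rw [← abs_mul, hrow k]
      _ ≤ ∑ l, |Z k l * v l| := Finset.abs_sum_le_sum_abs _ _
      _ ≤ ∑ _l : Fin n, δ * |v k₀| := by
          apply Finset.sum_le_sum
          intro l _
          rw [abs_mul]
          exact mul_le_mul (hZ k l).le (hk₀ l) (abs_nonneg _) hδ.le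
      _ = (n * δ) * |v k₀| := by
          rw [Finset.sum_const, Finset.card_univ, Fintype.card_fin, nsmul_eq_mul]; ring
  have hk₀i : k₀ = i := by
    by_contra hne
    have h1 := hbound k₀ hne
    have h2 : γ ≤ n * δ := le_of_mul_le_mul_right h1 hvk₀
    have h3 : γ * min ε (1 / 2) ≤ γ * (1 / 2) :=
      mul_le_mul_of_nonneg_left (min_le_right _ _) hγ.le
    linarith
  subst hk₀i
  have hvi : v k₀ ≠ 0 := abs_pos.mp hvk₀
  refine ⟨μ, lt_of_le_of_lt hμ' hrε, fun k => (v k₀)⁻¹ * v k, inv_mul_cancel₀ hvi, ?_, ?_⟩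
  · intro k hk
    rw [abs_mul, abs_inv, inv_mul_le_iff₀ hvk₀]
    have h1 := hbound k hk
    have h3 : γ * min ε (1 / 2) ≤ γ * ε := mul_le_mul_of_nonneg_left (min_le_left _ _) hγ.le
    have h4 : γ * |v k| ≤ γ * (|v k₀| * ε) := by
      calc γ * |v k| ≤ (n * δ) * |v k₀| := h1
        _ ≤ (γ * ε) * |v k₀| := mul_le_mul_of_nonneg_right (by linarith) hvk₀.le
        _ = γ * (|v k₀| * ε) := by ring
    exact le_of_mul_le_mul_left h4 hγ
  · have h1 : (fun k => (v k₀)⁻¹ * v k) = (v k₀)⁻¹ • v := rfl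
    rw [h1, Matrix.mulVec_smul, hv', smul_comm]

/-- The eigenvector can be chosen in the incidence algebra. -/
lemma eigenpair_inA (G : SimpleGraph (Fin n)) (lam : Fin n → ℝ) (hlam : Function.Injective lam)
    (i : Fin n) (ε : ℝ) (hε : 0 < ε) :
    ∃ δ > 0, ∀ Z : Matrix (Fin n) (Fin n) ℝ, InA G Z → (∀ k l, |Z k l| < δ) →
      ∃ μ : ℝ, |μ - lam i| < ε ∧ ∃ v : Fin n → ℝ, v i = 1 ∧ (∀ k, k ≠ i → |v k| ≤ ε) ∧
        (∀ k, v k ≠ 0 → Le G k i) ∧ (Matrix.diagonal lam + Z).mulVec v = μ • v := by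
  classical
  obtain ⟨γ, hγ, hgap⟩ := exists_gap lam hlam
  obtain ⟨δ, hδ, h⟩ := eigenpair lam hlam i (min ε γ) (lt_min hε hγ)
  refine ⟨δ, hδ, ?_⟩
  intro Z hZA hZ
  let Z' : Matrix (Fin n) (Fin n) ℝ := fun k l => if Le G k i ∧ Le G l i then Z k l else 0
  have hZ' : ∀ k l, |Z' k l| < δ := by
    intro k l
    by_cases hc : Le G k i ∧ Le G l i
    · simp only [Z', if_pos hc]; exact hZ k l
    · simp only [Z', if_neg hc, abs_zero]; exact hδ
  obtain ⟨μ, hμ, v, hvi, hv1, hv2⟩ := h Z' hZ'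
  have hrow : ∀ k, lam k * v k + ∑ l, Z' k l * v l = μ * v k := by
    intro k
    have h1 := congrFun hv2 k
    rw [Matrix.add_mulVec, Pi.add_apply, Matrix.mulVec_diagonal, Pi.smul_apply, smul_eq_mul] at h1
    exact h1
  have hsupp : ∀ k, v k ≠ 0 → Le G k i := by
    intro k hk
    by_contra hle
    have h1 := hrow k
    have h2 : ∑ l, Z' k l * v l = 0 := by
      apply Finset.sum_eq_zero
      intro l _
      have : Z' k l = 0 := by simp only [Z']; rw [if_neg]; exact fun hc => hle hc.1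
      rw [this, zero_mul]
    rw [h2, add_zero] at h1
    have hki : k ≠ i := by rintro rfl; exact hle (Le.refl G k)
    have h3 : lam k = μ := mul_right_cancel₀ hk h1
    have h4 := hgap i k hki
    rw [h3, abs_sub_comm] at h4
    have h5 := lt_of_lt_of_le hμ (min_le_right _ _)
    linarith
  refine ⟨μ, lt_of_lt_of_le hμ (min_le_left _ _), v, hvi,
    fun k hk => (hv1 k hk).trans (min_le_left _ _), hsupp, ?_⟩
  funext k
  rw [Matrix.add_mulVec, Pi.add_apply, Matrix.mulVec_diagonal, Pi.smul_apply, smul_eq_mul]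
  rw [← hrow k]
  congr 1
  change ∑ l, Z k l * v l = ∑ l, Z' k l * v l
  apply Finset.sum_congr rfl
  intro l _
  by_cases hvl : v l = 0
  · rw [hvl, mul_zero, mul_zero]
  · have hl := hsupp l hvl
    by_cases hk : Le G k i
    · simp only [Z', if_pos (⟨hk, hl⟩ : Le G k i ∧ Le G l i)]
    · have h1 : Z k l = 0 := by
        by_contra hc; exact hk ((hZA k l hc).trans hl)
      simp only [Z', if_neg (fun hc : Le G k i ∧ Le G l i => hk hc.1), h1]

/-- All eigenvectors together. -/
lemma eigenbasis (G : SimpleGraph (Fin n)) (lam : Fin n → ℝ) (hlam : Function.Injective lam)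
    (ε : ℝ) (hε : 0 < ε) :
    ∃ δ > 0, ∀ Z : Matrix (Fin n) (Fin n) ℝ, InA G Z → (∀ k l, |Z k l| < δ) →
      ∃ (μ : Fin n → ℝ) (Q : Matrix (Fin n) (Fin n) ℝ), (∀ i, |μ i - lam i| < ε) ∧
        (∀ i, Q i i = 1) ∧ (∀ i k, k ≠ i → |Q k i| ≤ ε) ∧ InA G Q ∧ Q.det ≠ 0 ∧
        Function.Injective μ ∧
        (Matrix.diagonal lam + Z) * Q = Q * Matrix.diagonal μ := by
  classical
  obtain ⟨γ, hγ, hgap⟩ := exists_gap lam hlam
  set ε' := min (min ε γ) (1 / (n + 1)) with hε'
  have hn : (0 : ℝ) < n + 1 := by positivity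
  have hε'0 : 0 < ε' := by rw [hε']; positivity
  have hε'1 : ε' ≤ ε := (min_le_left _ _).trans (min_le_left _ _)
  have hε'2 : ε' ≤ γ := (min_le_left _ _).trans (min_le_right _ _)
  have hε'3 : ε' ≤ 1 / (n + 1) := min_le_right _ _
  choose δ hδ h using fun i => eigenpair_inA G lam hlam i ε' hε'0
  obtain ⟨δ₀, hδ₀, hmin⟩ : ∃ δ₀ > 0, ∀ i, δ₀ ≤ δ i := by
    by_cases hne : Nonempty (Fin n)
    · obtain ⟨i₀, hi₀⟩ := Finite.exists_min δ
      exact ⟨δ i₀, hδ i₀, hi₀⟩
    · exact ⟨1, one_pos, fun i => absurd ⟨i⟩ hne⟩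
  refine ⟨δ₀, hδ₀, ?_⟩
  intro Z hZA hZ
  choose μ hμ v hv1 hv2 hv3 hv4 using fun i => h i Z hZA (fun k l => (hZ k l).trans_le (hmin i))
  let Q : Matrix (Fin n) (Fin n) ℝ := fun k i => v i k
  refine ⟨μ, Q, fun i => (hμ i).trans_le hε'1, hv1, fun i k hk => (hv2 i k hk).trans hε'1,
    fun k i hk => hv3 i k hk, ?_, ?_, ?_⟩
  · apply det_ne_zero_of_sum_col_lt_diag
    intro i
    have h1 : ‖Q i i‖ = 1 := by simp [Q, hv1 i]
    rw [h1]
    calc ∑ k ∈ Finset.univ.erase i, ‖Q k i‖ ≤ ∑ _k ∈ Finset.univ.erase i, ε' := by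
          apply Finset.sum_le_sum
          intro k hk
          rw [Real.norm_eq_abs]
          exact hv2 i k (Finset.ne_of_mem_erase hk)
      _ ≤ n * ε' := by
          rw [Finset.sum_const, nsmul_eq_mul]
          apply mul_le_mul_of_nonneg_right _ hε'0.le
          have : (Finset.univ.erase i).card ≤ n := by
            calc (Finset.univ.erase i).card ≤ (Finset.univ : Finset (Fin n)).card :=
                  Finset.card_le_card (Finset.erase_subset _ _)
              _ = n := by simp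
          exact_mod_cast this
      _ < 1 := by
          have h2 : (n + 1) * ε' ≤ 1 := by
            rw [le_div_iff₀ hn] at hε'3; linarith
          linarith
  · intro i j hij
    by_contra hne
    have h1 := hgap i j (fun h => hne h.symm)
    have h2 := (hμ i).trans_le hε'2
    have h3 := (hμ j).trans_le hε'2
    rw [hij] at h2
    have h4 : |lam i - lam j| ≤ |μ j - lam j| + |μ j - lam i| := by
      have : lam i - lam j = (μ j - lam j) - (μ j - lam i) := by ring
      rw [this]; exact abs_sub _ _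
    linarith
  · ext k i
    have h1 := congrFun (hv4 i) k
    rw [Matrix.mul_diagonal]
    have h2 : ((Matrix.diagonal lam + Z) * Q) k i = ((Matrix.diagonal lam + Z).mulVec (v i)) k := rfl
    rw [h2, h1, Pi.smul_apply, smul_eq_mul, mul_comm]

end Pool.Agent.Q31.AN
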